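import Pool.Agent.Lib.MP_140312_al.Defs

/-!
# Definitions for the counterexample (`MP_140312_al`)

* `Square` : a square of groups with trivial face group, all local groups and maps explicit.
  `i = false` is the left column, `i = true` the right column, `j = false` the bottom row,
  `j = true` the top row. `P i j` are the vertex groups, `H j` the groups of the horizontal edges
  (`A = H false` bottom edge, `K = H true` top edge), `V i` the groups of the vertical edges
  (`B = V false` left edge, `L = V true` right edge).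
* `Steps`, `Steps.OkAt`, `Steps.Period` : flats in the development, described by the local group
  elements crossed when one passes from one square of the flat to the next.
* `FinData` : the finite group problem; `FinData.toSquare` its square of groups.
* `IsAmalgam`, `cosetGraph` : Bass-Serre graphs.
-/

namespace Pool.Agent.MP_140312_al_Neg

open Pool.Agent.Lib.MP_140312_al

/-! ### Squares of groups -/

/-- A nonpositively curved square of groups with trivial face group. -/
structure Square where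
  P : Bool → Bool → Type
  H : Bool → Type
  V : Bool → Type
  [grpP : ∀ i j, Group (P i j)]
  [grpH : ∀ j, Group (H j)]
  [grpV : ∀ i, Group (V i)]
  h : ∀ i j, H j →* P i j
  v : ∀ i j, V i →* P i j
  h_inj : ∀ i j, Function.Injective (h i j)
  v_inj : ∀ i j, Function.Injective (v i j)
  disj : ∀ i j, (h i j).range ⊓ (v i j).range = ⊥

attribute [instance] Square.grpP Square.grpH Square.grpV

/-- The parity of an integer (`true` if odd). -/
def par (i : ℤ) : Bool := decide (i % 2 = 1)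

/-- Steps of a (candidate) flat whose squares are indexed by `ℤ × ℤ`; the square `(i, j)` lies
between the columns `i, i + 1` and the rows `j, j + 1`. `x i j` is the element crossed at column
`i` when passing from the square `(i - 1, j)` to the square `(i, j)`; `y i j` the element crossed
at row `j` when passing from the square `(i, j - 1)` to the square `(i, j)`. -/
structure Steps (S : Square) where
  x : ∀ i _ : ℤ, S.V (par i)
  y : ∀ _ j : ℤ, S.H (par j)

/-- At the vertex in column `i` and row `j` the four squares fit together and are distinct. -/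
structure Steps.OkAt {S : Square} (F : Steps S) (i j : ℤ) : Prop where
  rel : S.v (par i) (par j) (F.x i (j - 1)) * S.h (par i) (par j) (F.y i j) =
    S.h (par i) (par j) (F.y (i - 1) j) * S.v (par i) (par j) (F.x i j)
  x_ne : F.x i (j - 1) ≠ 1
  x_ne' : F.x i j ≠ 1
  y_ne : F.y (i - 1) j ≠ 1
  y_ne' : F.y i j ≠ 1

/-- `(m, n)` is a period of the steps (in particular `m` and `n` are even). -/
structure Steps.Period {S : Square} (F : Steps S) (m n : ℤ) : Prop where
  even_m : Even m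
  even_n : Even n
  x : ∀ i j, (⟨par (i + m), F.x (i + m) (j + n)⟩ : Σ b, S.V b) = ⟨par i, F.x i j⟩
  y : ∀ i j, (⟨par (j + n), F.y (i + m) (j + n)⟩ : Σ b, S.H b) = ⟨par j, F.y i j⟩

/-- There are flat squares of every size in the development. -/
def Square.HasPatches (S : Square) : Prop :=
  ∀ N : ℕ, ∃ F : Steps S, ∀ i j : ℤ, 0 < i → i < N → 0 < j → j < N → F.OkAt i j

/-- Some flat in the development has a nonzero period. -/
def Square.HasPeriodicFlat (S : Square) : Prop :=
  ∃ F : Steps S, (∀ i j, F.OkAt i j) ∧ ∃ m n : ℤ, (m, n) ≠ (0, 0) ∧ F.Period m n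

/-! ### Amalgams and coset graphs -/

section

variable {G : Type*} [Group G]

/-- The coset graph of two subgroups: vertices are the left cosets of `H₁` and of `H₂`, two
cosets are adjacent if they are of different kinds and meet. -/
def cosetGraph (H₁ H₂ : Subgroup G) : SimpleGraph ((G ⧸ H₁) ⊕ (G ⧸ H₂)) where
  Adj x y := (∃ g : G, x = Sum.inl (g : G ⧸ H₁) ∧ y = Sum.inr (g : G ⧸ H₂)) ∨
    (∃ g : G, y = Sum.inl (g : G ⧸ H₁) ∧ x = Sum.inr (g : G ⧸ H₂))
  symm := ⟨fun _ _ h => h.symm⟩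
  loopless := ⟨by
    rintro x (⟨g, h1, h2⟩ | ⟨g, h1, h2⟩) <;> rw [h1] at h2 <;> exact absurd h2 (by simp)⟩

/-- Alternating lists: the entries lie alternately in `H₁ \ H₂` and `H₂ \ H₁`; the first entry is
in `H₁` iff `b = true`. -/
def Alt (H₁ H₂ : Subgroup G) : Bool → List G → Prop
  | _, [] => True
  | true, g :: l => g ∈ H₁ ∧ g ∉ H₂ ∧ Alt H₁ H₂ false l
  | false, g :: l => g ∈ H₂ ∧ g ∉ H₁ ∧ Alt H₁ H₂ true l

/-- `G` is the amalgam of its subgroups `H₁` and `H₂` (over their intersection). -/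
structure IsAmalgam (H₁ H₂ : Subgroup G) : Prop where
  gen : H₁ ⊔ H₂ = ⊤
  ne_one : ∀ (b : Bool) (l : List G), l ≠ [] → Alt H₁ H₂ b l → l.prod ≠ 1

end

/-! ### Hyperbolic groups -/

/-- The word length of `g` with respect to `S` is at most `n`. -/
def WordLE {G : Type*} [Group G] (S : Set G) (g : G) (n : ℕ) : Prop :=
  ∃ l : List G, l.length ≤ n ∧ (∀ a ∈ l, a ∈ S ∨ a⁻¹ ∈ S) ∧ l.prod = g

/-- The word metric of `G` with respect to `S` (`0` if `S` does not generate). -/
noncomputable def wordDist {G : Type*} [Group G] (S : Set G) (g h : G) : ℕ :=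
  sInf {n | WordLE S (g⁻¹ * h) n}

/-- `G` is word-hyperbolic: it has a finite generating set whose word metric satisfies the
four-point condition. -/
def IsHyperbolicGroup (G : Type*) [Group G] : Prop :=
  ∃ S : Set G, S.Finite ∧ Subgroup.closure S = ⊤ ∧ ∃ δ : ℕ, ∀ a b c d : G,
    wordDist S a b + wordDist S c d ≤
      max (wordDist S a c + wordDist S b d) (wordDist S a d + wordDist S b c) + δ

/-! ### The finite group problem -/

/-- The finite group problem. `A` and `B` are subgroups of `Q` with trivial intersection, `ψ`, `ω`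
are automorphisms of `A`, `B`, and `τ` is an injective endomorphism of `Q`.
`A₁ = {a : v⁻¹ ψ(a) v ∈ A}`, `B₁ = {b : z⁻¹ ω(b) z ∈ B}`, `t_A(a) = ψ⁻¹(v⁻¹ ψ(a) v)`,
`t_B(b) = ω⁻¹(z⁻¹ ω(b) z)`. -/
structure FinData (Q : Type) [Group Q] where
  A : Subgroup Q
  B : Subgroup Q
  ψ : A ≃* A
  ω : B ≃* B
  τ : Q →* Q
  τ_inj : Function.Injective τ
  u : B
  v : B
  w : A
  z : A
  disj : A ⊓ B = ⊥
  -- `u` normalises `A`, `w` normalises `B`
  norm_u : ∀ a : A, (u : Q) * a * (u : Q)⁻¹ ∈ A
  norm_u' : ∀ a : A, (u : Q)⁻¹ * a * (u : Q) ∈ A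
  norm_w : ∀ b : B, (w : Q) * b * (w : Q)⁻¹ ∈ B
  norm_w' : ∀ b : B, (w : Q)⁻¹ * b * (w : Q) ∈ B
  -- `τ` extends `ψ⁻¹ c_u ψ²` and `ω⁻¹ c_w ω²`
  τA : ∀ a : A, τ a = ψ.symm ⟨(u : Q) * ψ (ψ a) * (u : Q)⁻¹, norm_u _⟩
  τB : ∀ b : B, τ b = ω.symm ⟨(w : Q) * ω (ω b) * (w : Q)⁻¹, norm_w _⟩
  -- `w, z ∈ A₁` and `u, v ∈ B₁`
  hw : (v : Q)⁻¹ * ψ w * v ∈ A
  hz : (v : Q)⁻¹ * ψ z * v ∈ A
  hu : (z : Q)⁻¹ * ω u * z ∈ B
  hv : (z : Q)⁻¹ * ω v * z ∈ B
  -- `t_B(u) t_A(z) = t_A(w) t_B(v)`
  rel : (ω.symm ⟨_, hu⟩ : Q) * (ψ.symm ⟨_, hz⟩ : Q) = (ψ.symm ⟨_, hw⟩ : Q) * (ω.symm ⟨_, hv⟩ : Q)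
  -- nondegeneracy
  hu1 : u ≠ 1
  hv1 : v ≠ 1
  hw1 : w ≠ 1
  hz1 : z ≠ 1
  huu : u * u ≠ 1
  hww : w * w ≠ 1
  huv : u ≠ v
  huv' : u * v ≠ 1
  hwz : w ≠ z
  hwz' : w * z ≠ 1
  hvv : ∀ a ∈ A, (v : Q) * a * v ∉ A
  hzz : ∀ b ∈ B, (z : Q) * b * z ∉ B
  -- exactness: the only relations `l k = k₁ l₁` with `l, l₁ ∈ t_B(B₁)`, `k, k₁ ∈ t_A(A₁)` are the
  -- four coming from `rel`
  exact : ∀ (l k k₁ l₁ : Q),
    (∃ b : B, ∃ h : (z : Q)⁻¹ * ω b * z ∈ B, l = (ω.symm ⟨_, h⟩ : Q)) →
    (∃ a : A, ∃ h : (v : Q)⁻¹ * ψ a * v ∈ A, k = (ψ.symm ⟨_, h⟩ : Q)) →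
    (∃ a : A, ∃ h : (v : Q)⁻¹ * ψ a * v ∈ A, k₁ = (ψ.symm ⟨_, h⟩ : Q)) →
    (∃ b : B, ∃ h : (z : Q)⁻¹ * ω b * z ∈ B, l₁ = (ω.symm ⟨_, h⟩ : Q)) →
    l ≠ 1 → k ≠ 1 → l * k = k₁ * l₁ →
      (l = (ω.symm ⟨_, hu⟩ : Q) ∧ k = (ψ.symm ⟨_, hz⟩ : Q)) ∨
      (l = (ω.symm ⟨_, hv⟩ : Q) ∧ k = (ψ.symm ⟨_, hz⟩ : Q)⁻¹) ∨
      (l = (ω.symm ⟨_, hu⟩ : Q)⁻¹ ∧ k = (ψ.symm ⟨_, hw⟩ : Q)) ∨
      (l = (ω.symm ⟨_, hv⟩ : Q)⁻¹ ∧ k = (ψ.symm ⟨_, hw⟩ : Q)⁻¹)

namespace FinData

variable {Q : Type} [Group Q] (D : FinData Q)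

/-- `A₁`, as a subgroup of `A`. -/
def A₁ : Subgroup D.A where
  carrier := {a | (D.v : Q)⁻¹ * D.ψ a * D.v ∈ D.A}
  mul_mem' {a b} ha hb := by
    have := D.A.mul_mem ha hb
    simpa [mul_assoc] using this
  one_mem' := by simp
  inv_mem' {a} ha := by
    have := D.A.inv_mem ha
    simpa [mul_assoc] using this

/-- `B₁`, as a subgroup of `B`. -/
def B₁ : Subgroup D.B where
  carrier := {b | (D.z : Q)⁻¹ * D.ω b * D.z ∈ D.B}
  mul_mem' {a b} ha hb := by
    have := D.B.mul_mem ha hb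
    simpa [mul_assoc] using this
  one_mem' := by simp
  inv_mem' {a} ha := by
    have := D.B.inv_mem ha
    simpa [mul_assoc] using this

/-- `t_A : A₁ → A`. -/
def tA : D.A₁ →* D.A where
  toFun a := D.ψ.symm ⟨(D.v : Q)⁻¹ * D.ψ a.1 * D.v, a.2⟩
  map_one' := by
    rw [MulEquiv.symm_apply_eq]
    ext
    simp
  map_mul' a b := by
    rw [← map_mul]
    congr 1
    ext
    simp [mul_assoc]

/-- `t_B : B₁ → B`. -/
def tB : D.B₁ →* D.B where
  toFun b := D.ω.symm ⟨(D.z : Q)⁻¹ * D.ω b.1 * D.z, b.2⟩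
  map_one' := by
    rw [MulEquiv.symm_apply_eq]
    ext
    simp
  map_mul' a b := by
    rw [← map_mul]
    congr 1
    ext
    simp [mul_assoc]

theorem tA_inj : Function.Injective D.tA := by
  intro a b hab
  have h1 := D.ψ.symm.injective hab
  have h2 : (D.v : Q)⁻¹ * D.ψ a.1 * D.v = (D.v : Q)⁻¹ * D.ψ b.1 * D.v := congrArg Subtype.val h1
  have h3 : (D.ψ a.1 : Q) = D.ψ b.1 := by simpa using h2
  exact Subtype.ext (D.ψ.injective (Subtype.ext h3))

theorem tB_inj : Function.Injective D.tB := by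
  intro a b hab
  have h1 := D.ω.symm.injective hab
  have h2 : (D.z : Q)⁻¹ * D.ω a.1 * D.z = (D.z : Q)⁻¹ * D.ω b.1 * D.z := congrArg Subtype.val h1
  have h3 : (D.ω a.1 : Q) = D.ω b.1 := by simpa using h2
  exact Subtype.ext (D.ω.injective (Subtype.ext h3))

/-- The horizontal edge groups of the square: `A` and `A₁`. -/
def EH : Bool → Type
  | false => D.A
  | true => D.A₁

/-- The vertical edge groups of the square: `B` and `B₁`. -/
def EV : Bool → Type
  | false => D.B
  | true => D.B₁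

instance : ∀ j, Group (D.EH j)
  | false => inferInstanceAs (Group D.A)
  | true => inferInstanceAs (Group D.A₁)

instance : ∀ j, Group (D.EV j)
  | false => inferInstanceAs (Group D.B)
  | true => inferInstanceAs (Group D.B₁)

/-- The maps of the horizontal edge groups: `A → Q` is the inclusion (left) and `ψ` (right),
`A₁ → Q` is the inclusion (left) and `t_A` (right). -/
def mapH : ∀ _ j : Bool, D.EH j →* Q
  | false, false => D.A.subtype
  | true, false => D.A.subtype.comp D.ψ.toMonoidHom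
  | false, true => D.A.subtype.comp D.A₁.subtype
  | true, true => D.A.subtype.comp D.tA

/-- The maps of the vertical edge groups: `B → Q` is the inclusion (bottom) and `ω` (top),
`B₁ → Q` is the inclusion (bottom) and `t_B` (top). -/
def mapV : ∀ i _ : Bool, D.EV i →* Q
  | false, false => D.B.subtype
  | false, true => D.B.subtype.comp D.ω.toMonoidHom
  | true, false => D.B.subtype.comp D.B₁.subtype
  | true, true => D.B.subtype.comp D.tB

/-- The square of groups of a finite group problem; all four vertex groups are `Q`. -/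
def toSquare : Square where
  P := fun _ _ => Q
  H := D.EH
  V := D.EV
  h := D.mapH
  v := D.mapV
  h_inj := by
    rintro (_ | _) (_ | _)
    · exact Subtype.val_injective
    · exact Subtype.val_injective.comp Subtype.val_injective
    · exact Subtype.val_injective.comp D.ψ.injective
    · exact Subtype.val_injective.comp D.tA_inj
  v_inj := by
    rintro (_ | _) (_ | _)
    · exact Subtype.val_injective
    · exact Subtype.val_injective.comp D.ω.injective
    · exact Subtype.val_injective.comp Subtype.val_injective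
    · exact Subtype.val_injective.comp D.tB_inj
  disj := by
    intro i j
    rw [eq_bot_iff, ← D.disj]
    apply inf_le_inf
    · rcases i with _ | _ <;> rcases j with _ | _ <;> rintro _ ⟨a, rfl⟩ <;> exact Subtype.prop _
    · rcases i with _ | _ <;> rcases j with _ | _ <;> rintro _ ⟨a, rfl⟩ <;> exact Subtype.prop _

end FinData

end Pool.Agent.MP_140312_al_Neg
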