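import Pool.Agent.Lib.MP_140312_al_SG.SqData
import Pool.Agent.Lib.MP_140312_al_Neg.Defs

/-!
# Steps and arrays of squares
-/

namespace Pool.Agent.MP_140312_al_Neg

open Pool.Agent.Lib.MP_140312_al Pool.Agent.Lib.MP_140312_al_SG

/-- The data of a square of groups. -/
def Square.toSqData (S : Square) : SqData where
  P := S.P
  E := S.H
  F := S.V
  h := S.h
  v := S.v
  h_inj := S.h_inj
  v_inj := S.v_inj
  npc := by
    intro i j e f h
    have h1 : S.h i j e ∈ (S.h i j).range ⊓ (S.v i j).range := ⟨⟨e, rfl⟩, ⟨f, h.symm⟩⟩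
    rw [S.disj, Subgroup.mem_bot] at h1
    exact S.h_inj i j (h1.trans (map_one _).symm)

theorem par_eq_bodd (i : ℤ) : i.bodd = par i := by
  have h := i.bodd_add_div2
  unfold par
  cases hb : i.bodd
  · rw [hb] at h
    have h' : i % 2 ≠ 1 := by
      simp only [cond_false] at h
      omega
    simp [h']
  · rw [hb] at h
    have h' : i % 2 = 1 := by
      simp only [cond_true] at h
      omega
    simp [h']

/-- `G` realises the square of groups `S`. -/
structure Realises (S : Square) (G : Type) [Group G] (ι : ∀ i j, S.P i j →* G) : Prop where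
  compat_h : ∀ j e, ι false j (S.h false j e) = ι true j (S.h true j e)
  compat_v : ∀ i e, ι i false (S.v i false e) = ι i true (S.v i true e)
  inj : ∀ i j, Function.Injective (ι i j)
  hedge_eq : ∀ j, hedge (fun i j => (ι i j).range) j = ((ι false j).comp (S.h false j)).range
  vedge_eq : ∀ i, vedge (fun i j => (ι i j).range) i = ((ι i false).comp (S.v i false)).range

variable {S : Square} {G : Type} [Group G] {ι : ∀ i j, S.P i j →* G}

/-- The horizontal edge groups in `G`. -/
def hι (ι : ∀ i j, S.P i j →* G) (j : Bool) : S.H j →* G := (ι false j).comp (S.h false j)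

/-- The vertical edge groups in `G`. -/
def vι (ι : ∀ i j, S.P i j →* G) (i : Bool) : S.V i →* G := (ι i false).comp (S.v i false)

namespace Realises

theorem map_h (R : Realises S G ι) (i j : Bool) (e : S.H j) : ι i j (S.h i j e) = hι ι j e := by
  cases i
  · rfl
  · exact (R.compat_h j e).symm

theorem map_v (R : Realises S G ι) (i j : Bool) (e : S.V i) : ι i j (S.v i j e) = vι ι i e := by
  cases j
  · rfl
  · exact (R.compat_v i e).symm

theorem hι_inj (R : Realises S G ι) (j : Bool) : Function.Injective (hι ι j) :=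
  (R.inj false j).comp (S.h_inj false j)

theorem vι_inj (R : Realises S G ι) (i : Bool) : Function.Injective (vι ι i) :=
  (R.inj i false).comp (S.v_inj i false)

/-- The relation at a vertex, in `G`. -/
theorem rel (R : Realises S G ι) {i j : Bool} {x x' : S.V i} {y y' : S.H j}
    (h : S.v i j x * S.h i j y = S.h i j y' * S.v i j x') :
    vι ι i x * hι ι j y = hι ι j y' * vι ι i x' := by
  rw [← R.map_v i j x, ← R.map_h i j y, ← R.map_h i j y', ← R.map_v i j x', ← map_mul, h, map_mul]

theorem rel_iff (R : Realises S G ι) {i j : Bool} {x x' : S.V i} {y y' : S.H j} :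
    vι ι i x * hι ι j y = hι ι j y' * vι ι i x' ↔
      S.v i j x * S.h i j y = S.h i j y' * S.v i j x' := by
  refine ⟨fun h => ?_, R.rel⟩
  rw [← R.map_v i j x, ← R.map_h i j y, ← R.map_h i j y', ← R.map_v i j x', ← map_mul,
    ← map_mul] at h
  exact R.inj i j h

end Realises

/-! ### From steps to arrays -/

/-- The squares in the bottom row. -/
def rowProd (ι : ∀ i j, S.P i j →* G) (F : Steps S) : ℕ → G
  | 0 => 1
  | i + 1 => rowProd ι F i * vι ι _ (F.x ((i : ℤ) + 1) 0)

/-- The squares above the square `g` of column `i`. -/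
def colProd (ι : ∀ i j, S.P i j →* G) (F : Steps S) (i : ℤ) (g : G) : ℕ → G
  | 0 => g
  | j + 1 => colProd ι F i g j * hι ι _ (F.y i ((j : ℤ) + 1))

/-- The array of squares of the steps `F`. -/
def arr (ι : ∀ i j, S.P i j →* G) (F : Steps S) (i j : ℤ) : G :=
  colProd ι F i (rowProd ι F i.toNat) j.toNat

theorem arr_vert (F : Steps S) {i j : ℤ} (hj : 0 ≤ j) :
    (arr ι F i j)⁻¹ * arr ι F i (j + 1) = hι ι _ (F.y i (j + 1)) := by
  obtain ⟨n, rfl⟩ := Int.eq_ofNat_of_zero_le hj
  have h1 : ((n : ℤ) + 1).toNat = n + 1 := by omega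
  unfold arr
  rw [h1]
  simp only [Int.toNat_natCast, colProd]
  group

theorem arr_hor (R : Realises S G ι) (F : Steps S) {i : ℤ} (hi : 0 ≤ i) (n : ℕ)
    (hF : ∀ j : ℤ, 0 < j → j ≤ n → F.OkAt (i + 1) j) :
    (arr ι F i n)⁻¹ * arr ι F (i + 1) n = vι ι _ (F.x (i + 1) n) := by
  induction n with
  | zero =>
    obtain ⟨m, rfl⟩ := Int.eq_ofNat_of_zero_le hi
    have h1 : ((m : ℤ) + 1).toNat = m + 1 := by omega
    unfold arr
    rw [h1, Nat.cast_zero, Int.toNat_zero]
    simp only [Int.toNat_natCast, colProd, rowProd]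
    group
  | succ n ih =>
    have ih' := ih (fun j hj hjn => hF j hj (by push_cast; omega))
    have hv := arr_vert (ι := ι) F (i := i) (j := (n : ℤ)) (by positivity)
    have hv' := arr_vert (ι := ι) F (i := i + 1) (j := (n : ℤ)) (by positivity)
    have ok := hF ((n : ℤ) + 1) (by positivity) (by push_cast; omega)
    have hrel := R.rel ok.rel
    have e1 : (i + 1 : ℤ) - 1 = i := by ring
    have e2 : ((n : ℤ) + 1) - 1 = n := by ring
    rw [e1, e2] at hrel
    push_cast
    have h3 : arr ι F i ((n : ℤ) + 1) = arr ι F i n * hι ι _ (F.y i ((n : ℤ) + 1)) := by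
      rw [← hv]; group
    have h4 : arr ι F (i + 1) ((n : ℤ) + 1) =
        arr ι F i n * vι ι _ (F.x (i + 1) n) * hι ι _ (F.y (i + 1) ((n : ℤ) + 1)) := by
      rw [← hv', ← ih']; group
    rw [h3, h4, mul_assoc, hrel]
    group

/-- Steps that fit together in a square give an array of squares. -/
theorem isArrayOn_arr (R : Realises S G ι) (F : Steps S) (N : ℤ) (hN : 0 < N)
    (hF : ∀ i j : ℤ, 0 < i → i ≤ N → 0 < j → j ≤ N → F.OkAt i j) :
    IsArrayOn (fun i j => (ι i j).range) (Set.Icc 0 N) (Set.Icc 0 N) (arr ι F) := by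
  have hor : ∀ i ∈ Set.Icc (0 : ℤ) N, i + 1 ∈ Set.Icc (0 : ℤ) N → ∀ j ∈ Set.Icc (0 : ℤ) N,
      (arr ι F i j)⁻¹ * arr ι F (i + 1) j = vι ι _ (F.x (i + 1) j) := by
    intro i hi hi' j hj
    obtain ⟨n, rfl⟩ := Int.eq_ofNat_of_zero_le hj.1
    exact arr_hor R F hi.1 n (fun k hk hkn => hF _ _ (by have := hi.1; omega) hi'.2 hk
      (hkn.trans hj.2))
  have xne : ∀ i ∈ Set.Icc (0 : ℤ) N, i + 1 ∈ Set.Icc (0 : ℤ) N → ∀ j ∈ Set.Icc (0 : ℤ) N,
      F.x (i + 1) j ≠ 1 := by
    intro i hi hi' j hj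
    rcases eq_or_lt_of_le hj.1 with h0 | h0
    · have := (hF (i + 1) 1 (by have := hi.1; omega) hi'.2 one_pos (by omega)).x_ne
      rw [← h0]
      simpa using this
    · exact (hF (i + 1) j (by have := hi.1; omega) hi'.2 h0 hj.2).x_ne'
  have yne : ∀ i ∈ Set.Icc (0 : ℤ) N, ∀ j ∈ Set.Icc (0 : ℤ) N, j + 1 ∈ Set.Icc (0 : ℤ) N →
      F.y i (j + 1) ≠ 1 := by
    intro i hi j hj hj'
    rcases eq_or_lt_of_le hi.1 with h0 | h0
    · have := (hF 1 (j + 1) one_pos (by omega) (by have := hj.1; omega) hj'.2).y_ne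
      rw [← h0]
      simpa using this
    · exact (hF i (j + 1) h0 hi.2 (by have := hj.1; omega) hj'.2).y_ne'
  refine ⟨?_, ?_, ?_, ?_⟩
  · intro i hi hi' j hj
    rw [hor i hi hi' j hj, par_eq_bodd, R.vedge_eq]
    exact ⟨_, rfl⟩
  · intro i hi hi' j hj h
    have h1 := hor i hi hi' j hj
    rw [← h, inv_mul_cancel] at h1
    exact xne i hi hi' j hj (R.vι_inj _ (h1.symm.trans (map_one _).symm))
  · intro i hi j hj hj'
    rw [arr_vert F hj.1, par_eq_bodd, R.hedge_eq]
    exact ⟨_, rfl⟩
  · intro i hi j hj hj' h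
    have h1 := arr_vert (ι := ι) F (i := i) hj.1
    rw [← h, inv_mul_cancel] at h1
    exact yne i hi j hj hj' (R.hι_inj _ (h1.symm.trans (map_one _).symm))

/-- Large patches give large arrays. -/
theorem exists_isArrayOn (R : Realises S G ι) (hS : S.HasPatches) (N : ℤ) :
    ∃ F : ℤ → ℤ → G, IsArrayOn (fun i j => (ι i j).range) (Set.Icc 0 N) (Set.Icc 0 N) F := by
  obtain ⟨F, hF⟩ := hS (N.toNat + 2)
  have h := isArrayOn_arr R F (N.toNat + 1) (by positivity)
    (fun i j hi hi' hj hj' => hF i j hi (by push_cast; omega) hj (by push_cast; omega))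
  refine ⟨_, ⟨fun i hi hi' j hj => h.hmem i ?_ ?_ j ?_, fun i hi hi' j hj => h.hne i ?_ ?_ j ?_,
    fun i hi j hj hj' => h.vmem i ?_ j ?_ ?_, fun i hi j hj hj' => h.vne i ?_ j ?_ ?_⟩⟩ <;>
    simp only [Set.mem_Icc] at * <;> omega

/-! ### From arrays to steps -/

/-- A translated array of squares gives steps with a period. -/
theorem hasPeriodicFlat (R : Realises S G ι) (F : ℤ → ℤ → G)
    (hF : IsArray (fun i j => (ι i j).range) F) {h : G} {a b : ℤ} (hab : a ≠ 0 ∨ b ≠ 0)
    (hper : ∀ i j, h * F i j = F (i + a) (j + b)) : S.HasPeriodicFlat := by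
  have hx : ∀ i j : ℤ, ∃ e : S.V (par i), vι ι _ e = (F (i - 1) j)⁻¹ * F i j := by
    intro i j
    have h1 := hF.hmem (i - 1) trivial trivial j trivial
    rw [par_eq_bodd, R.vedge_eq, sub_add_cancel] at h1
    exact h1
  have hy : ∀ i j : ℤ, ∃ e : S.H (par j), hι ι _ e = (F i (j - 1))⁻¹ * F i j := by
    intro i j
    have h1 := hF.vmem i trivial (j - 1) trivial trivial
    rw [par_eq_bodd, R.hedge_eq, sub_add_cancel] at h1
    exact h1
  choose x hx using hx
  choose y hy using hy
  have hxne : ∀ i j, x i j ≠ 1 := by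
    intro i j h1
    have h2 := hx i j
    rw [h1, map_one] at h2
    have h3 := hF.hne (i - 1) trivial trivial j trivial
    rw [sub_add_cancel] at h3
    exact h3 (by rw [eq_inv_mul_iff_mul_eq, mul_one] at h2; exact h2)
  have hyne : ∀ i j, y i j ≠ 1 := by
    intro i j h1
    have h2 := hy i j
    rw [h1, map_one] at h2
    have h3 := hF.vne i trivial (j - 1) trivial trivial
    rw [sub_add_cancel] at h3
    exact h3 (by rw [eq_inv_mul_iff_mul_eq, mul_one] at h2; exact h2)
  refine ⟨⟨x, y⟩, fun i j => ⟨?_, hxne _ _, hxne _ _, hyne _ _, hyne _ _⟩, 2 * a, 2 * b, ?_,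
    ⟨even_two_mul a, even_two_mul b, ?_, ?_⟩⟩
  · rw [← R.rel_iff]
    simp only [hx, hy]
    group
  · intro h0
    simp only [Prod.mk.injEq] at h0
    omega
  · intro i j
    have hp : par (i + 2 * a) = par i := by
      unfold par
      congr 1
      rw [eq_iff_iff]
      constructor <;> intro h <;> omega
    have key : ∀ (p q : Bool) (hpq : p = q) (e : S.V p) (f : S.V q), vι ι p e = vι ι q f →
        (⟨p, e⟩ : Σ b, S.V b) = ⟨q, f⟩ := by
      rintro p q rfl e f hef
      rw [R.vι_inj p hef]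
    refine key _ _ hp _ _ ?_
    have e1 : ∀ k l, F (k + 2 * a) (l + 2 * b) = h * (h * F k l) := by
      intro k l
      rw [hper, hper]
      congr 1 <;> ring
    have e2 : i + 2 * a - 1 = (i - 1) + 2 * a := by ring
    simp only [hx]
    rw [e2, e1, e1]
    group
  · intro i j
    have hp : par (j + 2 * b) = par j := by
      unfold par
      congr 1
      rw [eq_iff_iff]
      constructor <;> intro h <;> omega
    have key : ∀ (p q : Bool) (hpq : p = q) (e : S.H p) (f : S.H q), hι ι p e = hι ι q f →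
        (⟨p, e⟩ : Σ b, S.H b) = ⟨q, f⟩ := by
      rintro p q rfl e f hef
      rw [R.hι_inj p hef]
    refine key _ _ hp _ _ ?_
    have e1 : ∀ k l, F (k + 2 * a) (l + 2 * b) = h * (h * F k l) := by
      intro k l
      rw [hper, hper]
      congr 1 <;> ring
    have e2 : j + 2 * b - 1 = (j - 1) + 2 * b := by ring
    simp only [hy]
    rw [e2, e1, e1]
    group

end Pool.Agent.MP_140312_al_Neg
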