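import Pool.Agent.Lib.MP_140312_al_Neg.Defs

/-!
# Tilings over a finite group with a self-similar structure

The combinatorial heart of the counterexample to flat closing: flats of the complex are encoded
by tilings `x y : ℤ → ℤ → P` of the plane (`x i j` is the element by which the flat crosses from
the square `(i, j)` to the square `(i + 1, j)`, and `y i j` from `(i, j)` to `(i, j + 1)`), and all
tilings desubstitute, so that none of them is periodic.
-/

namespace Pool.Agent.MP_140312_al_Neg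

/-- The local data: `P` is the (common) vertex group; `A`, `B`, `K`, `L` are the groups of the
four edges of the base square (bottom, left, top, right); `psi`, `omega`, `tA`, `tB` are the
attaching maps, `Phi` is the self-similarity on the vertex group, `u, v, w, z` define the block.
The functions `psi`, ... are only used on the indicated subgroups. -/
structure TData (P : Type*) [Group P] where
  A : Subgroup P
  B : Subgroup P
  K : Subgroup P
  L : Subgroup P
  psi : P → P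
  omega : P → P
  tA : P → P
  tB : P → P
  Phi : P →* P
  u : P
  v : P
  w : P
  z : P
  KA : K ≤ A
  LB : L ≤ B
  disj : ∀ g ∈ A, g ∈ B → g = 1
  uL : u ∈ L
  vL : v ∈ L
  wK : w ∈ K
  zK : z ∈ K
  psi_mem : ∀ a ∈ A, psi a ∈ A
  psi_mul : ∀ a ∈ A, ∀ b ∈ A, psi (a * b) = psi a * psi b
  psi_inj : ∀ a ∈ A, ∀ b ∈ A, psi a = psi b → a = b
  omega_mem : ∀ a ∈ B, omega a ∈ B
  omega_mul : ∀ a ∈ B, ∀ b ∈ B, omega (a * b) = omega a * omega b
  omega_inj : ∀ a ∈ B, ∀ b ∈ B, omega a = omega b → a = b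
  u_conj : ∀ a ∈ A, u * a * u⁻¹ ∈ A
  u_conj' : ∀ a ∈ A, u⁻¹ * a * u ∈ A
  w_conj : ∀ b ∈ B, w * b * w⁻¹ ∈ B
  w_conj' : ∀ b ∈ B, w⁻¹ * b * w ∈ B
  Phi_inj : Function.Injective Phi
  Phi_memA : ∀ a ∈ A, Phi a ∈ A
  Phi_memB : ∀ b ∈ B, Phi b ∈ B
  Phi_surjA : ∀ a ∈ A, ∃ a' ∈ A, Phi a' = a
  Phi_surjB : ∀ b ∈ B, ∃ b' ∈ B, Phi b' = b
  psi_Phi : ∀ a ∈ A, psi (Phi a) = u * psi (psi a) * u⁻¹
  omega_Phi : ∀ b ∈ B, omega (Phi b) = w * omega (omega b) * w⁻¹
  tA_mem : ∀ k ∈ K, tA k ∈ A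
  tB_mem : ∀ l ∈ L, tB l ∈ B
  tA_mul : ∀ a ∈ K, ∀ b ∈ K, tA (a * b) = tA a * tA b
  tB_mul : ∀ a ∈ L, ∀ b ∈ L, tB (a * b) = tB a * tB b
  psi_tA : ∀ k ∈ K, psi (tA k) = v⁻¹ * psi k * v
  omega_tB : ∀ l ∈ L, omega (tB l) = z⁻¹ * omega l * z
  exA : ∀ a ∈ A, v⁻¹ * psi a * v ∈ A → a ∈ K
  exB : ∀ b ∈ B, z⁻¹ * omega b * z ∈ B → b ∈ L
  block : tB u * tA z = tA w * tB v
  exact : ∀ l ∈ L, ∀ l' ∈ L, ∀ k ∈ K, ∀ k' ∈ K, l ≠ 1 → l' ≠ 1 → k ≠ 1 → k' ≠ 1 →
    tB l * tA k' = tA k * tB l' →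
    (l = u ∧ k' = z ∧ k = w ∧ l' = v) ∨ (l = u⁻¹ ∧ k' = w ∧ k = z ∧ l' = v⁻¹) ∨
    (l = v ∧ k' = z⁻¹ ∧ k = w⁻¹ ∧ l' = u) ∨ (l = v⁻¹ ∧ k' = w⁻¹ ∧ k = z⁻¹ ∧ l' = u⁻¹)
  uu : u * u ≠ 1
  ww : w * w ≠ 1
  vu : v ≠ u
  vu' : v ≠ u⁻¹
  zw : z ≠ w
  zw' : z ≠ w⁻¹
  flipA : ∀ a ∈ A, v * a * v ∉ A
  flipB : ∀ b ∈ B, z * b * z ∉ B

variable {P : Type*} [Group P]

namespace TData

/-- Exchanging the two directions. -/
def swap (D : TData P) : TData P where
  A := D.B
  B := D.A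
  K := D.L
  L := D.K
  psi := D.omega
  omega := D.psi
  tA := D.tB
  tB := D.tA
  Phi := D.Phi
  u := D.w
  v := D.z
  w := D.u
  z := D.v
  KA := D.LB
  LB := D.KA
  disj g h1 h2 := D.disj g h2 h1
  uL := D.wK
  vL := D.zK
  wK := D.uL
  zK := D.vL
  psi_mem := D.omega_mem
  psi_mul := D.omega_mul
  psi_inj := D.omega_inj
  omega_mem := D.psi_mem
  omega_mul := D.psi_mul
  omega_inj := D.psi_inj
  u_conj := D.w_conj
  u_conj' := D.w_conj'
  w_conj := D.u_conj
  w_conj' := D.u_conj'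
  Phi_inj := D.Phi_inj
  Phi_memA := D.Phi_memB
  Phi_memB := D.Phi_memA
  Phi_surjA := D.Phi_surjB
  Phi_surjB := D.Phi_surjA
  psi_Phi := D.omega_Phi
  omega_Phi := D.psi_Phi
  tA_mem := D.tB_mem
  tB_mem := D.tA_mem
  tA_mul := D.tB_mul
  tB_mul := D.tA_mul
  psi_tA := D.omega_tB
  omega_tB := D.psi_tA
  exA := D.exB
  exB := D.exA
  block := D.block.symm
  exact := by
    intro l hl l' hl' k hk k' hk' h1 h2 h3 h4 h
    rcases D.exact k hk k' hk' l hl l' hl' h3 h4 h1 h2 h.symm with h | h | h | h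
    · exact Or.inl ⟨h.2.2.1, h.2.2.2, h.1, h.2.1⟩
    · exact Or.inr (Or.inr (Or.inl ⟨h.2.2.1, h.2.2.2, h.1, h.2.1⟩))
    · exact Or.inr (Or.inl ⟨h.2.2.1, h.2.2.2, h.1, h.2.1⟩)
    · exact Or.inr (Or.inr (Or.inr ⟨h.2.2.1, h.2.2.2, h.1, h.2.1⟩))
  uu := D.ww
  ww := D.uu
  vu := D.zw
  vu' := D.zw'
  zw := D.vu
  zw' := D.vu'
  flipA := D.flipB
  flipB := D.flipA

/-- A tiling of the plane. -/
structure Tiling (D : TData P) (x y : ℤ → ℤ → P) : Prop where
  x_even : ∀ i j, Even i → x i j ∈ D.L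
  x_odd : ∀ i j, ¬ Even i → x i j ∈ D.B
  x_ne : ∀ i j, x i j ≠ 1
  y_even : ∀ i j, Even j → y i j ∈ D.K
  y_odd : ∀ i j, ¬ Even j → y i j ∈ D.A
  y_ne : ∀ i j, y i j ≠ 1
  c_ee : ∀ i j, Even i → Even j →
    D.tB (x i j) * D.tA (y (i + 1) j) = D.tA (y i j) * D.tB (x i (j + 1))
  c_oe : ∀ i j, ¬ Even i → Even j →
    D.omega (x i j) * y (i + 1) j = y i j * D.omega (x i (j + 1))
  c_eo : ∀ i j, Even i → ¬ Even j →
    x i j * D.psi (y (i + 1) j) = D.psi (y i j) * x i (j + 1)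
  c_oo : ∀ i j, ¬ Even i → ¬ Even j →
    x i j * y (i + 1) j = y i j * x i (j + 1)

lemma Tiling.swap {D : TData P} {x y : ℤ → ℤ → P} (h : D.Tiling x y) :
    D.swap.Tiling (fun i j => y j i) (fun i j => x j i) where
  x_even i j hi := h.y_even j i hi
  x_odd i j hi := h.y_odd j i hi
  x_ne i j := h.y_ne j i
  y_even i j hi := h.x_even j i hi
  y_odd i j hi := h.x_odd j i hi
  y_ne i j := h.x_ne j i
  c_ee i j hi hj := (h.c_ee j i hj hi).symm
  c_oe i j hi hj := (h.c_eo j i hj hi).symm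
  c_eo i j hi hj := (h.c_oe j i hj hi).symm
  c_oo i j hi hj := (h.c_oo j i hj hi).symm

lemma Tiling.shift {D : TData P} {x y : ℤ → ℤ → P} (h : D.Tiling x y) (a b : ℤ) :
    D.Tiling (fun i j => x (i + 2 * a) (j + 2 * b)) (fun i j => y (i + 2 * a) (j + 2 * b)) where
  x_even i j hi := h.x_even _ _ (by simpa [Int.even_add] using hi)
  x_odd i j hi := h.x_odd _ _ (by simpa [Int.even_add] using hi)
  x_ne i j := h.x_ne _ _
  y_even i j hi := h.y_even _ _ (by simpa [Int.even_add] using hi)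
  y_odd i j hi := h.y_odd _ _ (by simpa [Int.even_add] using hi)
  y_ne i j := h.y_ne _ _
  c_ee i j hi hj := by
    have := h.c_ee (i + 2 * a) (j + 2 * b) (by simpa [Int.even_add] using hi)
      (by simpa [Int.even_add] using hj)
    simpa [add_right_comm] using this
  c_oe i j hi hj := by
    have := h.c_oe (i + 2 * a) (j + 2 * b) (by simpa [Int.even_add] using hi)
      (by simpa [Int.even_add] using hj)
    simpa [add_right_comm] using this
  c_eo i j hi hj := by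
    have := h.c_eo (i + 2 * a) (j + 2 * b) (by simpa [Int.even_add] using hi)
      (by simpa [Int.even_add] using hj)
    simpa [add_right_comm] using this
  c_oo i j hi hj := by
    have := h.c_oo (i + 2 * a) (j + 2 * b) (by simpa [Int.even_add] using hi)
      (by simpa [Int.even_add] using hj)
    simpa [add_right_comm] using this

variable (D : TData P)

lemma wA : D.w ∈ D.A := D.KA D.wK
lemma zA : D.z ∈ D.A := D.KA D.zK
lemma uB : D.u ∈ D.B := D.LB D.uL
lemma vB : D.v ∈ D.B := D.LB D.vL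

/-- Values of `x` at the bottom of a block. -/
def xb : Bool → Bool → P
  | true, true => D.u
  | false, true => D.u⁻¹
  | true, false => D.v
  | false, false => D.v⁻¹
/-- Values of `x` at the top of a block. -/
def xt : Bool → Bool → P
  | true, true => D.v
  | false, true => D.v⁻¹
  | true, false => D.u
  | false, false => D.u⁻¹
/-- Values of `y` at the left of a block. -/
def yl : Bool → Bool → P
  | true, true => D.w
  | false, true => D.z
  | true, false => D.w⁻¹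
  | false, false => D.z⁻¹
/-- Values of `y` at the right of a block. -/
def yr : Bool → Bool → P
  | true, true => D.z
  | false, true => D.w
  | true, false => D.z⁻¹
  | false, false => D.w⁻¹

/-- The block with lower left square `(2 I, 2 J)` has orientation `(η, ε)`. -/
def Blk (x y : ℤ → ℤ → P) (η ε : Bool) (I J : ℤ) : Prop :=
  x (2 * I) (2 * J) = D.xb η ε ∧ x (2 * I) (2 * J + 1) = D.xt η ε ∧
    y (2 * I) (2 * J) = D.yl η ε ∧ y (2 * I + 1) (2 * J) = D.yr η ε

lemma yr_ne : ∀ η ε η' ε', D.yr η ε = D.yl η' ε' → True := by intros; trivial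

lemma Tiling.exists_blk {D : TData P} {x y : ℤ → ℤ → P} (h : D.Tiling x y) (I J : ℤ) :
    ∃ η ε, D.Blk x y η ε I J := by
  have e1 : Even (2 * I) := even_two_mul I
  have e2 : Even (2 * J) := even_two_mul J
  rcases D.exact _ (h.x_even _ (2 * J) e1) _ (h.x_even _ (2 * J + 1) e1) _ (h.y_even (2 * I) _ e2) _
    (h.y_even (2 * I + 1) _ e2) (h.x_ne _ _) (h.x_ne _ _) (h.y_ne _ _) (h.y_ne _ _)
    (h.c_ee _ _ e1 e2) with ⟨a, b, c, d⟩ | ⟨a, b, c, d⟩ | ⟨a, b, c, d⟩ | ⟨a, b, c, d⟩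
  · exact ⟨true, true, a, d, c, b⟩
  · exact ⟨false, true, a, d, c, b⟩
  · exact ⟨true, false, a, d, c, b⟩
  · exact ⟨false, false, a, d, c, b⟩

lemma vv : D.v * D.v ≠ 1 := by
  intro h
  apply D.flipA 1 (one_mem _)
  simp [h, one_mem]

lemma xb_inj {η ε η' ε' : Bool} (h : D.xb η ε = D.xb η' ε') : η = η' ∧ ε = ε' := by
  have h1 := D.uu
  have h2 := D.vu
  have h3 := D.vu'
  have h4 := D.vv
  have h5 : D.u ≠ D.u⁻¹ := fun h => h1 (by nth_rewrite 2 [h]; simp)
  have h6 : D.v ≠ D.v⁻¹ := fun h => h4 (by nth_rewrite 2 [h]; simp)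
  have h7 : D.u ≠ D.v⁻¹ := fun h => h3 (by rw [h]; simp)
  cases η <;> cases ε <;> cases η' <;> cases ε' <;> simp only [xb] at h <;>
    first
      | exact ⟨rfl, rfl⟩
      | (exfalso; first
          | exact h5 h | exact h5 h.symm | exact h6 h | exact h6 h.symm | exact h2 h
          | exact h2 h.symm | exact h3 h | exact h3 h.symm | exact h7 h | exact h7 h.symm
          | exact h2 (inv_injective h) | exact h2 (inv_injective h).symm)

/-- The corner between two horizontally adjacent blocks. -/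
lemma corner_oe {η ε η' ε' : Bool} {b b' : P} (hb : b ∈ D.B) (hb' : b' ∈ D.B)
    (h : b * D.yl η' ε' = D.yr η ε * b') : η' = !η ∧ ε' = ε := by
  have hw := D.wA
  have hz := D.zA
  have hw' := inv_mem hw
  have hz' := inv_mem hz
  -- elements of `A` which lie in `B` are trivial
  have key : ∀ g ∈ D.A, ∀ c ∈ D.B, g * c ∈ D.B → g = 1 := by
    intro g hg c hc hgc
    apply D.disj g hg
    have := mul_mem hgc (inv_mem hc)
    simpa using this
  have ww := D.ww
  have hww : D.w ≠ D.w⁻¹ := fun h => ww (by nth_rewrite 2 [h]; simp)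
  have c1 := D.w_conj b hb
  have c2 := D.w_conj' b hb
  have c3 := D.w_conj b' hb'
  have c4 := D.w_conj' b' hb'
  -- the possible contradictions
  have caseWW : ∀ y ∈ D.A, b * y = D.w * b' → y = D.w := by
    intro y hy e
    have : D.w⁻¹ * y = 1 := by
      apply D.disj _ (mul_mem hw' hy)
      have e' : D.w⁻¹ * y = (D.w⁻¹ * b * D.w)⁻¹ * b' := by
        have : y = b⁻¹ * (D.w * b') := by rw [← e]; group
        rw [this]; group
      rw [e']
      exact mul_mem (inv_mem c2) hb'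
    exact (inv_mul_eq_one.mp this).symm
  have caseWi : ∀ y ∈ D.A, b * y = D.w⁻¹ * b' → y = D.w⁻¹ := by
    intro y hy e
    have : D.w * y = 1 := by
      apply D.disj _ (mul_mem hw hy)
      have e' : D.w * y = (D.w * b * D.w⁻¹)⁻¹ * b' := by
        have : y = b⁻¹ * (D.w⁻¹ * b') := by rw [← e]; group
        rw [this]; group
      rw [e']
      exact mul_mem (inv_mem c1) hb'
    exact (mul_eq_one_iff_eq_inv'.mp this)
  have caseW2 : ∀ y ∈ D.A, b * D.w = y * b' → y = D.w := by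
    intro y hy e
    have : y * D.w⁻¹ = 1 := by
      apply D.disj _ (mul_mem hy hw')
      have e' : y * D.w⁻¹ = b * (D.w * b' * D.w⁻¹)⁻¹ := by
        have : y = b * D.w * b'⁻¹ := by rw [e]; group
        rw [this]; group
      rw [e']
      exact mul_mem hb (inv_mem c3)
    exact mul_inv_eq_one.mp this
  have caseW3 : ∀ y ∈ D.A, b * D.w⁻¹ = y * b' → y = D.w⁻¹ := by
    intro y hy e
    have : y * D.w = 1 := by
      apply D.disj _ (mul_mem hy hw)
      have e' : y * D.w = b * (D.w⁻¹ * b' * D.w)⁻¹ := by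
        have : y = b * D.w⁻¹ * b'⁻¹ := by rw [e]; group
        rw [this]; group
      rw [e']
      exact mul_mem hb (inv_mem c4)
    exact mul_eq_one_iff_eq_inv.mp this
  have caseF1 : b * D.z⁻¹ ≠ D.z * b' := by
    intro e
    apply D.flipB b' hb'
    rw [← e]; simpa using hb
  have caseF2 : b * D.z ≠ D.z⁻¹ * b' := by
    intro e
    apply D.flipB b hb
    have : D.z * b * D.z = b' := by rw [mul_assoc, e]; group
    rw [this]; exact hb'
  have zw := D.zw
  have zw' := D.zw'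
  have zw1 : D.z⁻¹ ≠ D.w := fun h => zw' (by rw [← h]; simp)
  have zw2 : D.z⁻¹ ≠ D.w⁻¹ := fun h => zw (inv_injective h)
  cases η <;> cases ε <;> cases η' <;> cases ε' <;> simp only [yl, yr] at h <;>
    first
      | exact ⟨rfl, rfl⟩
      | (exfalso; first
          | exact caseF1 h | exact caseF2 h
          | exact zw (caseWW _ hz h) | exact zw1 (caseWW _ hz' h)
          | exact hww.symm (caseWW _ hw' h)
          | exact zw' (caseWi _ hz h) | exact zw2 (caseWi _ hz' h)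
          | exact hww (caseWi _ hw h)
          | exact zw (caseW2 _ hz h) | exact zw1 (caseW2 _ hz' h)
          | exact zw' (caseW3 _ hz h) | exact zw2 (caseW3 _ hz' h))


/-! ### Orientation of the blocks -/

lemma swap_xb (η ε : Bool) : D.swap.xb ε η = D.yl η ε := by
  cases η <;> cases ε <;> rfl
lemma swap_xt (η ε : Bool) : D.swap.xt ε η = D.yr η ε := by
  cases η <;> cases ε <;> rfl
lemma swap_yl (η ε : Bool) : D.swap.yl ε η = D.xb η ε := by
  cases η <;> cases ε <;> rfl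
lemma swap_yr (η ε : Bool) : D.swap.yr ε η = D.xt η ε := by
  cases η <;> cases ε <;> rfl

variable {D} in
lemma Blk.swap {x y : ℤ → ℤ → P} {η ε : Bool} {I J : ℤ} (h : D.Blk x y η ε I J) :
    D.swap.Blk (fun i j => y j i) (fun i j => x j i) ε η J I := by
  obtain ⟨h1, h2, h3, h4⟩ := h
  refine ⟨?_, ?_, ?_, ?_⟩
  · rw [swap_xb]; exact h3
  · rw [swap_xt]; exact h4
  · rw [swap_yl]; exact h1
  · rw [swap_yr]; exact h2

lemma Tiling.hadj {D : TData P} {x y : ℤ → ℤ → P} (h : D.Tiling x y) {η ε η' ε' : Bool}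
    {I J : ℤ} (h1 : D.Blk x y η ε I J) (h2 : D.Blk x y η' ε' (I + 1) J) :
    η' = !η ∧ ε' = ε := by
  have e1 : ¬ Even (2 * I + 1) := by
    rw [Int.not_even_iff_odd]; exact ⟨I, rfl⟩
  have e2 : Even (2 * J) := even_two_mul J
  have e := h.c_oe (2 * I + 1) (2 * J) e1 e2
  have e3 : y (2 * I + 1 + 1) (2 * J) = D.yl η' ε' := by
    have := h2.2.2.1
    rw [show 2 * (I + 1) = 2 * I + 1 + 1 by ring] at this
    exact this
  rw [e3, h1.2.2.2] at e
  exact D.corner_oe (D.omega_mem _ (h.x_odd _ _ e1)) (D.omega_mem _ (h.x_odd _ _ e1)) e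

lemma Tiling.vadj {D : TData P} {x y : ℤ → ℤ → P} (h : D.Tiling x y) {η ε η' ε' : Bool}
    {I J : ℤ} (h1 : D.Blk x y η ε I J) (h2 : D.Blk x y η' ε' I (J + 1)) :
    η' = η ∧ ε' = !ε := by
  have := h.swap.hadj h1.swap h2.swap
  exact ⟨this.2, this.1⟩

lemma bool_alt {f : ℤ → Bool} (h : ∀ i, f (i + 1) = !f i) (i : ℤ) :
    f i = (f 0 ^^ !decide (Even i)) := by
  induction i using Int.induction_on with
  | zero => simp
  | succ i ih =>
    rw [h, ih]
    by_cases he : Even (i : ℤ)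
    · have : ¬ Even ((i : ℤ) + 1) := by rw [Int.even_add_one]; simpa using he
      simp [he, this]
    · have : Even ((i : ℤ) + 1) := by rw [Int.even_add_one]; exact he
      simp [he, this]
  | pred i ih =>
    have h' := h (-(i : ℤ) - 1)
    rw [sub_add_cancel, ih] at h'
    have h'' : f (-(i : ℤ) - 1) = !(f 0 ^^ !decide (Even (-(i : ℤ)))) := by
      rw [h', Bool.not_not]
    rw [h'']
    by_cases he : Even (-(i : ℤ))
    · have : ¬ Even (-(i : ℤ) - 1) := by
        intro h2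
        have := h2.add_one
        rw [sub_add_cancel] at this
        exact (Int.not_even_iff_odd.mpr this) he
      simp [he, this]
    · have : Even (-(i : ℤ) - 1) := by
        rw [Int.not_even_iff_odd] at he
        exact he.sub_odd odd_one
      simp [he, this]

/-- All blocks are oriented according to the parities. -/
lemma Tiling.exists_orient {D : TData P} {x y : ℤ → ℤ → P} (h : D.Tiling x y) :
    ∃ a b : ℤ, ∀ I J, D.Blk (fun i j => x (i + 2 * a) (j + 2 * b))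
      (fun i j => y (i + 2 * a) (j + 2 * b)) (decide (Even I)) (decide (Even J)) I J := by
  choose e d hed using h.exists_blk
  have h1 : ∀ I J, e (I + 1) J = !e I J ∧ d (I + 1) J = d I J := fun I J =>
    h.hadj (hed I J) (hed (I + 1) J)
  have h2 : ∀ I J, e I (J + 1) = e I J ∧ d I (J + 1) = !d I J := fun I J =>
    h.vadj (hed I J) (hed I (J + 1))
  have he0 : ∀ I J, e I J = e I 0 := by
    intro I J
    induction J using Int.induction_on with
    | zero => rfl
    | succ i ih => rw [(h2 I i).1, ih]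
    | pred i ih =>
      have := (h2 I (-(i : ℤ) - 1)).1
      rw [sub_add_cancel] at this
      rw [← this, ih]
  have hd0 : ∀ I J, d I J = d 0 J := by
    intro I J
    induction I using Int.induction_on with
    | zero => rfl
    | succ i ih => rw [(h1 i J).2, ih]
    | pred i ih =>
      have := (h1 (-(i : ℤ) - 1) J).2
      rw [sub_add_cancel] at this
      rw [← this, ih]
  have he : ∀ I J, e I J = (e 0 0 ^^ !decide (Even I)) := by
    intro I J
    rw [he0]
    exact bool_alt (f := fun I => e I 0) (fun I => (h1 I 0).1) I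
  have hd : ∀ I J, d I J = (d 0 0 ^^ !decide (Even J)) := by
    intro I J
    rw [hd0]
    exact bool_alt (f := fun J => d 0 J) (fun J => (h2 0 J).2) J
  have hpar : ∀ c : Bool, ∃ a : ℤ, ∀ I : ℤ, (c ^^ !decide (Even (I + a))) = decide (Even I) := by
    intro c
    cases c
    · refine ⟨1, fun I => ?_⟩
      by_cases hI : Even I
      · have : ¬ Even (I + 1) := by rw [Int.even_add_one]; simpa using hI
        simp [hI, this]
      · have : Even (I + 1) := by rw [Int.even_add_one]; exact hI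
        simp [hI, this]
    · refine ⟨0, fun I => ?_⟩
      simp
  obtain ⟨a, ha⟩ := hpar (e 0 0)
  obtain ⟨b, hb⟩ := hpar (d 0 0)
  refine ⟨a, b, fun I J => ?_⟩
  have := hed (I + a) (J + b)
  rw [he, hd, ha, hb] at this
  obtain ⟨g1, g2, g3, g4⟩ := this
  rw [mul_add, mul_add] at g1 g2 g3 g4
  refine ⟨g1, ?_, g3, ?_⟩
  · rw [← g2]; ring_nf
  · rw [← g4]; ring_nf

/-! ### Desubstitution -/

/-- The row (or column) of the block `J` on the side of its corner of level `0`. -/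
def rr (J : ℤ) : ℤ := if Even J then 2 * J else 2 * J + 1
/-- The other row (or column) of the block `J`. -/
def rr' (J : ℤ) : ℤ := if Even J then 2 * J + 1 else 2 * J

/-- All blocks are oriented according to the parities of the indices. -/
def Oriented (x y : ℤ → ℤ → P) : Prop :=
  ∀ I J, D.Blk x y (decide (Even I)) (decide (Even J)) I J

variable {D} in
lemma Oriented.swap {x y : ℤ → ℤ → P} (h : D.Oriented x y) :
    D.swap.Oriented (fun i j => y j i) (fun i j => x j i) := fun I J => (h J I).swap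

/-- Crossing between two blocks at an odd (right-right) side. -/
lemma side_even {D : TData P} {x y : ℤ → ℤ → P} (h : D.Tiling x y) (ho : D.Oriented x y)
    (I J : ℤ) (hI : Even I) :
    x (2 * I + 1) (rr J) ∈ D.L ∧ D.tB (x (2 * I + 1) (rr J)) = x (2 * I + 1) (rr' J) := by
  have e1 : ¬ Even (2 * I + 1) := by
    rw [Int.not_even_iff_odd]; exact ⟨I, rfl⟩
  have e2 : Even (2 * J) := even_two_mul J
  have e := h.c_oe (2 * I + 1) (2 * J) e1 e2
  have hI' : ¬ Even (I + 1) := by rw [Int.even_add_one]; simpa using hI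
  have g1 := (ho I J).2.2.2
  have g2 := (ho (I + 1) J).2.2.1
  rw [show 2 * (I + 1) = 2 * I + 1 + 1 by ring] at g2
  rw [g1, g2] at e
  have m1 := h.x_odd (2 * I + 1) (rr J) e1
  have m2 := h.x_odd (2 * I + 1) (rr' J) e1
  have key : D.omega (x (2 * I + 1) (rr J)) * D.z = D.z * D.omega (x (2 * I + 1) (rr' J)) := by
    by_cases hJ : Even J
    · simp only [hI, hI', hJ, decide_true, decide_false, yl, yr] at e
      simp only [rr, rr', hJ, if_true]
      exact e
    · simp only [hI, hI', hJ, decide_true, decide_false, yl, yr] at e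
      simp only [rr, rr', hJ, if_false]
      have e' := congrArg (fun g => D.z * g * D.z) e
      simp only [mul_assoc, inv_mul_cancel, mul_one, mul_inv_cancel_left] at e'
      exact e'.symm
  have key' : D.z⁻¹ * D.omega (x (2 * I + 1) (rr J)) * D.z = D.omega (x (2 * I + 1) (rr' J)) := by
    rw [mul_assoc, key]; simp
  have hL : x (2 * I + 1) (rr J) ∈ D.L := by
    apply D.exB _ m1
    rw [key']
    exact D.omega_mem _ m2
  refine ⟨hL, ?_⟩
  apply D.omega_inj _ (D.tB_mem _ hL) _ m2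
  rw [D.omega_tB _ hL, key']

/-- Crossing between two blocks at an even (left-left) side. -/
lemma side_odd {D : TData P} {x y : ℤ → ℤ → P} (h : D.Tiling x y) (ho : D.Oriented x y)
    (I J : ℤ) (hI : ¬ Even I) (β : P) (hβ : β ∈ D.B) (hβ' : D.Phi β = x (2 * I + 1) (rr J)) :
    D.omega β = x (2 * I + 1) (rr' J) := by
  have e1 : ¬ Even (2 * I + 1) := by
    rw [Int.not_even_iff_odd]; exact ⟨I, rfl⟩
  have e2 : Even (2 * J) := even_two_mul J
  have e := h.c_oe (2 * I + 1) (2 * J) e1 e2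
  have hI' : Even (I + 1) := by rw [Int.even_add_one]; exact hI
  have g1 := (ho I J).2.2.2
  have g2 := (ho (I + 1) J).2.2.1
  rw [show 2 * (I + 1) = 2 * I + 1 + 1 by ring] at g2
  rw [g1, g2] at e
  have m2 := h.x_odd (2 * I + 1) (rr' J) e1
  have key : D.omega (x (2 * I + 1) (rr J)) * D.w = D.w * D.omega (x (2 * I + 1) (rr' J)) := by
    by_cases hJ : Even J
    · simp only [hI, hI', hJ, decide_true, decide_false, yl, yr] at e
      simp only [rr, rr', hJ, if_true]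
      exact e
    · simp only [hI, hI', hJ, decide_true, decide_false, yl, yr] at e
      simp only [rr, rr', hJ, if_false]
      have e' := congrArg (fun g => D.w * g * D.w) e
      simp only [mul_assoc, inv_mul_cancel, mul_one, mul_inv_cancel_left] at e'
      exact e'.symm
  rw [← hβ', D.omega_Phi _ hβ] at key
  apply D.omega_inj _ (D.omega_mem _ hβ) _ m2
  have := congrArg (fun g => D.w⁻¹ * g) key
  simpa [mul_assoc] using this

/-- A section of `Phi` over `B`. -/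
noncomputable def pB (b : P) : P := by
  classical
  exact if h : b ∈ D.B then (D.Phi_surjB b h).choose else 1

lemma pB_mem (b : P) (h : b ∈ D.B) : D.pB b ∈ D.B := by
  unfold pB
  rw [dif_pos h]
  exact (D.Phi_surjB b h).choose_spec.1

lemma Phi_pB (b : P) (h : b ∈ D.B) : D.Phi (D.pB b) = b := by
  unfold pB
  rw [dif_pos h]
  exact (D.Phi_surjB b h).choose_spec.2

/-- The `x`-part of the desubstituted tiling. -/
noncomputable def nx (x : ℤ → ℤ → P) (I J : ℤ) : P :=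
  if Even I then x (2 * I + 1) (rr J) else D.pB (x (2 * I + 1) (rr J))

/-- The `y`-part of the desubstituted tiling. -/
noncomputable def ny (y : ℤ → ℤ → P) (I J : ℤ) : P := D.swap.nx (fun i j => y j i) J I

section facts
variable {D} {x y : ℤ → ℤ → P} (h : D.Tiling x y) (ho : D.Oriented x y)
include h

lemma nx_ne (I J : ℤ) : D.nx x I J ≠ 1 := by
  unfold nx
  split_ifs
  · exact h.x_ne _ _
  · intro h1
    have h2 := D.Phi_pB _ (h.x_odd (2 * I + 1) (rr J) (by
      rw [Int.not_even_iff_odd]; exact ⟨I, rfl⟩))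
    rw [h1, map_one] at h2
    exact h.x_ne _ _ h2.symm

lemma nx_odd (I J : ℤ) (hI : ¬ Even I) : D.nx x I J ∈ D.B ∧
    D.Phi (D.nx x I J) = x (2 * I + 1) (rr J) := by
  have m1 := h.x_odd (2 * I + 1) (rr J) (by rw [Int.not_even_iff_odd]; exact ⟨I, rfl⟩)
  unfold nx
  rw [if_neg hI]
  exact ⟨D.pB_mem _ m1, D.Phi_pB _ m1⟩

omit h in
lemma nx_even (I J : ℤ) (hI : Even I) : D.nx x I J = x (2 * I + 1) (rr J) := by
  unfold nx
  rw [if_pos hI]

include ho

lemma nx_even_mem (I J : ℤ) (hI : Even I) : D.nx x I J ∈ D.L := by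
  rw [nx_even I J hI]; exact (side_even h ho I J hI).1

lemma nx_even_tB (I J : ℤ) (hI : Even I) : D.tB (D.nx x I J) = x (2 * I + 1) (rr' J) := by
  rw [nx_even I J hI]; exact (side_even h ho I J hI).2

lemma nx_odd_omega (I J : ℤ) (hI : ¬ Even I) : D.omega (D.nx x I J) = x (2 * I + 1) (rr' J) :=
  side_odd h ho I J hI _ (nx_odd h I J hI).1 (nx_odd h I J hI).2

end facts

lemma rr_succ_even {J : ℤ} (hJ : Even J) : rr' J = 2 * J + 1 ∧ rr' (J + 1) = 2 * J + 1 + 1 := by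
  have h1 : ¬ Even (J + 1) := by rw [Int.even_add_one]; simpa using hJ
  constructor
  · simp [rr', hJ]
  · simp only [rr', h1, if_false]; ring

lemma rr_succ_odd {J : ℤ} (hJ : ¬ Even J) : rr J = 2 * J + 1 ∧ rr (J + 1) = 2 * J + 1 + 1 := by
  have h1 : Even (J + 1) := by rw [Int.even_add_one]; exact hJ
  constructor
  · simp [rr, hJ]
  · simp only [rr, h1, if_true]; ring

/-- The desubstituted tiling is a tiling. -/
lemma Tiling.desub {D : TData P} {x y : ℤ → ℤ → P} (h : D.Tiling x y) (ho : D.Oriented x y) :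
    D.Tiling (D.nx x) (D.ny y) := by
  have hs := h.swap
  have hos := ho.swap
  have base : ∀ I J : ℤ, x (2 * I + 1) (2 * J + 1) * y (2 * I + 1 + 1) (2 * J + 1)
      = y (2 * I + 1) (2 * J + 1) * x (2 * I + 1) (2 * J + 1 + 1) := fun I J =>
    h.c_oo (2 * I + 1) (2 * J + 1) (by rw [Int.not_even_iff_odd]; exact ⟨I, rfl⟩)
      (by rw [Int.not_even_iff_odd]; exact ⟨J, rfl⟩)
  refine
    { x_even := fun I J hI => nx_even_mem h ho I J hI
      x_odd := fun I J hI => (nx_odd h I J hI).1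
      x_ne := fun I J => nx_ne h I J
      y_even := fun I J hJ => nx_even_mem hs hos J I hJ
      y_odd := fun I J hJ => (nx_odd hs J I hJ).1
      y_ne := fun I J => nx_ne hs J I
      c_ee := ?_
      c_oe := ?_
      c_eo := ?_
      c_oo := ?_ }
  · intro I J hI hJ
    have b := base I J
    have e1 := nx_even_tB h ho I J hI
    have e2 := nx_even_tB h ho I (J + 1) hI
    have e3 : D.tA (D.ny y I J) = y (rr' I) (2 * J + 1) := nx_even_tB hs hos J I hJ
    have e4 : D.tA (D.ny y (I + 1) J) = y (rr' (I + 1)) (2 * J + 1) :=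
      nx_even_tB hs hos J (I + 1) hJ
    rw [e1, e2, e3, e4, (rr_succ_even hI).1, (rr_succ_even hI).2, (rr_succ_even hJ).1,
      (rr_succ_even hJ).2]
    exact b
  · intro I J hI hJ
    have b := base I J
    have e1 := nx_odd_omega h ho I J hI
    have e2 := nx_odd_omega h ho I (J + 1) hI
    have e3 : D.ny y I J = y (rr I) (2 * J + 1) := nx_even (D := D.swap) J I hJ
    have e4 : D.ny y (I + 1) J = y (rr (I + 1)) (2 * J + 1) :=
      nx_even (D := D.swap) J (I + 1) hJ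
    rw [e1, e2, e3, e4, (rr_succ_odd hI).1, (rr_succ_odd hI).2, (rr_succ_even hJ).1,
      (rr_succ_even hJ).2]
    exact b
  · intro I J hI hJ
    have b := base I J
    have e1 : D.nx x I J = x (2 * I + 1) (rr J) := nx_even I J hI
    have e2 : D.nx x I (J + 1) = x (2 * I + 1) (rr (J + 1)) := nx_even I (J + 1) hI
    have e3 : D.psi (D.ny y I J) = y (rr' I) (2 * J + 1) := nx_odd_omega hs hos J I hJ
    have e4 : D.psi (D.ny y (I + 1) J) = y (rr' (I + 1)) (2 * J + 1) :=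
      nx_odd_omega hs hos J (I + 1) hJ
    rw [e1, e2, e3, e4, (rr_succ_even hI).1, (rr_succ_even hI).2, (rr_succ_odd hJ).1,
      (rr_succ_odd hJ).2]
    exact b
  · intro I J hI hJ
    have b := base I J
    have e1 := (nx_odd h I J hI).2
    have e2 := (nx_odd h I (J + 1) hI).2
    have e3 : D.Phi (D.ny y I J) = y (rr I) (2 * J + 1) := (nx_odd hs J I hJ).2
    have e4 : D.Phi (D.ny y (I + 1) J) = y (rr (I + 1)) (2 * J + 1) :=
      (nx_odd hs J (I + 1) hJ).2
    apply D.Phi_inj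
    rw [map_mul, map_mul, e1, e2, e3, e4, (rr_succ_odd hI).1, (rr_succ_odd hI).2,
      (rr_succ_odd hJ).1, (rr_succ_odd hJ).2]
    exact b

lemma rr_add (J n : ℤ) (hn : Even n) : rr (J + n) = rr J + 2 * n := by
  unfold rr
  have : Even (J + n) ↔ Even J := by rw [Int.even_add]; simp [hn]
  simp only [this]
  split_ifs <;> ring

lemma nx_period {x : ℤ → ℤ → P} {m n : ℤ} (hm : Even m) (hn : Even n)
    (hx : ∀ i j, x (i + 2 * m) (j + 2 * n) = x i j) (I J : ℤ) :
    D.nx x (I + m) (J + n) = D.nx x I J := by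
  have h1 : x (2 * (I + m) + 1) (rr (J + n)) = x (2 * I + 1) (rr J) := by
    rw [rr_add _ _ hn, ← hx (2 * I + 1) (rr J), show 2 * (I + m) + 1 = 2 * I + 1 + 2 * m by ring]
  have h2 : Even (I + m) ↔ Even I := by rw [Int.even_add]; simp [hm]
  unfold nx
  simp only [h1, h2]

/-- Tilings have no periods. -/
theorem Tiling.no_period {D : TData P} (N : ℕ) : ∀ {x y : ℤ → ℤ → P}, D.Tiling x y →
    ∀ m n : ℤ, Even m → Even n → (∀ i j, x (i + m) (j + n) = x i j) →
    (∀ i j, y (i + m) (j + n) = y i j) → m.natAbs + n.natAbs ≤ N → m = 0 ∧ n = 0 := by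
  induction N with
  | zero =>
    intro x y _ m n _ _ _ _ hN
    constructor <;> omega
  | succ N ih =>
    intro x y h m n hm hn hx hy hN
    by_cases h0 : m = 0 ∧ n = 0
    · exact h0
    obtain ⟨m', rfl⟩ := hm.two_dvd
    obtain ⟨n', rfl⟩ := hn.two_dvd
    obtain ⟨a, b, ho⟩ := h.exists_orient
    have hsh := h.shift a b
    set x' := fun i j => x (i + 2 * a) (j + 2 * b) with hx'
    set y' := fun i j => y (i + 2 * a) (j + 2 * b) with hy'
    have px : ∀ i j, x' (i + 2 * m') (j + 2 * n') = x' i j := by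
      intro i j
      simp only [hx']
      rw [← hx (i + 2 * a) (j + 2 * b)]
      congr 1 <;> ring
    have py : ∀ i j, y' (i + 2 * m') (j + 2 * n') = y' i j := by
      intro i j
      simp only [hy']
      rw [← hy (i + 2 * a) (j + 2 * b)]
      congr 1 <;> ring
    -- the orientations are invariant
    have h1 := (ho m' n').1
    have h2 := (ho 0 0).1
    have h3 : x' (2 * m') (2 * n') = x' (2 * 0) (2 * 0) := by
      have := px 0 0
      simpa using this
    rw [h3, h2] at h1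
    obtain ⟨g1, g2⟩ := D.xb_inj h1
    have hm' : Even m' := by simpa using g1
    have hn' : Even n' := by simpa using g2
    have := ih (hsh.desub ho) m' n' hm' hn' (D.nx_period hm' hn' px)
      (fun i j => D.swap.nx_period (x := fun i j => y' j i) hn' hm' (fun i j => py j i) j i)
      (by omega)
    omega

end TData

/-! ### From finite group data to tilings -/

namespace FinData
variable {Q : Type} [Group Q] (D : FinData Q)

open Classical in
/-- `ψ` extended to `Q`. -/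
noncomputable def psiQ (a : Q) : Q := if h : a ∈ D.A then D.ψ ⟨a, h⟩ else 1
open Classical in
/-- `ω` extended to `Q`. -/
noncomputable def omQ (a : Q) : Q := if h : a ∈ D.B then D.ω ⟨a, h⟩ else 1
open Classical in
/-- `t_A` extended to `Q`. -/
noncomputable def tAQ (a : Q) : Q :=
  if h : ∃ k : D.A₁, (k.1 : Q) = a then D.tA h.choose else 1
open Classical in
/-- `t_B` extended to `Q`. -/
noncomputable def tBQ (a : Q) : Q :=
  if h : ∃ k : D.B₁, (k.1 : Q) = a then D.tB h.choose else 1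

lemma psiQ_coe (a : D.A) : D.psiQ a = D.ψ a := by
  unfold psiQ
  rw [dif_pos a.2]
lemma omQ_coe (a : D.B) : D.omQ a = D.ω a := by
  unfold omQ
  rw [dif_pos a.2]
lemma tAQ_coe (a : D.A₁) : D.tAQ a.1 = D.tA a := by
  have h : ∃ k : D.A₁, (k.1 : Q) = a.1 := ⟨a, rfl⟩
  unfold tAQ
  rw [dif_pos h]
  have : h.choose = a := Subtype.ext (Subtype.ext h.choose_spec)
  rw [this]
lemma tBQ_coe (a : D.B₁) : D.tBQ a.1 = D.tB a := by
  have h : ∃ k : D.B₁, (k.1 : Q) = a.1 := ⟨a, rfl⟩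
  unfold tBQ
  rw [dif_pos h]
  have : h.choose = a := Subtype.ext (Subtype.ext h.choose_spec)
  rw [this]

lemma ψ_tA (k : D.A₁) : (D.ψ (D.tA k) : Q) = (D.v : Q)⁻¹ * D.ψ k.1 * D.v := by
  simp [tA]
lemma ω_tB (k : D.B₁) : (D.ω (D.tB k) : Q) = (D.z : Q)⁻¹ * D.ω k.1 * D.z := by
  simp [tB]

/-- `w`, `z` in `A₁`, `u`, `v` in `B₁` -/
def w₁ : D.A₁ := ⟨D.w, D.hw⟩
@[inherit_doc w₁] def z₁ : D.A₁ := ⟨D.z, D.hz⟩
@[inherit_doc w₁] def u₁ : D.B₁ := ⟨D.u, D.hu⟩
@[inherit_doc w₁] def v₁ : D.B₁ := ⟨D.v, D.hv⟩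

lemma rel₁ : (D.tB D.u₁ : Q) * D.tA D.z₁ = D.tA D.w₁ * D.tB D.v₁ := D.rel

/-- unique factorisation -/
lemma fact {a a' : D.A} {b b' : D.B} (h : (a : Q) * b = a' * b') : a = a' ∧ b = b' := by
  have h1 : (a' : Q)⁻¹ * a = b' * (b : Q)⁻¹ := by
    rw [inv_mul_eq_iff_eq_mul, ← mul_assoc, ← h, mul_inv_cancel_right]
  have h2 : (a' : Q)⁻¹ * a ∈ D.A ⊓ D.B :=
    ⟨D.A.mul_mem (D.A.inv_mem a'.2) a.2, by
      rw [h1]; exact D.B.mul_mem b'.2 (D.B.inv_mem b.2)⟩
  rw [D.disj, Subgroup.mem_bot] at h2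
  have h3 : (a : Q) = a' := (inv_mul_eq_one.mp h2).symm
  have h4 : (b : Q) = b' := by rw [h3] at h; exact mul_left_cancel h
  exact ⟨Subtype.ext h3, Subtype.ext h4⟩

lemma exact₁ (l l' : D.B₁) (k k' : D.A₁) (hl : l ≠ 1) (hk' : k' ≠ 1)
    (h : (D.tB l : Q) * D.tA k' = D.tA k * D.tB l') :
    (l = D.u₁ ∧ k' = D.z₁ ∧ k = D.w₁ ∧ l' = D.v₁) ∨
    (l = D.u₁⁻¹ ∧ k' = D.w₁ ∧ k = D.z₁ ∧ l' = D.v₁⁻¹) ∨
    (l = D.v₁ ∧ k' = D.z₁⁻¹ ∧ k = D.w₁⁻¹ ∧ l' = D.u₁) ∨
    (l = D.v₁⁻¹ ∧ k' = D.w₁⁻¹ ∧ k = D.z₁⁻¹ ∧ l' = D.u₁⁻¹) := by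
  have hl1 : (D.tB l : Q) ≠ 1 := by
    intro h1
    apply hl
    apply D.tB_inj
    rw [map_one]
    exact Subtype.ext h1
  have hk1 : (D.tA k' : Q) ≠ 1 := by
    intro h1
    apply hk'
    apply D.tA_inj
    rw [map_one]
    exact Subtype.ext h1
  have r := D.rel₁
  have fin : ∀ (p : D.A₁) (q : D.B₁), (D.tB l : Q) * D.tA k' = D.tA p * D.tB q →
      k = p ∧ l' = q := by
    intro p q hpq
    rw [h] at hpq
    obtain ⟨e1, e2⟩ := D.fact hpq
    exact ⟨D.tA_inj e1, D.tB_inj e2⟩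
  rcases D.exact _ _ _ _ ⟨l.1, l.2, rfl⟩ ⟨k'.1, k'.2, rfl⟩ ⟨k.1, k.2, rfl⟩ ⟨l'.1, l'.2, rfl⟩
    hl1 hk1 h with ⟨e1, e2⟩ | ⟨e1, e2⟩ | ⟨e1, e2⟩ | ⟨e1, e2⟩
  · have e1' : D.tB l = D.tB D.u₁ := Subtype.ext e1
    have e2' : D.tA k' = D.tA D.z₁ := Subtype.ext e2
    refine Or.inl ⟨D.tB_inj e1', D.tA_inj e2', fin _ _ ?_⟩
    rw [e1', e2']; exact r
  · have e1' : D.tB l = D.tB D.v₁ := Subtype.ext e1
    have e2' : D.tA k' = D.tA D.z₁⁻¹ := by
      rw [map_inv]; exact Subtype.ext e2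
    refine Or.inr (Or.inr (Or.inl ⟨D.tB_inj e1', D.tA_inj e2', fin _ _ ?_⟩))
    rw [e1', e2', map_inv, map_inv]
    push_cast
    rw [mul_inv_eq_iff_eq_mul, mul_assoc, r]
    group
  · have e1' : D.tB l = D.tB D.u₁⁻¹ := by
      rw [map_inv]; exact Subtype.ext e1
    have e2' : D.tA k' = D.tA D.w₁ := Subtype.ext e2
    refine Or.inr (Or.inl ⟨D.tB_inj e1', D.tA_inj e2', fin _ _ ?_⟩)
    rw [e1', e2', map_inv, map_inv]
    push_cast
    rw [inv_mul_eq_iff_eq_mul, ← mul_assoc, r]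
    group
  · have e1' : D.tB l = D.tB D.v₁⁻¹ := by
      rw [map_inv]; exact Subtype.ext e1
    have e2' : D.tA k' = D.tA D.w₁⁻¹ := by
      rw [map_inv]; exact Subtype.ext e2
    refine Or.inr (Or.inr (Or.inr ⟨D.tB_inj e1', D.tA_inj e2', fin _ _ ?_⟩))
    rw [e1', e2', map_inv, map_inv, map_inv, map_inv]
    push_cast
    rw [← mul_inv_rev, ← mul_inv_rev, r]

/-- The tiling data of a finite group problem. -/
noncomputable def tdata : TData Q where
  A := D.A
  B := D.B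
  K := D.A₁.map D.A.subtype
  L := D.B₁.map D.B.subtype
  psi := D.psiQ
  omega := D.omQ
  tA := D.tAQ
  tB := D.tBQ
  Phi := D.τ
  u := D.u
  v := D.v
  w := D.w
  z := D.z
  KA := by rintro _ ⟨a, -, rfl⟩; exact a.2
  LB := by rintro _ ⟨a, -, rfl⟩; exact a.2
  disj g h1 h2 := by
    have : g ∈ D.A ⊓ D.B := ⟨h1, h2⟩
    rwa [D.disj, Subgroup.mem_bot] at this
  uL := ⟨D.u, D.hu, rfl⟩
  vL := ⟨D.v, D.hv, rfl⟩
  wK := ⟨D.w, D.hw, rfl⟩
  zK := ⟨D.z, D.hz, rfl⟩
  psi_mem a ha := by rw [D.psiQ_coe ⟨a, ha⟩]; exact Subtype.prop _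
  psi_mul a ha b hb := by
    have := D.psiQ_coe (⟨a, ha⟩ * ⟨b, hb⟩)
    rw [map_mul] at this
    rw [D.psiQ_coe ⟨a, ha⟩, D.psiQ_coe ⟨b, hb⟩]
    exact this
  psi_inj a ha b hb h := by
    rw [D.psiQ_coe ⟨a, ha⟩, D.psiQ_coe ⟨b, hb⟩] at h
    exact congrArg Subtype.val (D.ψ.injective (Subtype.ext h))
  omega_mem a ha := by rw [D.omQ_coe ⟨a, ha⟩]; exact Subtype.prop _
  omega_mul a ha b hb := by
    have := D.omQ_coe (⟨a, ha⟩ * ⟨b, hb⟩)
    rw [map_mul] at this
    rw [D.omQ_coe ⟨a, ha⟩, D.omQ_coe ⟨b, hb⟩]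
    exact this
  omega_inj a ha b hb h := by
    rw [D.omQ_coe ⟨a, ha⟩, D.omQ_coe ⟨b, hb⟩] at h
    exact congrArg Subtype.val (D.ω.injective (Subtype.ext h))
  u_conj a ha := D.norm_u ⟨a, ha⟩
  u_conj' a ha := D.norm_u' ⟨a, ha⟩
  w_conj a ha := D.norm_w ⟨a, ha⟩
  w_conj' a ha := D.norm_w' ⟨a, ha⟩
  Phi_inj := D.τ_inj
  Phi_memA a ha := by rw [D.τA ⟨a, ha⟩]; exact Subtype.prop _
  Phi_memB a ha := by rw [D.τB ⟨a, ha⟩]; exact Subtype.prop _
  Phi_surjA a ha := by
    refine ⟨D.ψ.symm (D.ψ.symm ⟨_, D.norm_u' (D.ψ ⟨a, ha⟩)⟩), Subtype.prop _, ?_⟩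
    rw [D.τA]
    have : (⟨(D.u : Q) * D.ψ (D.ψ (D.ψ.symm (D.ψ.symm ⟨_, D.norm_u' (D.ψ ⟨a, ha⟩)⟩)))
        * (D.u : Q)⁻¹, D.norm_u _⟩ : D.A) = D.ψ ⟨a, ha⟩ := by
      apply Subtype.ext
      simp only [MulEquiv.apply_symm_apply]
      group
    rw [this, MulEquiv.symm_apply_apply]
  Phi_surjB a ha := by
    refine ⟨D.ω.symm (D.ω.symm ⟨_, D.norm_w' (D.ω ⟨a, ha⟩)⟩), Subtype.prop _, ?_⟩
    rw [D.τB]
    have : (⟨(D.w : Q) * D.ω (D.ω (D.ω.symm (D.ω.symm ⟨_, D.norm_w' (D.ω ⟨a, ha⟩)⟩)))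
        * (D.w : Q)⁻¹, D.norm_w _⟩ : D.B) = D.ω ⟨a, ha⟩ := by
      apply Subtype.ext
      simp only [MulEquiv.apply_symm_apply]
      group
    rw [this, MulEquiv.symm_apply_apply]
  psi_Phi a ha := by
    rw [D.τA ⟨a, ha⟩, D.psiQ_coe, MulEquiv.apply_symm_apply, D.psiQ_coe ⟨a, ha⟩, D.psiQ_coe]
  omega_Phi a ha := by
    rw [D.τB ⟨a, ha⟩, D.omQ_coe, MulEquiv.apply_symm_apply, D.omQ_coe ⟨a, ha⟩, D.omQ_coe]
  tA_mem k hk := by
    obtain ⟨a, ha, rfl⟩ := hk
    have := D.tAQ_coe ⟨a, ha⟩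
    simp only [Subgroup.subtype_apply]
    rw [this]; exact Subtype.prop _
  tB_mem k hk := by
    obtain ⟨a, ha, rfl⟩ := hk
    have := D.tBQ_coe ⟨a, ha⟩
    simp only [Subgroup.subtype_apply]
    rw [this]; exact Subtype.prop _
  tA_mul k hk l hl := by
    obtain ⟨a, ha, rfl⟩ := hk
    obtain ⟨b, hb, rfl⟩ := hl
    have h1 := D.tAQ_coe ⟨a, ha⟩
    have h2 := D.tAQ_coe ⟨b, hb⟩
    have h3 := D.tAQ_coe (⟨a, ha⟩ * ⟨b, hb⟩)
    rw [map_mul] at h3
    simp only [Subgroup.subtype_apply]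
    rw [h1, h2]
    exact h3
  tB_mul k hk l hl := by
    obtain ⟨a, ha, rfl⟩ := hk
    obtain ⟨b, hb, rfl⟩ := hl
    have h1 := D.tBQ_coe ⟨a, ha⟩
    have h2 := D.tBQ_coe ⟨b, hb⟩
    have h3 := D.tBQ_coe (⟨a, ha⟩ * ⟨b, hb⟩)
    rw [map_mul] at h3
    simp only [Subgroup.subtype_apply]
    rw [h1, h2]
    exact h3
  psi_tA k hk := by
    obtain ⟨a, ha, rfl⟩ := hk
    have h1 := D.tAQ_coe ⟨a, ha⟩
    simp only [Subgroup.subtype_apply]
    rw [h1, D.psiQ_coe, D.psiQ_coe, D.ψ_tA]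
  omega_tB k hk := by
    obtain ⟨a, ha, rfl⟩ := hk
    have h1 := D.tBQ_coe ⟨a, ha⟩
    simp only [Subgroup.subtype_apply]
    rw [h1, D.omQ_coe, D.omQ_coe, D.ω_tB]
  exA a ha h := by
    rw [D.psiQ_coe ⟨a, ha⟩] at h
    exact ⟨⟨a, ha⟩, h, rfl⟩
  exB a ha h := by
    rw [D.omQ_coe ⟨a, ha⟩] at h
    exact ⟨⟨a, ha⟩, h, rfl⟩
  block := by
    have h1 := D.tBQ_coe D.u₁
    have h2 := D.tBQ_coe D.v₁
    have h3 := D.tAQ_coe D.w₁
    have h4 := D.tAQ_coe D.z₁
    have h5 := D.rel₁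
    rw [← h1, ← h2, ← h3, ← h4] at h5
    exact h5
  exact := by
    intro l hl l' hl' k hk k' hk' h1 h2 h3 h4 h
    obtain ⟨a, ha, rfl⟩ := hl
    obtain ⟨a', ha', rfl⟩ := hl'
    obtain ⟨b, hb, rfl⟩ := hk
    obtain ⟨b', hb', rfl⟩ := hk'
    simp only [Subgroup.subtype_apply] at h1 h2 h3 h4 h ⊢
    have g1 := D.tBQ_coe ⟨a, ha⟩
    have g2 := D.tBQ_coe ⟨a', ha'⟩
    have g3 := D.tAQ_coe ⟨b, hb⟩
    have g4 := D.tAQ_coe ⟨b', hb'⟩
    rw [g1, g2, g3, g4] at h
    have n1 : (⟨a, ha⟩ : D.B₁) ≠ 1 := by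
      intro e; apply h1
      have := congrArg (fun t : D.B₁ => (t.1 : Q)) e
      simpa using this
    have n2 : (⟨b', hb'⟩ : D.A₁) ≠ 1 := by
      intro e; apply h4
      have := congrArg (fun t : D.A₁ => (t.1 : Q)) e
      simpa using this
    rcases D.exact₁ _ _ _ _ n1 n2 h with ⟨e1, e2, e3, e4⟩ | ⟨e1, e2, e3, e4⟩ |
      ⟨e1, e2, e3, e4⟩ | ⟨e1, e2, e3, e4⟩
    · exact Or.inl ⟨congrArg (fun t : D.B₁ => (t.1 : Q)) e1,
        congrArg (fun t : D.A₁ => (t.1 : Q)) e2, congrArg (fun t : D.A₁ => (t.1 : Q)) e3,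
        congrArg (fun t : D.B₁ => (t.1 : Q)) e4⟩
    · exact Or.inr (Or.inl ⟨congrArg (fun t : D.B₁ => (t.1 : Q)) e1,
        congrArg (fun t : D.A₁ => (t.1 : Q)) e2, congrArg (fun t : D.A₁ => (t.1 : Q)) e3,
        congrArg (fun t : D.B₁ => (t.1 : Q)) e4⟩)
    · exact Or.inr (Or.inr (Or.inl ⟨congrArg (fun t : D.B₁ => (t.1 : Q)) e1,
        congrArg (fun t : D.A₁ => (t.1 : Q)) e2, congrArg (fun t : D.A₁ => (t.1 : Q)) e3,
        congrArg (fun t : D.B₁ => (t.1 : Q)) e4⟩))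
    · exact Or.inr (Or.inr (Or.inr ⟨congrArg (fun t : D.B₁ => (t.1 : Q)) e1,
        congrArg (fun t : D.A₁ => (t.1 : Q)) e2, congrArg (fun t : D.A₁ => (t.1 : Q)) e3,
        congrArg (fun t : D.B₁ => (t.1 : Q)) e4⟩))
  uu h := D.huu (Subtype.ext h)
  ww h := D.hww (Subtype.ext h)
  vu h := D.huv (Subtype.ext h.symm)
  vu' h := D.huv' (Subtype.ext (by
    have h' : (D.v : Q) = (D.u : Q)⁻¹ := h
    simp [h']))
  zw h := D.hwz (Subtype.ext h.symm)
  zw' h := D.hwz' (Subtype.ext (by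
    have h' : (D.z : Q) = (D.w : Q)⁻¹ := h
    simp [h']))
  flipA a ha := D.hvv a ha
  flipB a ha := D.hzz a ha

/-- inclusion of the vertical edge groups in `B` -/
def inV : ∀ i : Bool, D.EV i →* D.B
  | false => MonoidHom.id D.B
  | true => D.B₁.subtype
/-- inclusion of the horizontal edge groups in `A` -/
def inH : ∀ j : Bool, D.EH j →* D.A
  | false => MonoidHom.id D.A
  | true => D.A₁.subtype

lemma inV_inj : ∀ i, Function.Injective (D.inV i)
  | false => fun _ _ h => h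
  | true => Subtype.val_injective
lemma inH_inj : ∀ i, Function.Injective (D.inH i)
  | false => fun _ _ h => h
  | true => Subtype.val_injective

lemma inV_one (i : Bool) (x : D.EV i) (h : (D.inV i x : Q) = 1) : x = 1 := by
  apply D.inV_inj
  rw [map_one]
  exact Subtype.ext h
lemma inH_one (i : Bool) (x : D.EH i) (h : (D.inH i x : Q) = 1) : x = 1 := by
  apply D.inH_inj
  rw [map_one]
  exact Subtype.ext h

lemma inV_mem (i : Bool) (hi : i = true) (x : D.EV i) :
    (D.inV i x : Q) ∈ D.B₁.map D.B.subtype := by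
  subst hi
  exact ⟨_, x.2, rfl⟩
lemma inH_mem (i : Bool) (hi : i = true) (x : D.EH i) :
    (D.inH i x : Q) ∈ D.A₁.map D.A.subtype := by
  subst hi
  exact ⟨_, x.2, rfl⟩

lemma rel_ff {i j : Bool} (hi : i = false) (hj : j = false) {x x' : D.EV i} {y y' : D.EH j}
    (h : D.mapV i j x * D.mapH i j y = D.mapH i j y' * D.mapV i j x') :
    (D.inV i x : Q) * D.inH j y = D.inH j y' * D.inV i x' := by
  subst hi; subst hj
  exact h
lemma rel_tf {i j : Bool} (hi : i = true) (hj : j = false) {x x' : D.EV i} {y y' : D.EH j}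
    (h : D.mapV i j x * D.mapH i j y = D.mapH i j y' * D.mapV i j x') :
    (D.inV i x : Q) * D.psiQ (D.inH j y) = D.psiQ (D.inH j y') * D.inV i x' := by
  subst hi; subst hj
  rw [D.psiQ_coe, D.psiQ_coe]
  exact h
lemma rel_ft {i j : Bool} (hi : i = false) (hj : j = true) {x x' : D.EV i} {y y' : D.EH j}
    (h : D.mapV i j x * D.mapH i j y = D.mapH i j y' * D.mapV i j x') :
    D.omQ (D.inV i x) * (D.inH j y : Q) = D.inH j y' * D.omQ (D.inV i x') := by
  subst hi; subst hj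
  rw [D.omQ_coe, D.omQ_coe]
  exact h
lemma rel_tt {i j : Bool} (hi : i = true) (hj : j = true) {x x' : D.EV i} {y y' : D.EH j}
    (h : D.mapV i j x * D.mapH i j y = D.mapH i j y' * D.mapV i j x') :
    D.tBQ (D.inV i x) * D.tAQ (D.inH j y) = D.tAQ (D.inH j y') * D.tBQ (D.inV i x') := by
  subst hi; subst hj
  have h1 := D.tBQ_coe x
  have h2 := D.tBQ_coe x'
  have h3 := D.tAQ_coe y
  have h4 := D.tAQ_coe y'
  have e1 : (D.inV true x : Q) = (x.1 : Q) := rfl
  have e2 : (D.inV true x' : Q) = (x'.1 : Q) := rfl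
  have e3 : (D.inH true y : Q) = (y.1 : Q) := rfl
  have e4 : (D.inH true y' : Q) = (y'.1 : Q) := rfl
  rw [e1, e2, e3, e4, h1, h2, h3, h4]
  exact h

lemma par_false {i : ℤ} (h : Even i) : par i = false := by
  unfold par
  rw [decide_eq_false_iff_not]
  intro h'
  exact (Int.not_even_iff_odd.mpr (Int.odd_iff.mpr h')) h

lemma par_true {i : ℤ} (h : ¬ Even i) : par i = true := by
  unfold par
  rw [decide_eq_true_iff]
  exact Int.odd_iff.mp (Int.not_even_iff_odd.mp h)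

/-- The tiling of a flat. -/
lemma tiling (F : Steps D.toSquare) (hF : ∀ i j, F.OkAt i j) :
    D.tdata.Tiling (fun i j => (D.inV (par (i + 1)) (F.x (i + 1) j) : Q))
      (fun i j => (D.inH (par (j + 1)) (F.y i (j + 1)) : Q)) := by
  have ev : ∀ {i : ℤ}, Even i → ¬ Even (i + 1) := fun {i} h => by
    rw [Int.even_add_one]; simpa using h
  have od : ∀ {i : ℤ}, ¬ Even i → Even (i + 1) := fun {i} h => by
    rw [Int.even_add_one]; exact h
  have R : ∀ i j : ℤ, D.mapV (par (i + 1)) (par (j + 1)) (F.x (i + 1) j)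
      * D.mapH (par (i + 1)) (par (j + 1)) (F.y (i + 1) (j + 1))
      = D.mapH (par (i + 1)) (par (j + 1)) (F.y i (j + 1))
        * D.mapV (par (i + 1)) (par (j + 1)) (F.x (i + 1) (j + 1)) := by
    intro i j
    have := (hF (i + 1) (j + 1)).rel
    rw [add_sub_cancel_right, add_sub_cancel_right] at this
    exact this
  refine
    { x_even := fun i j hi => D.inV_mem _ (par_true (ev hi)) _
      x_odd := fun i j _ => Subtype.prop _
      x_ne := ?_
      y_even := fun i j hj => D.inH_mem _ (par_true (ev hj)) _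
      y_odd := fun i j _ => Subtype.prop _
      y_ne := ?_
      c_ee := fun i j hi hj => D.rel_tt (par_true (ev hi)) (par_true (ev hj)) (R i j)
      c_oe := fun i j hi hj => D.rel_ft (par_false (od hi)) (par_true (ev hj)) (R i j)
      c_eo := fun i j hi hj => D.rel_tf (par_true (ev hi)) (par_false (od hj)) (R i j)
      c_oo := fun i j hi hj => D.rel_ff (par_false (od hi)) (par_false (od hj)) (R i j) }
  · intro i j h
    exact (hF (i + 1) j).x_ne' (D.inV_one _ _ h)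
  · intro i j h
    have := (hF (i + 1) (j + 1)).y_ne
    rw [add_sub_cancel_right] at this
    exact this (D.inH_one _ _ h)

/-- No flat has a nonzero period. -/
theorem no_periodicFlat : ¬ D.toSquare.HasPeriodicFlat := by
  rintro ⟨F, hF, m, n, hmn, hp⟩
  have h := D.tiling F hF
  have hx : ∀ i j : ℤ, (D.inV (par (i + m + 1)) (F.x (i + m + 1) (j + n)) : Q)
      = D.inV (par (i + 1)) (F.x (i + 1) j) := by
    intro i j
    have := congrArg (fun s : (Σ b, D.EV b) => (D.inV s.1 s.2 : Q)) (hp.x (i + 1) j)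
    rw [show i + m + 1 = i + 1 + m by ring]
    exact this
  have hy : ∀ i j : ℤ, (D.inH (par (j + n + 1)) (F.y (i + m) (j + n + 1)) : Q)
      = D.inH (par (j + 1)) (F.y i (j + 1)) := by
    intro i j
    have := congrArg (fun s : (Σ b, D.EH b) => (D.inH s.1 s.2 : Q)) (hp.y i (j + 1))
    rw [show j + n + 1 = j + 1 + n by ring]
    exact this
  have := TData.Tiling.no_period _ h m n hp.even_m hp.even_n hx hy le_rfl
  apply hmn
  rw [this.1, this.2]

end FinData

end Pool.Agent.MP_140312_al_Neg
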