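import Pool.Agent.Lib.MP_140312_al_Neg.Defs

/-!
# From a model to `FinData`

`MA`, `MB` are abelian groups with injective homomorphisms `jA`, `jB` to `Q` whose ranges meet
trivially; everything in `FinData` is expressed by elements of `MA`, `MB`.
-/

namespace Pool.Agent.MP_140312_al_Neg

structure FinModel (Q : Type) [Group Q] (MA MB : Type) [CommGroup MA] [CommGroup MB] where
  jA : MA →* Q
  jB : MB →* Q
  jA_inj : Function.Injective jA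
  jB_inj : Function.Injective jB
  disj : ∀ a b, jA a = jB b → a = 1
  ψ : MA ≃* MA
  ω : MB ≃* MB
  γA : MA ≃* MA
  γB : MB ≃* MB
  u : MB
  v : MB
  w : MA
  z : MA
  -- `u` acts on `A` by `γA`, `w` on `B` by `γB`
  cu : ∀ a, jB u * jA a = jA (γA a) * jB u
  cw : ∀ b, jA w * jB b = jB (γB b) * jA w
  braidA : ∀ a, γA (ψ (ψ (γA a))) = ψ a
  braidB : ∀ b, γB (ω (ω (γB b))) = ω b
  -- `y = t_A(w)`, `x = t_A(z)`, `b = t_B(u)`, `b' = t_B(v)`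
  x : MA
  y : MA
  b : MB
  b' : MB
  hy : jB v * jA (ψ y) = jA (ψ w) * jB v
  hx : jB v * jA (ψ x) = jA (ψ z) * jB v
  hb : jA z * jB (ω b) = jB (ω u) * jA z
  hb' : jA z * jB (ω b') = jB (ω v) * jA z
  rel : jB b * jA x = jA y * jB b'
  hu1 : u ≠ 1
  hv1 : v ≠ 1
  hw1 : w ≠ 1
  hz1 : z ≠ 1
  huu : u * u ≠ 1
  hww : w * w ≠ 1
  huv : u ≠ v
  huv' : u * v ≠ 1
  hwz : w ≠ z
  hwz' : w * z ≠ 1
  hvv : ∀ a a', jB v * jA a * jB v ≠ jA a'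
  hzz : ∀ c c', jA z * jB c * jA z ≠ jB c'
  -- `k ∈ t_A(A₁)` iff `v ψ(k) v⁻¹ ∈ A`, `l ∈ t_B(B₁)` iff `z ω(l) z⁻¹ ∈ B`
  exact : ∀ (l l₁ : MB) (k k₁ : MA),
    (∃ c, jA z * jB (ω l) = jB c * jA z) → (∃ c, jA z * jB (ω l₁) = jB c * jA z) →
    (∃ a, jB v * jA (ψ k) = jA a * jB v) → (∃ a, jB v * jA (ψ k₁) = jA a * jB v) →
    l ≠ 1 → k ≠ 1 → jB l * jA k = jA k₁ * jB l₁ →
      (l = b ∧ k = x) ∨ (l = b' ∧ k = x⁻¹) ∨ (l = b⁻¹ ∧ k = y) ∨ (l = b'⁻¹ ∧ k = y⁻¹)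

namespace FinModel

variable {Q : Type} [Group Q] {MA MB : Type} [CommGroup MA] [CommGroup MB]
  (M : FinModel Q MA MB)

/-- `A` is the range of `jA`. -/
noncomputable def eA : MA ≃* M.jA.range := MonoidHom.ofInjective M.jA_inj

/-- `B` is the range of `jB`. -/
noncomputable def eB : MB ≃* M.jB.range := MonoidHom.ofInjective M.jB_inj

@[simp] lemma coe_eA (a : MA) : (M.eA a : Q) = M.jA a := rfl
@[simp] lemma coe_eB (b : MB) : (M.eB b : Q) = M.jB b := rfl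

/-- `ψ` on the range. -/
noncomputable def ψ' : M.jA.range ≃* M.jA.range := (M.eA.symm.trans M.ψ).trans M.eA

/-- `ω` on the range. -/
noncomputable def ω' : M.jB.range ≃* M.jB.range := (M.eB.symm.trans M.ω).trans M.eB

lemma ψ'_apply (a : MA) : M.ψ' (M.eA a) = M.eA (M.ψ a) := by simp [ψ']
lemma ω'_apply (b : MB) : M.ω' (M.eB b) = M.eB (M.ω b) := by simp [ω']

lemma ψ'_symm_apply (a : MA) : M.ψ'.symm (M.eA (M.ψ a)) = M.eA a := by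
  rw [MulEquiv.symm_apply_eq, ψ'_apply]
lemma ω'_symm_apply (b : MB) : M.ω'.symm (M.eB (M.ω b)) = M.eB b := by
  rw [MulEquiv.symm_apply_eq, ω'_apply]

lemma ψ'_symm_mk {q : Q} (h : q ∈ M.jA.range) (a : MA) (hq : q = M.jA (M.ψ a)) :
    M.ψ'.symm ⟨q, h⟩ = M.eA a := by
  rw [← M.ψ'_symm_apply]
  congr 1
  exact Subtype.ext hq

lemma ω'_symm_mk {q : Q} (h : q ∈ M.jB.range) (b : MB) (hq : q = M.jB (M.ω b)) :
    M.ω'.symm ⟨q, h⟩ = M.eB b := by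
  rw [← M.ω'_symm_apply]
  congr 1
  exact Subtype.ext hq

lemma conj_u (a : MA) : M.jB M.u * M.jA a * (M.jB M.u)⁻¹ = M.jA (M.γA a) := by
  rw [M.cu]; group

lemma conj_u' (a : MA) : (M.jB M.u)⁻¹ * M.jA a * M.jB M.u = M.jA (M.γA.symm a) := by
  have := M.cu (M.γA.symm a)
  rw [MulEquiv.apply_symm_apply] at this
  rw [mul_assoc, ← this]; group

lemma conj_w (b : MB) : M.jA M.w * M.jB b * (M.jA M.w)⁻¹ = M.jB (M.γB b) := by
  rw [M.cw]; group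

lemma conj_w' (b : MB) : (M.jA M.w)⁻¹ * M.jB b * M.jA M.w = M.jB (M.γB.symm b) := by
  have := M.cw (M.γB.symm b)
  rw [MulEquiv.apply_symm_apply] at this
  rw [mul_assoc, ← this]; group

lemma jA_comm (a a' : MA) : M.jA a * M.jA a' = M.jA a' * M.jA a := by
  rw [← map_mul, mul_comm, map_mul]

lemma jB_comm (a a' : MB) : M.jB a * M.jB a' = M.jB a' * M.jB a := by
  rw [← map_mul, mul_comm, map_mul]

/-- The inner automorphism `τ`. -/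
def τ' : Q →* Q := (MulAut.conj (M.jB M.u * M.jA M.w)⁻¹).toMonoidHom

lemma τ'_apply (q : Q) : M.τ' q = (M.jB M.u * M.jA M.w)⁻¹ * q * (M.jB M.u * M.jA M.w) := by
  simp [τ', mul_assoc]

lemma τ'_A (a : MA) : M.τ' (M.jA a) = M.jA (M.γA.symm a) := by
  rw [τ'_apply]
  have h : (M.jB M.u * M.jA M.w)⁻¹ * M.jA a * (M.jB M.u * M.jA M.w) =
      (M.jA M.w)⁻¹ * ((M.jB M.u)⁻¹ * M.jA a * M.jB M.u) * M.jA M.w := by group
  rw [h, conj_u', mul_assoc, M.jA_comm]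
  group

lemma τ'_B (b : MB) : M.τ' (M.jB b) = M.jB (M.γB.symm b) := by
  rw [τ'_apply]
  have h : (M.jB M.u * M.jA M.w)⁻¹ * M.jB b * (M.jB M.u * M.jA M.w) =
      (M.jA M.w)⁻¹ * ((M.jB M.u)⁻¹ * (M.jB b * M.jB M.u)) * M.jA M.w := by group
  rw [h, M.jB_comm b, inv_mul_cancel_left, conj_w']

end FinModel

theorem FinModel.nonempty_finData {Q : Type} [Group Q] {MA MB : Type} [CommGroup MA]
    [CommGroup MB] (M : FinModel Q MA MB) : Nonempty (FinData Q) := by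
  have hnu : ∀ a : M.jA.range, M.jB M.u * (a : Q) * (M.jB M.u)⁻¹ ∈ M.jA.range := by
    rintro ⟨_, a, rfl⟩; exact ⟨_, (M.conj_u a).symm⟩
  have hnu' : ∀ a : M.jA.range, (M.jB M.u)⁻¹ * (a : Q) * M.jB M.u ∈ M.jA.range := by
    rintro ⟨_, a, rfl⟩; exact ⟨_, (M.conj_u' a).symm⟩
  have hnw : ∀ b : M.jB.range, M.jA M.w * (b : Q) * (M.jA M.w)⁻¹ ∈ M.jB.range := by
    rintro ⟨_, b, rfl⟩; exact ⟨_, (M.conj_w b).symm⟩
  have hnw' : ∀ b : M.jB.range, (M.jA M.w)⁻¹ * (b : Q) * M.jA M.w ∈ M.jB.range := by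
    rintro ⟨_, b, rfl⟩; exact ⟨_, (M.conj_w' b).symm⟩
  have e1 : (M.jB M.v)⁻¹ * (M.ψ' (M.eA M.w) : Q) * M.jB M.v = M.jA (M.ψ M.y) := by
    rw [M.ψ'_apply, M.coe_eA, mul_assoc, ← M.hy]; group
  have e2 : (M.jB M.v)⁻¹ * (M.ψ' (M.eA M.z) : Q) * M.jB M.v = M.jA (M.ψ M.x) := by
    rw [M.ψ'_apply, M.coe_eA, mul_assoc, ← M.hx]; group
  have e3 : (M.jA M.z)⁻¹ * (M.ω' (M.eB M.u) : Q) * M.jA M.z = M.jB (M.ω M.b) := by
    rw [M.ω'_apply, M.coe_eB, mul_assoc, ← M.hb]; group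
  have e4 : (M.jA M.z)⁻¹ * (M.ω' (M.eB M.v) : Q) * M.jA M.z = M.jB (M.ω M.b') := by
    rw [M.ω'_apply, M.coe_eB, mul_assoc, ← M.hb']; group
  have hw : (M.jB M.v)⁻¹ * (M.ψ' (M.eA M.w) : Q) * M.jB M.v ∈ M.jA.range := ⟨_, e1.symm⟩
  have hz : (M.jB M.v)⁻¹ * (M.ψ' (M.eA M.z) : Q) * M.jB M.v ∈ M.jA.range := ⟨_, e2.symm⟩
  have hu : (M.jA M.z)⁻¹ * (M.ω' (M.eB M.u) : Q) * M.jA M.z ∈ M.jB.range := ⟨_, e3.symm⟩
  have hv : (M.jA M.z)⁻¹ * (M.ω' (M.eB M.v) : Q) * M.jA M.z ∈ M.jB.range := ⟨_, e4.symm⟩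
  have sw : M.ψ'.symm ⟨_, hw⟩ = M.eA M.y := M.ψ'_symm_mk hw _ e1
  have sz : M.ψ'.symm ⟨_, hz⟩ = M.eA M.x := M.ψ'_symm_mk hz _ e2
  have su : M.ω'.symm ⟨_, hu⟩ = M.eB M.b := M.ω'_symm_mk hu _ e3
  have sv : M.ω'.symm ⟨_, hv⟩ = M.eB M.b' := M.ω'_symm_mk hv _ e4
  have hB : ∀ l : Q, (∃ c : M.jB.range, ∃ h : (M.jA M.z)⁻¹ * (M.ω' c : Q) * M.jA M.z ∈ M.jB.range,
      l = (M.ω'.symm ⟨_, h⟩ : Q)) →
      ∃ l' : MB, l = M.jB l' ∧ ∃ c, M.jA M.z * M.jB (M.ω l') = M.jB c * M.jA M.z := by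
    rintro l ⟨c, h, rfl⟩
    obtain ⟨c, rfl⟩ := M.eB.surjective c
    obtain ⟨d, hd⟩ := h
    obtain ⟨l', rfl⟩ := M.ω.surjective d
    refine ⟨l', ?_, M.ω c, ?_⟩
    · rw [M.ω'_symm_mk _ l' hd.symm, M.coe_eB]
    · rw [hd, M.ω'_apply, M.coe_eB]; group
  have hA : ∀ k : Q, (∃ a : M.jA.range, ∃ h : (M.jB M.v)⁻¹ * (M.ψ' a : Q) * M.jB M.v ∈ M.jA.range,
      k = (M.ψ'.symm ⟨_, h⟩ : Q)) →
      ∃ k' : MA, k = M.jA k' ∧ ∃ a, M.jB M.v * M.jA (M.ψ k') = M.jA a * M.jB M.v := by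
    rintro k ⟨a, h, rfl⟩
    obtain ⟨a, rfl⟩ := M.eA.surjective a
    obtain ⟨d, hd⟩ := h
    obtain ⟨k', rfl⟩ := M.ψ.surjective d
    refine ⟨k', ?_, M.ψ a, ?_⟩
    · rw [M.ψ'_symm_mk _ k' hd.symm, M.coe_eA]
    · rw [hd, M.ψ'_apply, M.coe_eA]; group
  refine ⟨{
    A := M.jA.range
    B := M.jB.range
    ψ := M.ψ'
    ω := M.ω'
    τ := M.τ'
    τ_inj := (MulAut.conj (M.jB M.u * M.jA M.w)⁻¹).injective
    u := M.eB M.u
    v := M.eB M.v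
    w := M.eA M.w
    z := M.eA M.z
    disj := ?_
    norm_u := hnu
    norm_u' := hnu'
    norm_w := hnw
    norm_w' := hnw'
    τA := ?_
    τB := ?_
    hw := hw
    hz := hz
    hu := hu
    hv := hv
    rel := ?_
    hu1 := ?_
    hv1 := ?_
    hw1 := ?_
    hz1 := ?_
    huu := ?_
    hww := ?_
    huv := ?_
    huv' := ?_
    hwz := ?_
    hwz' := ?_
    hvv := ?_
    hzz := ?_
    exact := ?_ }⟩
  · rw [eq_bot_iff]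
    rintro _ ⟨⟨a, rfl⟩, ⟨b, hb⟩⟩
    rw [M.disj a b hb.symm, map_one]
    exact one_mem _
  · intro a
    obtain ⟨a, rfl⟩ := M.eA.surjective a
    rw [M.ψ'_symm_mk _ (M.γA.symm a), M.coe_eA, M.coe_eA, M.τ'_A]
    rw [M.ψ'_apply, M.ψ'_apply, M.coe_eA, M.coe_eB, M.conj_u]
    have := M.braidA (M.γA.symm a)
    rw [MulEquiv.apply_symm_apply] at this
    rw [this]
  · intro b
    obtain ⟨b, rfl⟩ := M.eB.surjective b
    rw [M.ω'_symm_mk _ (M.γB.symm b), M.coe_eB, M.coe_eB, M.τ'_B]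
    rw [M.ω'_apply, M.ω'_apply, M.coe_eB, M.coe_eA, M.conj_w]
    have := M.braidB (M.γB.symm b)
    rw [MulEquiv.apply_symm_apply] at this
    rw [this]
  · show ((M.ω'.symm ⟨_, hu⟩ : M.jB.range) : Q) * (M.ψ'.symm ⟨_, hz⟩ : M.jA.range) =
      (M.ψ'.symm ⟨_, hw⟩ : M.jA.range) * (M.ω'.symm ⟨_, hv⟩ : M.jB.range)
    rw [sw, sz, su, sv]
    exact M.rel
  · exact fun h => M.hu1 (M.eB.injective (h.trans (map_one _).symm))
  · exact fun h => M.hv1 (M.eB.injective (h.trans (map_one _).symm))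
  · exact fun h => M.hw1 (M.eA.injective (h.trans (map_one _).symm))
  · exact fun h => M.hz1 (M.eA.injective (h.trans (map_one _).symm))
  · intro h
    rw [← map_mul] at h
    exact M.huu (M.eB.injective (h.trans (map_one _).symm))
  · intro h
    rw [← map_mul] at h
    exact M.hww (M.eA.injective (h.trans (map_one _).symm))
  · exact fun h => M.huv (M.eB.injective h)
  · intro h
    rw [← map_mul] at h
    exact M.huv' (M.eB.injective (h.trans (map_one _).symm))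
  · exact fun h => M.hwz (M.eA.injective h)
  · intro h
    rw [← map_mul] at h
    exact M.hwz' (M.eA.injective (h.trans (map_one _).symm))
  · rintro _ ⟨a, rfl⟩ ⟨a', ha'⟩
    exact M.hvv a a' ha'.symm
  · rintro _ ⟨a, rfl⟩ ⟨a', ha'⟩
    exact M.hzz a a' ha'.symm
  · intro l k k₁ l₁ hl hk hk₁ hl₁ hl1 hk1 hrel
    obtain ⟨l, rfl, hl'⟩ := hB _ hl
    obtain ⟨l₁, rfl, hl₁'⟩ := hB _ hl₁
    obtain ⟨k, rfl, hk'⟩ := hA _ hk
    obtain ⟨k₁, rfl, hk₁'⟩ := hA _ hk₁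
    have hl1' : l ≠ 1 := by rintro rfl; exact hl1 (map_one _)
    have hk1' : k ≠ 1 := by rintro rfl; exact hk1 (map_one _)
    have key := M.exact l l₁ k k₁ hl' hl₁' hk' hk₁' hl1' hk1' hrel
    show (M.jB l = ((M.ω'.symm ⟨_, hu⟩ : M.jB.range) : Q) ∧
        M.jA k = ((M.ψ'.symm ⟨_, hz⟩ : M.jA.range) : Q)) ∨
      (M.jB l = ((M.ω'.symm ⟨_, hv⟩ : M.jB.range) : Q) ∧
        M.jA k = ((M.ψ'.symm ⟨_, hz⟩ : M.jA.range) : Q)⁻¹) ∨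
      (M.jB l = ((M.ω'.symm ⟨_, hu⟩ : M.jB.range) : Q)⁻¹ ∧
        M.jA k = ((M.ψ'.symm ⟨_, hw⟩ : M.jA.range) : Q)) ∨
      (M.jB l = ((M.ω'.symm ⟨_, hv⟩ : M.jB.range) : Q)⁻¹ ∧
        M.jA k = ((M.ψ'.symm ⟨_, hw⟩ : M.jA.range) : Q)⁻¹)
    rw [sw, sz, su, sv]
    simp only [M.coe_eA, M.coe_eB]
    rcases key with ⟨rfl, rfl⟩ | ⟨rfl, rfl⟩ | ⟨rfl, rfl⟩ | ⟨rfl, rfl⟩
    · exact Or.inl ⟨rfl, rfl⟩
    · exact Or.inr (Or.inl ⟨rfl, map_inv _ _⟩)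
    · exact Or.inr (Or.inr (Or.inl ⟨map_inv _ _, rfl⟩))
    · exact Or.inr (Or.inr (Or.inr ⟨map_inv _ _, map_inv _ _⟩))

end Pool.Agent.MP_140312_al_Neg
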