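import Pool.Agent.Lib.MP_140312_al_Neg.FinX
import Pool.Agent.Lib.MP_140312_al_Neg.FinModel

/-!
# The finite group of the counterexample
-/

set_option autoImplicit false

namespace Pool.Agent.MP_140312_al_Neg.FinW

/-- The finite group. -/
abbrev Q : Type := Equiv.Perm X × Equiv.Perm X × Equiv.Perm (Fin 4)

/-- The coefficient group. -/
abbrev M : Type := Multiplicative R

/-- The embedding of `A`. -/
def jA : M →* Q where
  toFun a := (vec a.toAdd, act (cl a.toAdd), px (nn a.toAdd))
  map_one' := by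
    show (vec 0, act (cl 0), px (nn 0)) = 1
    rw [vec_zero, cl_zero, act_zero, nn_zero, px_zero]
    rfl
  map_mul' a b := by
    show (vec (a.toAdd + b.toAdd), act (cl (a.toAdd + b.toAdd)), px (nn (a.toAdd + b.toAdd))) = _
    rw [vec_add, cl_add, act_add, nn_add, px_add]
    rfl

/-- The embedding of `B`. -/
def jB : M →* Q where
  toFun a := (act (cl a.toAdd), vec a.toAdd, pb (-nn a.toAdd))
  map_one' := by
    show (act (cl 0), vec 0, pb (-nn 0)) = 1
    rw [vec_zero, cl_zero, act_zero, nn_zero, neg_zero, pb_zero]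
    rfl
  map_mul' a b := by
    show (act (cl (a.toAdd + b.toAdd)), vec (a.toAdd + b.toAdd),
      pb (-nn (a.toAdd + b.toAdd))) = _
    rw [vec_add, cl_add, act_add, nn_add, neg_add, pb_add]
    rfl

theorem jB_mul_jA (b a : M) : jB b * jA a = (act (cl b.toAdd) * vec a.toAdd,
    vec b.toAdd * act (cl a.toAdd), pb (-nn b.toAdd) * px (nn a.toAdd)) := rfl

theorem jA_mul_jB (a b : M) : jA a * jB b = (vec a.toAdd * act (cl b.toAdd),
    act (cl a.toAdd) * vec b.toAdd, px (nn a.toAdd) * pb (-nn b.toAdd)) := rfl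

theorem prod_ext3 {α β γ : Type*} {p q : α × β × γ} (h1 : p.1 = q.1) (h2 : p.2.1 = q.2.1)
    (h3 : p.2.2 = q.2.2) : p = q := Prod.ext h1 (Prod.ext h2 h3)

theorem jB_mul_jA_eq_iff {b b' a a' : M} : jB b * jA a = jA a' * jB b' ↔
    act (cl b.toAdd) * vec a.toAdd = vec a'.toAdd * act (cl b'.toAdd) ∧
    vec b.toAdd * act (cl a.toAdd) = act (cl a'.toAdd) * vec b'.toAdd ∧
    pb (-nn b.toAdd) * px (nn a.toAdd) = px (nn a'.toAdd) * pb (-nn b'.toAdd) := by
  rw [jB_mul_jA, jA_mul_jB]
  constructor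
  · intro h
    exact ⟨congrArg Prod.fst h, congrArg (fun q => q.2.1) h, congrArg (fun q => q.2.2) h⟩
  · rintro ⟨h1, h2, h3⟩
    exact prod_ext3 h1 h2 h3

theorem jA_injective : Function.Injective jA := by
  intro a b h
  exact Multiplicative.toAdd.injective (vec_injective (congrArg Prod.fst h))

theorem jB_injective : Function.Injective jB := by
  intro a b h
  exact Multiplicative.toAdd.injective (vec_injective (congrArg (fun q => q.2.1) h))

/-- Permutation of the coordinates, as an automorphism. -/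
def pmE (σ : Equiv.Perm (Fin 24)) : M ≃* M where
  toFun a := Multiplicative.ofAdd (pm σ a.toAdd)
  invFun a := Multiplicative.ofAdd (pm σ.symm a.toAdd)
  left_inv a := by
    apply Multiplicative.toAdd.injective
    funext i
    simp [pm]
  right_inv a := by
    apply Multiplicative.toAdd.injective
    funext i
    simp [pm]
  map_mul' a b := rfl

theorem toAdd_pmE (σ : Equiv.Perm (Fin 24)) (a : M) : (pmE σ a).toAdd = pm σ a.toAdd := rfl

/-- The basis elements. -/
def ee (i : Fin 24) : M := Multiplicative.ofAdd (e i)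

theorem toAdd_ee (i : Fin 24) : (ee i).toAdd = e i := rfl

theorem pmE_ee (σ : Equiv.Perm (Fin 24)) (i : Fin 24) : pmE σ (ee i) = ee (σ i) := by
  apply Multiplicative.toAdd.injective
  rw [toAdd_pmE, toAdd_ee, pm_e, toAdd_ee]

theorem braid (a : M) : pmE gam (pmE psi (pmE psi (pmE gam a))) = pmE psi a := by
  apply Multiplicative.toAdd.injective
  funext i
  simp only [toAdd_pmE, pm]

  obtain ⟨j, rfl⟩ := psi.surjective i
  have h : gam.symm (psi.symm (psi.symm (gam.symm (psi j)))) = j := by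
    rw [← gam_psi j]
    simp
  rw [h, Equiv.symm_apply_apply]

theorem cls_gam (i : Fin 24) : cls (gam i) = cls i := by
  revert i; decide

theorem nn_e_two : nn (e 2) = 0 := by decide

/-- `vec (e 2)` commutes with everything in the class group. -/
theorem two_comm (l : E) : act l * vec (e 2) = vec (e 2) * act l := conj_single (sh_two l) 1

/-- The action of `u`. -/
theorem cu (a : M) : jB (ee 2) * jA a = jA (pmE gam a) * jB (ee 2) := by
  rw [jB_mul_jA_eq_iff, toAdd_pmE, toAdd_ee, cl_pm cls_gam, nn_pm_gam, nn_e_two, neg_zero,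
    pb_zero, one_mul, mul_one, two_comm, cl_e]
  exact ⟨conj_perm sh_gam _, rfl, rfl⟩

/-- The action of `w`. -/
theorem cw (b : M) : jA (ee 2) * jB b = jB (pmE gam b) * jA (ee 2) := by
  symm
  rw [jB_mul_jA_eq_iff, toAdd_pmE, toAdd_ee, cl_pm cls_gam, nn_pm_gam, nn_e_two, px_zero,
    one_mul, mul_one, two_comm, cl_e]
  exact ⟨rfl, (conj_perm sh_gam _).symm, rfl⟩

/-- A relation between basis elements. -/
theorem rel_ee {p i j : Fin 24} (h1 : sh (bv (cls p)) (pt i) = pt j)
    (h2 : cls i = cls j) (h3 : sh (bv (cls i)) (pt p) = pt p)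
    (h4 : pb (-nn (e p)) * px (nn (e i)) = px (nn (e j)) * pb (-nn (e p))) :
    jB (ee p) * jA (ee i) = jA (ee j) * jB (ee p) := by
  rw [jB_mul_jA_eq_iff]
  simp only [toAdd_ee, cl_e]
  refine ⟨conj_single h1 1, ?_, h4⟩
  rw [← h2]
  exact (conj_single h3 1).symm

/-- A relation between basis elements. -/
theorem rel_ee' {p i j : Fin 24} (h1 : sh (bv (cls p)) (pt i) = pt j)
    (h2 : cls i = cls j) (h3 : sh (bv (cls i)) (pt p) = pt p)
    (h4 : px (nn (e p)) * pb (-nn (e i)) = pb (-nn (e j)) * px (nn (e p))) :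
    jA (ee p) * jB (ee i) = jB (ee j) * jA (ee p) := by
  symm
  rw [jB_mul_jA_eq_iff]
  simp only [toAdd_ee, cl_e]
  refine ⟨?_, (conj_single h1 1).symm, h4.symm⟩
  rw [← h2]
  exact conj_single h3 1

theorem main_rel : jB (ee 11) * jA (ee 21) = jA (ee 11) * jB (ee 21) := by
  rw [jB_mul_jA_eq_iff]
  simp only [toAdd_ee, cl_e]
  have h1 : sh (bv (cls 11)) (pt 21) = pt 11 := by decide
  have h2 : cls 11 = cls 21 := by decide
  refine ⟨?_, ?_, by decide⟩
  · rw [← h2]
    exact conj_single h1 1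
  · rw [← h2]
    exact (conj_single h1 1).symm

theorem ee_injective {i j : Fin 24} (h : ee i = ee j) : i = j := by
  by_contra hne
  have h1 : e i i = e j i := congrFun (congrArg Multiplicative.toAdd h) i
  rw [e_self, e_ne hne] at h1
  exact absurd h1 (by decide)

theorem ee_ne_one (i : Fin 24) : ee i ≠ 1 := by
  intro h
  have h1 : e i i = 0 := congrFun (congrArg Multiplicative.toAdd h) i
  rw [e_self] at h1
  exact absurd h1 (by decide)

theorem ee_mul_ne_one (i j : Fin 24) : ee i * ee j ≠ 1 := by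
  intro h
  have h1 : e i i + e j i = 0 := congrFun (congrArg Multiplicative.toAdd h) i
  rw [e_self] at h1
  by_cases hij : i = j
  · subst hij
    rw [e_self] at h1
    exact absurd h1 (by decide)
  · rw [e_ne hij] at h1
    exact absurd h1 (by decide)

theorem act_conj_ne (a a' : R) : act (bv 3) * vec a * act (bv 3) ≠ vec a' := by
  intro h
  have h1 := congrArg (fun q : Equiv.Perm X => (q ((0, 0), 0)).1) h
  have h2 : sh (bv 3) (sh (bv 3) (0, 0)) = sh 0 (0, 0) := by
    rw [sh_zero]
    exact h1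
  rw [← sh_add] at h2
  have h3 := congrFun (sh_eq_iff h2) 3
  exact absurd h3 (by decide)

theorem psi_supp {κ : M} (hκ : ∀ i, (pmE psi κ).toAdd i ≠ 0 → i = 8 ∨ i = 9 ∨ i = 10 ∨ i = 22) :
    Supp κ.toAdd := by
  intro i h1 h2 h3 h4
  by_contra hne
  have h5 : (pmE psi κ).toAdd (psi i) ≠ 0 := by
    rw [toAdd_pmE, pm, Equiv.symm_apply_apply]
    exact hne
  have h6 := hκ _ h5
  revert h1 h2 h3 h4 h6
  have key : ∀ i : Fin 24, i ≠ 11 → i ≠ 14 → i ≠ 17 → i ≠ 21 →
      ¬ (psi i = 8 ∨ psi i = 9 ∨ psi i = 10 ∨ psi i = 22) := by decide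
  intro h1 h2 h3 h4 h6
  exact key i h1 h2 h3 h4 h6

theorem cls_five : cls 5 = 3 := by decide

/-- Exactness of `K*`. -/
theorem supp_A {κ : M} (h : ∃ a, jB (ee 5) * jA (pmE psi κ) = jA a * jB (ee 5)) :
    Supp κ.toAdd := by
  obtain ⟨a, ha⟩ := h
  rw [jB_mul_jA_eq_iff] at ha
  obtain ⟨h1, h2, -⟩ := ha
  rw [toAdd_ee, cl_e, cls_five] at h1
  rw [toAdd_ee] at h2
  exact psi_supp fun i hi => supp_of_conj h1 h2.symm hi

/-- Exactness of `L*`. -/
theorem supp_B {κ : M} (h : ∃ c, jA (ee 5) * jB (pmE psi κ) = jB c * jA (ee 5)) :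
    Supp κ.toAdd := by
  obtain ⟨a, ha⟩ := h
  replace ha := ha.symm
  rw [jB_mul_jA_eq_iff] at ha
  obtain ⟨h1, h2, -⟩ := ha
  rw [toAdd_ee, cl_e, cls_five] at h2
  rw [toAdd_ee] at h1
  exact psi_supp fun i hi => supp_of_conj h2.symm h1 hi

/-- The model. -/
def model : FinModel Q M M where
  jA := jA
  jB := jB
  jA_inj := jA_injective
  jB_inj := jB_injective
  disj := by
    intro a b h
    have h1 : vec a.toAdd = act (cl b.toAdd) := congrArg Prod.fst h
    apply Multiplicative.toAdd.injective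
    funext i
    have h2 := congrArg (fun q : Equiv.Perm X => (q (pt i, 0)).2) h1
    simpa [vec_apply, act_apply, fv_pt] using h2
  ψ := pmE psi
  ω := pmE psi
  γA := pmE gam
  γB := pmE gam
  u := ee 2
  v := ee 5
  w := ee 2
  z := ee 5
  cu := cu
  cw := cw
  braidA := braid
  braidB := braid
  x := ee 21
  y := ee 11
  b := ee 11
  b' := ee 21
  hy := by
    rw [pmE_ee, pmE_ee]
    exact rel_ee (by decide) (by decide) (by decide) (by decide)
  hx := by
    rw [pmE_ee, pmE_ee]
    exact rel_ee (by decide) (by decide) (by decide) (by decide)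
  hb := by
    rw [pmE_ee, pmE_ee]
    exact rel_ee' (by decide) (by decide) (by decide) (by decide)
  hb' := by
    rw [pmE_ee, pmE_ee]
    exact rel_ee' (by decide) (by decide) (by decide) (by decide)
  rel := main_rel
  hu1 := ee_ne_one 2
  hv1 := ee_ne_one 5
  hw1 := ee_ne_one 2
  hz1 := ee_ne_one 5
  huu := ee_mul_ne_one 2 2
  hww := ee_mul_ne_one 2 2
  huv := fun h => absurd (ee_injective h) (by decide)
  huv' := ee_mul_ne_one 2 5
  hwz := fun h => absurd (ee_injective h) (by decide)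
  hwz' := ee_mul_ne_one 2 5
  hvv := by
    intro a a' h
    have h1 : act (cl (e 5)) * vec a.toAdd * act (cl (e 5)) = vec a'.toAdd := congrArg Prod.fst h
    rw [cl_e, cls_five] at h1
    exact act_conj_ne _ _ h1
  hzz := by
    intro a a' h
    have h1 : act (cl (e 5)) * vec a.toAdd * act (cl (e 5)) = vec a'.toAdd :=
      congrArg (fun q : Q => q.2.1) h
    rw [cl_e, cls_five] at h1
    exact act_conj_ne _ _ h1
  exact := by
    intro l l₁ k k₁ hl hl₁ hk hk₁ hl1 hk1 h
    rw [jB_mul_jA_eq_iff] at h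
    obtain ⟨h1, h2, h3⟩ := h
    have hl0 : l.toAdd ≠ 0 := fun h => hl1 (Multiplicative.toAdd.injective h)
    have hk0 : k.toAdd ≠ 0 := fun h => hk1 (Multiplicative.toAdd.injective h)
    rcases exact_core (supp_B hl) (supp_B hl₁) (supp_A hk) (supp_A hk₁) h1 h2.symm h3 hl0 hk0
      with ⟨ha, hb⟩ | ⟨ha, hb⟩ | ⟨ha, hb⟩ | ⟨ha, hb⟩
    · exact Or.inl ⟨Multiplicative.toAdd.injective ha, Multiplicative.toAdd.injective hb⟩
    · exact Or.inr (Or.inl ⟨Multiplicative.toAdd.injective ha, Multiplicative.toAdd.injective hb⟩)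
    · exact Or.inr (Or.inr (Or.inl
        ⟨Multiplicative.toAdd.injective ha, Multiplicative.toAdd.injective hb⟩))
    · exact Or.inr (Or.inr (Or.inr
        ⟨Multiplicative.toAdd.injective ha, Multiplicative.toAdd.injective hb⟩))

theorem finite_Q : Finite Q := inferInstance

end Pool.Agent.MP_140312_al_Neg.FinW

namespace Pool.Agent.MP_140312_al_Neg

theorem exists_finData : ∃ (Q : Type) (_ : Group Q), Finite Q ∧ Nonempty (FinData Q) :=
  ⟨FinW.Q, inferInstance, FinW.finite_Q, FinW.model.nonempty_finData⟩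

end Pool.Agent.MP_140312_al_Neg
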