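import Pool.Agent.Lib.MP_140312_al_Neg.Defs

/-!
# Flat patches: the substitution

A flat `F` of the development of `D.toSquare` is refined: each square of `F` is replaced by a
block of four squares around a vertex of type `(true, true)`. The vertices of the refined flat are
again good, so iterating the refinement gives flat patches of every size.
-/

namespace Pool.Agent.MP_140312_al_Neg

namespace FinData

variable {Q : Type} [Group Q] (D : FinData Q)

/-- `u` as an element of `B₁`. -/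
def pu₁ : D.B₁ := ⟨D.u, D.hu⟩
/-- `v` as an element of `B₁`. -/
def pv₁ : D.B₁ := ⟨D.v, D.hv⟩
/-- `w` as an element of `A₁`. -/
def pw₁ : D.A₁ := ⟨D.w, D.hw⟩
/-- `z` as an element of `A₁`. -/
def pz₁ : D.A₁ := ⟨D.z, D.hz⟩

/-- The element crossed at an even column of the refined flat. -/
def crossV : ∀ b _ : Bool, D.EV b → D.B
  | false, false => fun X => D.ω.symm ⟨(D.w : Q) * D.ω (D.ω X) * (D.w : Q)⁻¹, D.norm_w _⟩
  | false, true => fun X => D.ω X
  | true, false => fun X => (show D.B₁ from X).1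
  | true, true => fun X => D.tB X

/-- The element crossed at an even row of the refined flat. -/
def crossH : ∀ c _ : Bool, D.EH c → D.A
  | false, false => fun Y => D.ψ.symm ⟨(D.u : Q) * D.ψ (D.ψ Y) * (D.u : Q)⁻¹, D.norm_u _⟩
  | false, true => fun Y => D.ψ Y
  | true, false => fun Y => (show D.A₁ from Y).1
  | true, true => fun Y => D.tA Y

/-- The endomorphism of the vertex group. -/
def τ' : Bool → Bool → Q →* Q
  | false, false => D.τ
  | _, _ => MonoidHom.id Q

theorem τ'_inj (b c : Bool) : Function.Injective (D.τ' b c) := by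
  rcases b with _ | _ <;> rcases c with _ | _
  · exact D.τ_inj
  all_goals exact fun _ _ h => h

theorem crossV_eq (b c : Bool) (X : D.EV b) :
    (D.crossV b c X : Q) = D.τ' b c (D.mapV b c X) := by
  rcases b with _ | _ <;> rcases c with _ | _
  · exact (D.τB X).symm
  all_goals rfl

theorem crossH_eq (c b : Bool) (Y : D.EH c) :
    (D.crossH c b Y : Q) = D.τ' b c (D.mapH b c Y) := by
  rcases b with _ | _ <;> rcases c with _ | _
  · exact (D.τA Y).symm
  all_goals rfl

theorem crossV_ne (b c : Bool) {X : D.EV b} (h : X ≠ 1) : D.crossV b c X ≠ 1 := by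
  intro h1
  apply h
  apply D.toSquare.v_inj b c
  apply D.τ'_inj b c
  have := D.crossV_eq b c X
  rw [h1] at this
  exact this.symm.trans (((D.τ' b c).comp (D.mapV b c)).map_one).symm

theorem crossH_ne (c b : Bool) {Y : D.EH c} (h : Y ≠ 1) : D.crossH c b Y ≠ 1 := by
  intro h1
  apply h
  apply D.toSquare.h_inj b c
  apply D.τ'_inj b c
  have := D.crossH_eq c b Y
  rw [h1] at this
  exact this.symm.trans (((D.τ' b c).comp (D.mapH b c)).map_one).symm

/-- The element crossed at an odd column of the refined flat. -/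
def blkV : Bool → Bool → D.B₁
  | false, false => D.pu₁
  | false, true => D.pv₁
  | true, false => D.pu₁⁻¹
  | true, true => D.pv₁⁻¹

/-- The element crossed at an odd row of the refined flat. -/
def blkH : Bool → Bool → D.A₁
  | false, false => D.pw₁
  | false, true => D.pz₁
  | true, false => D.pw₁⁻¹
  | true, true => D.pz₁⁻¹

theorem blkV_ne (b c : Bool) : D.blkV b c ≠ 1 := by
  have hu : D.pu₁ ≠ 1 := fun h => D.hu1 (congrArg Subtype.val h)
  have hv : D.pv₁ ≠ 1 := fun h => D.hv1 (congrArg Subtype.val h)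
  rcases b with _ | _ <;> rcases c with _ | _
  · exact hu
  · exact hv
  · exact inv_ne_one.mpr hu
  · exact inv_ne_one.mpr hv

theorem blkH_ne (b c : Bool) : D.blkH b c ≠ 1 := by
  have hu : D.pw₁ ≠ 1 := fun h => D.hw1 (congrArg Subtype.val h)
  have hv : D.pz₁ ≠ 1 := fun h => D.hz1 (congrArg Subtype.val h)
  rcases b with _ | _ <;> rcases c with _ | _
  · exact hu
  · exact hv
  · exact inv_ne_one.mpr hu
  · exact inv_ne_one.mpr hv

theorem prel₁ : (D.tB D.pu₁ : Q) * D.tA D.pz₁ = D.tA D.pw₁ * D.tB D.pv₁ := D.rel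

/-- The relation at an (odd, odd) vertex of the refined flat. -/
theorem prel_tt (b c : Bool) :
    (D.tB (D.blkV b c) : Q) * D.tA (D.blkH c (!b)) = D.tA (D.blkH c b) * D.tB (D.blkV b (!c)) := by
  have h := D.prel₁
  rcases b with _ | _ <;> rcases c with _ | _ <;>
    simp only [blkV, blkH, Bool.not_true, Bool.not_false, map_inv, InvMemClass.coe_inv]
  · exact h
  · rw [mul_inv_eq_iff_eq_mul, mul_assoc, eq_inv_mul_iff_mul_eq]
    exact h.symm
  · rw [inv_mul_eq_iff_eq_mul, ← mul_assoc, eq_mul_inv_iff_mul_eq]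
    exact h.symm
  · rw [← mul_inv_rev, ← mul_inv_rev, inv_inj]
    exact h.symm

/-- The relation at an (even, odd) vertex of the refined flat. -/
theorem prel_ft (b c : Bool) (X : D.EV b) :
    (D.ω (D.crossV b c X) : Q) * (D.blkH c b).1 = (D.blkH c b).1 * D.ω (D.crossV b (!c) X) := by
  have h1 : ∀ X : D.B, (D.ω (D.crossV false false X) : Q) = D.w * D.ω (D.ω X) * (D.w : Q)⁻¹ := by
    intro X
    simp [crossV]
  have h2 : ∀ X : D.B₁, (D.ω (D.tB X) : Q) = (D.z : Q)⁻¹ * D.ω X.1 * D.z := by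
    intro X
    simp [tB]
  have a1 : ∀ X : D.B, (D.ω (D.crossV false false X) : Q) * (D.w : Q) =
      (D.w : Q) * D.ω (D.ω X) := by
    intro X
    rw [h1]
    group
  have a2 : ∀ X : D.B, (D.ω (D.ω X) : Q) * (D.w : Q)⁻¹ =
      (D.w : Q)⁻¹ * D.ω (D.crossV false false X) := by
    intro X
    rw [h1]
    group
  have a3 : ∀ X : D.B₁, (D.ω X.1 : Q) * (D.z : Q) = (D.z : Q) * D.ω (D.tB X) := by
    intro X
    rw [h2]
    group
  have a4 : ∀ X : D.B₁, (D.ω (D.tB X) : Q) * (D.z : Q)⁻¹ = (D.z : Q)⁻¹ * D.ω X.1 := by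
    intro X
    rw [h2]
    group
  rcases b with _ | _ <;> rcases c with _ | _
  · exact a1 X
  · exact a2 X
  · exact a3 X
  · exact a4 X

/-- The relation at an (odd, even) vertex of the refined flat. -/
theorem prel_tf (b c : Bool) (Y : D.EH c) :
    ((D.blkV b c).1 : Q) * D.ψ (D.crossH c (!b) Y) = D.ψ (D.crossH c b Y) * (D.blkV b c).1 := by
  have h1 : ∀ Y : D.A, (D.ψ (D.crossH false false Y) : Q) = D.u * D.ψ (D.ψ Y) * (D.u : Q)⁻¹ := by
    intro X
    simp [crossH]
  have h2 : ∀ Y : D.A₁, (D.ψ (D.tA Y) : Q) = (D.v : Q)⁻¹ * D.ψ Y.1 * D.v := by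
    intro X
    simp [tA]
  have a1 : ∀ Y : D.A, (D.u : Q) * D.ψ (D.ψ Y) =
      D.ψ (D.crossH false false Y) * (D.u : Q) := by
    intro X
    rw [h1]
    group
  have a2 : ∀ Y : D.A₁, (D.v : Q) * D.ψ (D.tA Y) = D.ψ Y.1 * (D.v : Q) := by
    intro X
    rw [h2]
    group
  have a3 : ∀ Y : D.A, (D.u : Q)⁻¹ * D.ψ (D.crossH false false Y) =
      D.ψ (D.ψ Y) * (D.u : Q)⁻¹ := by
    intro X
    rw [h1]
    group
  have a4 : ∀ Y : D.A₁, (D.v : Q)⁻¹ * D.ψ Y.1 = D.ψ (D.tA Y) * (D.v : Q)⁻¹ := by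
    intro X
    rw [h2]
    group
  rcases b with _ | _ <;> rcases c with _ | _
  · exact a1 Y
  · exact a2 Y
  · exact a3 Y
  · exact a4 Y

/-- Choice of the step at a column. -/
def mkV : ∀ b : Bool, D.B → D.B₁ → D.EV b
  | false, e, _ => e
  | true, _, e => e

/-- Choice of the step at a row. -/
def mkH : ∀ b : Bool, D.A → D.A₁ → D.EH b
  | false, e, _ => e
  | true, _, e => e

/-- The refinement of a flat. -/
def refine (F : Steps D.toSquare) : Steps D.toSquare where
  x i j := D.mkV (par i)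
    (D.crossV (par (i / 2)) (xor (par (j / 2)) (par j)) (F.x (i / 2) (j / 2)))
    (D.blkV (par (i / 2)) (xor (par (j / 2)) (par j)))
  y i j := D.mkH (par j)
    (D.crossH (par (j / 2)) (xor (par (i / 2)) (par i)) (F.y (i / 2) (j / 2)))
    (D.blkH (par (j / 2)) (xor (par (i / 2)) (par i)))

end FinData

theorem par_two_mul (k : ℤ) : par (2 * k) = false := by
  simp [par]

theorem par_two_mul_add_one (k : ℤ) : par (2 * k + 1) = true := by
  simp [par]

theorem par_two_mul_sub_one (k : ℤ) : par (2 * k - 1) = true := by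
  unfold par
  rw [decide_eq_true_eq]
  omega

theorem par_sub_one (k : ℤ) : par (k - 1) = !(par k) := by
  unfold par
  rcases Int.emod_two_eq_zero_or_one k with h | h
  · have : (k - 1) % 2 = 1 := by omega
    simp [h, this]
  · have : (k - 1) % 2 = 0 := by omega
    simp [h, this]

theorem two_mul_sub_one_ediv (k : ℤ) : (2 * k - 1) / 2 = k - 1 := by omega

theorem two_mul_ediv (k : ℤ) : (2 * k) / 2 = k := by omega

theorem two_mul_add_one_ediv (k : ℤ) : (2 * k + 1) / 2 = k := by omega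

namespace FinData

variable {Q : Type} [Group Q] (D : FinData Q) (F : Steps D.toSquare)

theorem cross_rel (b c : Bool) (X X' : D.EV b) (Y Y' : D.EH c)
    (h : D.mapV b c X * D.mapH b c Y = D.mapH b c Y' * D.mapV b c X') :
    (D.crossV b c X : Q) * D.crossH c b Y = D.crossH c b Y' * D.crossV b c X' := by
  rw [crossV_eq, crossV_eq, crossH_eq, crossH_eq, ← map_mul, ← map_mul, h]

theorem mkV_ne : ∀ (b : Bool) (e : D.B) (e' : D.B₁), (b = false → e ≠ 1) → (b = true → e' ≠ 1) →
    D.mkV b e e' ≠ 1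
  | false, _, _, h, _ => h rfl
  | true, _, _, _, h => h rfl

theorem mkH_ne : ∀ (b : Bool) (e : D.A) (e' : D.A₁), (b = false → e ≠ 1) → (b = true → e' ≠ 1) →
    D.mkH b e e' ≠ 1
  | false, _, _, h, _ => h rfl
  | true, _, _, _, h => h rfl

theorem refine_x_ne (i j : ℤ) (h : par i = false → F.x (i / 2) (j / 2) ≠ 1) :
    (D.refine F).x i j ≠ 1 :=
  D.mkV_ne _ _ _ (fun h1 => D.crossV_ne _ _ (h h1)) fun _ => D.blkV_ne _ _

theorem refine_y_ne (i j : ℤ) (h : par j = false → F.y (i / 2) (j / 2) ≠ 1) :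
    (D.refine F).y i j ≠ 1 :=
  D.mkH_ne _ _ _ (fun h1 => D.crossH_ne _ _ (h h1)) fun _ => D.blkH_ne _ _

theorem refine_ok_ff {k l : ℤ} (h : F.OkAt k l) : (D.refine F).OkAt (2 * k) (2 * l) := by
  constructor
  · change D.mapV (par (2 * k)) (par (2 * l)) (D.mkV (par (2 * k)) _ _) *
      D.mapH (par (2 * k)) (par (2 * l)) (D.mkH (par (2 * l)) _ _) =
      D.mapH (par (2 * k)) (par (2 * l)) (D.mkH (par (2 * l)) _ _) *
      D.mapV (par (2 * k)) (par (2 * l)) (D.mkV (par (2 * k)) _ _)
    rw [par_two_mul, par_two_mul, two_mul_sub_one_ediv, two_mul_sub_one_ediv, two_mul_ediv,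
      two_mul_ediv, par_two_mul_sub_one, par_two_mul_sub_one, par_sub_one, par_sub_one]
    simp only [Bool.xor_true, Bool.not_not, Bool.xor_false]
    exact D.cross_rel _ _ _ _ _ _ h.rel
  · refine D.refine_x_ne F _ _ fun _ => ?_
    rw [two_mul_ediv, two_mul_sub_one_ediv]
    exact h.x_ne
  · refine D.refine_x_ne F _ _ fun _ => ?_
    rw [two_mul_ediv, two_mul_ediv]
    exact h.x_ne'
  · refine D.refine_y_ne F _ _ fun _ => ?_
    rw [two_mul_ediv, two_mul_sub_one_ediv]
    exact h.y_ne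
  · refine D.refine_y_ne F _ _ fun _ => ?_
    rw [two_mul_ediv, two_mul_ediv]
    exact h.y_ne'

theorem add_one_sub_one (l : ℤ) : 2 * l + 1 - 1 = 2 * l := by ring

theorem refine_ok_ft {k l : ℤ} (h : F.x k l ≠ 1) : (D.refine F).OkAt (2 * k) (2 * l + 1) := by
  constructor
  · change D.mapV (par (2 * k)) (par (2 * l + 1)) (D.mkV (par (2 * k)) _ _) *
      D.mapH (par (2 * k)) (par (2 * l + 1)) (D.mkH (par (2 * l + 1)) _ _) =
      D.mapH (par (2 * k)) (par (2 * l + 1)) (D.mkH (par (2 * l + 1)) _ _) *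
      D.mapV (par (2 * k)) (par (2 * l + 1)) (D.mkV (par (2 * k)) _ _)
    rw [add_one_sub_one, par_two_mul, par_two_mul, par_two_mul_add_one, two_mul_sub_one_ediv,
      two_mul_ediv, two_mul_ediv, two_mul_add_one_ediv, par_two_mul_sub_one, par_sub_one]
    simp only [Bool.xor_true, Bool.not_not, Bool.xor_false]
    exact D.prel_ft _ _ _
  · refine D.refine_x_ne F _ _ fun _ => ?_
    rw [add_one_sub_one, two_mul_ediv, two_mul_ediv]
    exact h
  · refine D.refine_x_ne F _ _ fun _ => ?_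
    rw [two_mul_ediv, two_mul_add_one_ediv]
    exact h
  · refine D.refine_y_ne F _ _ fun h1 => ?_
    rw [par_two_mul_add_one] at h1
    exact absurd h1 (by decide)
  · refine D.refine_y_ne F _ _ fun h1 => ?_
    rw [par_two_mul_add_one] at h1
    exact absurd h1 (by decide)

theorem refine_ok_tf {k l : ℤ} (h : F.y k l ≠ 1) : (D.refine F).OkAt (2 * k + 1) (2 * l) := by
  constructor
  · change D.mapV (par (2 * k + 1)) (par (2 * l)) (D.mkV (par (2 * k + 1)) _ _) *
      D.mapH (par (2 * k + 1)) (par (2 * l)) (D.mkH (par (2 * l)) _ _) =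
      D.mapH (par (2 * k + 1)) (par (2 * l)) (D.mkH (par (2 * l)) _ _) *
      D.mapV (par (2 * k + 1)) (par (2 * l)) (D.mkV (par (2 * k + 1)) _ _)
    rw [add_one_sub_one, par_two_mul, par_two_mul, par_two_mul_add_one, two_mul_sub_one_ediv,
      two_mul_ediv, two_mul_ediv, two_mul_add_one_ediv, par_two_mul_sub_one, par_sub_one]
    simp only [Bool.xor_true, Bool.not_not, Bool.xor_false]
    exact D.prel_tf _ _ _
  · refine D.refine_x_ne F _ _ fun h1 => ?_
    rw [par_two_mul_add_one] at h1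
    exact absurd h1 (by decide)
  · refine D.refine_x_ne F _ _ fun h1 => ?_
    rw [par_two_mul_add_one] at h1
    exact absurd h1 (by decide)
  · refine D.refine_y_ne F _ _ fun _ => ?_
    rw [add_one_sub_one, two_mul_ediv, two_mul_ediv]
    exact h
  · refine D.refine_y_ne F _ _ fun _ => ?_
    rw [two_mul_ediv, two_mul_add_one_ediv]
    exact h

theorem refine_ok_tt (k l : ℤ) : (D.refine F).OkAt (2 * k + 1) (2 * l + 1) := by
  constructor
  · change D.mapV (par (2 * k + 1)) (par (2 * l + 1)) (D.mkV (par (2 * k + 1)) _ _) *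
      D.mapH (par (2 * k + 1)) (par (2 * l + 1)) (D.mkH (par (2 * l + 1)) _ _) =
      D.mapH (par (2 * k + 1)) (par (2 * l + 1)) (D.mkH (par (2 * l + 1)) _ _) *
      D.mapV (par (2 * k + 1)) (par (2 * l + 1)) (D.mkV (par (2 * k + 1)) _ _)
    rw [add_one_sub_one, add_one_sub_one, par_two_mul, par_two_mul, par_two_mul_add_one,
      par_two_mul_add_one, two_mul_ediv, two_mul_ediv, two_mul_add_one_ediv, two_mul_add_one_ediv]
    simp only [Bool.xor_true, Bool.xor_false]
    exact D.prel_tt _ _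
  · refine D.refine_x_ne F _ _ fun h1 => ?_
    rw [par_two_mul_add_one] at h1
    exact absurd h1 (by decide)
  · refine D.refine_x_ne F _ _ fun h1 => ?_
    rw [par_two_mul_add_one] at h1
    exact absurd h1 (by decide)
  · refine D.refine_y_ne F _ _ fun h1 => ?_
    rw [par_two_mul_add_one] at h1
    exact absurd h1 (by decide)
  · refine D.refine_y_ne F _ _ fun h1 => ?_
    rw [par_two_mul_add_one] at h1
    exact absurd h1 (by decide)

/-- Refinement doubles the size of a patch. -/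
theorem refine_ok {N : ℤ} (hN : 2 ≤ N)
    (h : ∀ i j : ℤ, 0 < i → i < N → 0 < j → j < N → F.OkAt i j) (i j : ℤ)
    (hi : 0 < i) (hi' : i < 2 * N) (hj : 0 < j) (hj' : j < 2 * N) : (D.refine F).OkAt i j := by
  obtain ⟨k, rfl | rfl⟩ : ∃ k, i = 2 * k ∨ i = 2 * k + 1 := ⟨i / 2, by omega⟩ <;>
    obtain ⟨l, rfl | rfl⟩ : ∃ l, j = 2 * l ∨ j = 2 * l + 1 := ⟨j / 2, by omega⟩
  · exact D.refine_ok_ff F (h k l (by omega) (by omega) (by omega) (by omega))
  · apply D.refine_ok_ft F
    rcases lt_or_ge 0 l with hl | hl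
    · exact (h k l (by omega) (by omega) (by omega) (by omega)).x_ne'
    · have h1 := (h k (l + 1) (by omega) (by omega) (by omega) (by omega)).x_ne
      rwa [add_sub_cancel_right] at h1
  · apply D.refine_ok_tf F
    rcases lt_or_ge 0 k with hk | hk
    · exact (h k l (by omega) (by omega) (by omega) (by omega)).y_ne'
    · have h1 := (h (k + 1) l (by omega) (by omega) (by omega) (by omega)).y_ne
      rwa [add_sub_cancel_right] at h1
  · exact D.refine_ok_tt F k l

theorem exists_patch (n : ℕ) : ∃ F : Steps D.toSquare,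
    ∀ i j : ℤ, 0 < i → i < 2 ^ (n + 1) → 0 < j → j < 2 ^ (n + 1) → F.OkAt i j := by
  induction n with
  | zero =>
    refine ⟨D.refine ⟨fun _ _ => 1, fun _ _ => 1⟩, fun i j hi hi' hj hj' => ?_⟩
    obtain rfl : i = 2 * 0 + 1 := by norm_num at hi' ⊢; omega
    obtain rfl : j = 2 * 0 + 1 := by norm_num at hj' ⊢; omega
    exact D.refine_ok_tt _ 0 0
  | succ n ih =>
    obtain ⟨F, hF⟩ := ih
    refine ⟨D.refine F, fun i j hi hi' hj hj' => ?_⟩
    have h2 : (2 : ℤ) ≤ 2 ^ (n + 1) := by
      rw [pow_succ]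
      have : (1 : ℤ) ≤ 2 ^ n := one_le_pow₀ (by norm_num)
      linarith
    refine D.refine_ok F h2 hF i j hi ?_ hj ?_
    · rwa [pow_succ, mul_comm] at hi'
    · rwa [pow_succ, mul_comm] at hj'

end FinData

/-- The development of the square of groups of a finite group problem contains flat patches of
every size. -/
theorem hasPatches {Q : Type} [Group Q] (D : FinData Q) : D.toSquare.HasPatches := by
  intro N
  obtain ⟨F, hF⟩ := D.exists_patch N
  have hN : (N : ℤ) < 2 ^ (N + 1) := by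
    have h1 : N < 2 ^ (N + 1) := (Nat.lt_succ_self N).trans (Nat.lt_two_pow_self)
    exact_mod_cast h1
  exact ⟨F, fun i j hi hi' hj hj' => hF i j hi (hi'.trans hN) hj (hj'.trans hN)⟩

end Pool.Agent.MP_140312_al_Neg
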