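import Pool.Agent.Lib.MP_140312_al_Neg.Main
import Pool.Agent.Lib.MP_140312_al_Neg.Desub
import Pool.Agent.Lib.MP_140312_al_Neg.Patch
import Pool.Agent.Lib.MP_140312_al_Neg.FinI

/-!
# A group acting geometrically on a CAT(0) square complex, not hyperbolic, without `ℤ ^ 2`
-/

namespace Pool.Agent.MP_140312_al_Neg

open Pool.Agent.Lib.MP_140312_al Pool.Agent.Lib.MP_140312_al_SG

/-- There is a square of finite groups with flats, none of which is periodic. -/
theorem exists_square : ∃ S : Square, (∀ i j, Finite (S.P i j)) ∧ S.HasPatches ∧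
    ¬ S.HasPeriodicFlat := by
  obtain ⟨Q, _, hQ, ⟨D⟩⟩ := exists_finData
  exact ⟨D.toSquare, fun _ _ => hQ, hasPatches D, D.no_periodicFlat⟩

/-- There is a group acting geometrically on a CAT(0) square complex that is not hyperbolic and
contains no `ℤ ^ 2`. -/
theorem counterexample :
    ∃ (G : Type) (_ : Group G) (V : Type) (_ : MulAction G V) (X : SimpleGraph V),
      IsMedianGraph X ∧ IsCAT0SquareComplex X ∧ GeometricAction G X ∧ Group.FG G ∧
      (¬ ∃ φ : Multiplicative (ℤ × ℤ) →* G, Function.Injective φ) ∧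
      ¬ IsHyperbolic X ∧
      ∀ T : Set G, T.Finite → Subgroup.closure T = ⊤ →
        ¬ IsHyperbolic (SimpleGraph.mulCayley T) := by
  obtain ⟨S, hfin, hpatch, hper⟩ := exists_square
  exact counterexample_of_square S hfin hpatch hper

end Pool.Agent.MP_140312_al_Neg
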