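import Mathlib

/-!
# The finite group of the counterexample: the permutation model

`S = Fin 7 × (Fin 7 → ZMod 3)`; the additive group `E = Fin 7 → ZMod 3` acts on `S` by `sh`.
`Q = Perm (S × ZMod 3) × Perm (S × ZMod 3) × Perm (Fin 4)`.
-/

set_option autoImplicit false

namespace Pool.Agent.MP_140312_al_Neg.FinW

/-- The class group. The coordinates are `E₁, u, E₂, v, b, g, h`. -/
abbrev E : Type := Fin 7 → ZMod 3

/-- The points: component and offset. -/
abbrev S : Type := Fin 7 × E

/-- Coefficient vectors. -/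
abbrev R : Type := Fin 24 → ZMod 3

/-- Does the coordinate `k` of `E` act on the component `c`? -/
def keep (c k : Fin 7) : Bool :=
  if c = 1 then false
  else if c = 2 then decide (k ≠ 1)
  else if c = 3 then decide (k ≠ 0 ∧ k ≠ 2)
  else true

/-- The action of `E` on `S`. -/
def sh (l : E) (s : S) : S := (s.1, fun k => s.2 k + if keep s.1 k then l k else 0)

theorem sh_zero (s : S) : sh 0 s = s := by
  refine Prod.ext rfl ?_
  funext k
  simp [sh]

theorem sh_add (l m : E) (s : S) : sh (l + m) s = sh l (sh m s) := by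
  refine Prod.ext rfl ?_
  funext k
  cases h : keep s.1 k
  · simp [sh, h]
  · simp only [sh, Pi.add_apply, h, if_true]
    rw [add_assoc, add_comm (m k)]

theorem sh_neg_sh (l : E) (s : S) : sh (-l) (sh l s) = s := by
  rw [← sh_add, neg_add_cancel, sh_zero]

theorem sh_sh_neg (l : E) (s : S) : sh l (sh (-l) s) = s := by
  rw [← sh_add, add_neg_cancel, sh_zero]

theorem sh_injective (l : E) : Function.Injective (sh l) := by
  intro s t h
  rw [← sh_neg_sh l s, h, sh_neg_sh]

/-- The basis vector. -/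
def bv (k : Fin 7) : E := Pi.single k 1

/-- The class of an index. -/
def cls (i : Fin 24) : Fin 7 :=
  ![0, 0, 1, 0, 3, 3, 2, 3, 0, 0, 0, 4, 4, 4, 5, 5, 5, 6, 6, 6, 4, 4, 2, 4] i

/-- The `u`-coordinate of the offset. -/
def offU (i : Fin 24) : ZMod 3 :=
  ![1, 2, 0, 0, 2, 0, 0, 1, 0, 1, 2, 0, 1, 2, 0, 1, 2, 0, 1, 2, 2, 0, 0, 1] i

/-- The `v`-coordinate of the offset. -/
def offV (i : Fin 24) : ZMod 3 :=
  ![1, 1, 0, 1, 0, 0, 1, 0, 0, 0, 0, 0, 0, 0, 0, 0, 0, 0, 0, 0, 0, 0, 0, 0] i

/-- The `b`-coordinate of the offset. -/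
def offB (i : Fin 24) : ZMod 3 :=
  ![0, 0, 0, 0, 0, 0, 0, 0, 0, 0, 0, 1, 1, 1, 0, 0, 0, 0, 0, 0, 0, 0, 0, 0] i

/-- The offset. -/
def off (i : Fin 24) : E := ![0, offU i, 0, offV i, offB i, 0, 0]

/-- The point of an index. -/
def pt (i : Fin 24) : S := (cls i, off i)

/-- The permutation `γ` of the indices. -/
def gamF : Fin 24 → Fin 24 :=
  ![1, 3, 2, 0, 5, 7, 6, 4, 9, 10, 8, 12, 13, 11, 15, 16, 14, 18, 19, 17, 21, 23, 22, 20]

/-- Its inverse. -/
def gamG : Fin 24 → Fin 24 :=
  ![3, 0, 2, 1, 7, 4, 6, 5, 10, 8, 9, 13, 11, 12, 16, 14, 15, 19, 17, 18, 23, 20, 22, 21]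

/-- The permutation `ψ` of the indices. -/
def psiF : Fin 24 → Fin 24 :=
  ![0, 2, 3, 1, 4, 6, 7, 5, 15, 18, 12, 8, 17, 16, 9, 11, 19, 10, 14, 13, 20, 22, 23, 21]

/-- Its inverse. -/
def psiG : Fin 24 → Fin 24 :=
  ![0, 3, 1, 2, 4, 7, 5, 6, 11, 14, 17, 15, 10, 19, 18, 8, 13, 12, 9, 16, 20, 23, 21, 22]

/-- `γ`. -/
def gam : Equiv.Perm (Fin 24) := ⟨gamF, gamG, by decide, by decide⟩

/-- `ψ`. -/
def psi : Equiv.Perm (Fin 24) := ⟨psiF, psiG, by decide, by decide⟩

theorem gam_psi : ∀ i, gam (psi (psi (gam i))) = psi i := by decide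

theorem pt_injective : Function.Injective pt := by
  have h : ∀ i j : Fin 24, cls i = cls j → offU i = offU j → offV i = offV j →
      offB i = offB j → i = j := by decide
  intro i j hij
  have h1 : cls i = cls j := congrArg Prod.fst hij
  have h2 : off i = off j := congrArg Prod.snd hij
  exact h i j h1 (congrFun h2 1) (congrFun h2 3) (congrFun h2 4)

/-! ### The permutations `vec a` and `act l` -/

/-- The underlying set of the wreath product action. -/
abbrev X : Type := S × ZMod 3

/-- The function on `S` given by a coefficient vector. -/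
def fv (a : R) (s : S) : ZMod 3 := ∑ i, if pt i = s then a i else 0

theorem fv_zero (s : S) : fv 0 s = 0 := by simp [fv]

theorem fv_add (a b : R) (s : S) : fv (a + b) s = fv a s + fv b s := by
  simp only [fv, Pi.add_apply]
  rw [← Finset.sum_add_distrib]
  refine Finset.sum_congr rfl fun i _ => ?_
  split_ifs <;> simp

theorem fv_pt (a : R) (i : Fin 24) : fv a (pt i) = a i := by
  rw [fv, Finset.sum_eq_single i]
  · simp
  · intro j _ hj
    rw [if_neg fun h => hj (pt_injective h)]
  · intro h
    exact absurd (Finset.mem_univ _) h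

theorem exists_of_fv_ne {a : R} {s : S} (h : fv a s ≠ 0) : ∃ i, pt i = s ∧ a i = fv a s := by
  by_contra hne
  push Not at hne
  by_cases h1 : ∃ i, pt i = s
  · obtain ⟨i, rfl⟩ := h1
    exact hne i rfl (fv_pt a i).symm
  · refine h (Finset.sum_eq_zero fun i _ => ?_)
    rw [if_neg fun h2 => h1 ⟨i, h2⟩]

theorem fv_single (i : Fin 24) (c : ZMod 3) (s : S) :
    fv (Pi.single i c) s = if pt i = s then c else 0 := by
  rw [fv, Finset.sum_eq_single i]
  · simp
  · intro j _ hj
    rw [Pi.single_eq_of_ne hj, ite_self]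
  · intro h
    exact absurd (Finset.mem_univ _) h

/-- The vector `a`, as a permutation. -/
def vec (a : R) : Equiv.Perm X where
  toFun p := (p.1, p.2 + fv a p.1)
  invFun p := (p.1, p.2 - fv a p.1)
  left_inv p := by simp
  right_inv p := by simp

/-- The translation by `l`, as a permutation. -/
def act (l : E) : Equiv.Perm X where
  toFun p := (sh l p.1, p.2)
  invFun p := (sh (-l) p.1, p.2)
  left_inv p := by simp [sh_neg_sh]
  right_inv p := by simp [sh_sh_neg]

theorem vec_apply (a : R) (s : S) (t : ZMod 3) : vec a (s, t) = (s, t + fv a s) := rfl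

theorem act_apply (l : E) (s : S) (t : ZMod 3) : act l (s, t) = (sh l s, t) := rfl

theorem vec_add (a b : R) : vec (a + b) = vec a * vec b := by
  refine Equiv.ext fun p => ?_
  obtain ⟨s, t⟩ := p
  rw [Equiv.Perm.mul_apply, vec_apply, vec_apply, vec_apply, fv_add]
  refine Prod.ext rfl ?_
  show t + (fv a s + fv b s) = t + fv b s + fv a s
  ring

theorem act_add (l m : E) : act (l + m) = act l * act m := by
  refine Equiv.ext fun p => ?_
  obtain ⟨s, t⟩ := p
  rw [Equiv.Perm.mul_apply, act_apply, act_apply, act_apply, sh_add]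

theorem vec_zero : vec 0 = 1 := by
  refine Equiv.ext fun p => ?_
  obtain ⟨s, t⟩ := p
  rw [vec_apply, fv_zero, add_zero]
  rfl

theorem act_zero : act 0 = 1 := by
  refine Equiv.ext fun p => ?_
  obtain ⟨s, t⟩ := p
  rw [act_apply, sh_zero]
  rfl

theorem vec_injective : Function.Injective vec := by
  intro a b h
  funext i
  have h1 := congrArg (fun e : Equiv.Perm X => (e (pt i, 0)).2) h
  simpa [vec_apply, fv_pt] using h1

/-- Equal shifts. -/
theorem sh_eq_iff {l m : E} (h : sh l (0, 0) = sh m (0, 0)) : l = m := by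
  funext k
  have h1 := congrFun (congrArg Prod.snd h) k
  simpa [sh, keep] using h1

theorem act_injective : Function.Injective act := by
  intro l m h
  have h1 := congrArg (fun e : Equiv.Perm X => (e ((0, 0), 0)).1) h
  exact sh_eq_iff h1

/-- The basic conjugation formula. -/
theorem conj_iff (l : E) (a a' : R) :
    act l * vec a = vec a' * act l ↔ ∀ s, fv a' (sh l s) = fv a s := by
  constructor
  · intro h s
    have h1 := congrArg (fun e : Equiv.Perm X => (e (s, 0)).2) h
    simpa [Equiv.Perm.mul_apply, vec_apply, act_apply] using h1.symm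
  · intro h
    refine Equiv.ext fun p => ?_
    obtain ⟨s, t⟩ := p
    rw [Equiv.Perm.mul_apply, Equiv.Perm.mul_apply, vec_apply, act_apply, act_apply, vec_apply, h]

/-- Comparison of the two factors of an element `act l * vec a`. -/
theorem factor {l l' : E} {a a' : R} (h : act l * vec a = vec a' * act l') :
    l = l' ∧ act l * vec a = vec a' * act l := by
  have h1 := congrArg (fun e : Equiv.Perm X => (e ((0, 0), 0)).1) h
  have h2 : l = l' := sh_eq_iff h1
  subst h2
  exact ⟨rfl, h⟩

/-- Permutation of the coordinates. -/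
def pm (σ : Equiv.Perm (Fin 24)) (a : R) : R := fun i => a (σ.symm i)

theorem pm_single (σ : Equiv.Perm (Fin 24)) (i : Fin 24) (c : ZMod 3) :
    pm σ (Pi.single i c) = Pi.single (σ i) c := by
  funext j
  by_cases h : σ.symm j = i
  · have : j = σ i := by rw [← h, Equiv.apply_symm_apply]
    subst this
    simp [pm]
  · have : j ≠ σ i := fun h2 => h (by rw [h2, Equiv.symm_apply_apply])
    rw [pm, Pi.single_eq_of_ne h, Pi.single_eq_of_ne this]

theorem conj_perm {l : E} {σ : Equiv.Perm (Fin 24)} (h : ∀ i, sh l (pt i) = pt (σ i)) (a : R) :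
    act l * vec a = vec (pm σ a) * act l := by
  rw [conj_iff]
  intro s
  rw [fv, fv, ← Equiv.sum_comp σ]
  refine Finset.sum_congr rfl fun i _ => ?_
  rw [← h i, pm, Equiv.symm_apply_apply]
  simp only [(sh_injective l).eq_iff]

theorem conj_single {l : E} {i j : Fin 24} (h : sh l (pt i) = pt j) (c : ZMod 3) :
    act l * vec (Pi.single i c) = vec (Pi.single j c) * act l := by
  rw [conj_iff]
  intro s
  rw [fv_single, fv_single, ← h]
  simp only [(sh_injective l).eq_iff]

theorem conj_mem {l : E} {a a' : R} (h : act l * vec a = vec a' * act l) {i : Fin 24}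
    (hi : a i ≠ 0) : ∃ j, sh l (pt i) = pt j ∧ a' j = a i := by
  rw [conj_iff] at h
  have h1 := h (pt i)
  rw [fv_pt] at h1
  obtain ⟨j, hj1, hj2⟩ := exists_of_fv_ne (a := a') (s := sh l (pt i)) (by rw [h1]; exact hi)
  exact ⟨j, hj1.symm, by rw [hj2, h1]⟩

/-- Conjugation in the other direction. -/
theorem conj_neg {l : E} {a a' : R} (h : act l * vec a = vec a' * act l) :
    act (-l) * vec a' = vec a * act (-l) := by
  rw [conj_iff] at h ⊢
  intro s
  rw [← h, sh_sh_neg]

/-! ### The class map -/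

/-- The class map. -/
def cl (a : R) : E := fun c => ∑ i, if cls i = c then a i else 0

theorem cl_add (a b : R) : cl (a + b) = cl a + cl b := by
  funext c
  simp only [cl, Pi.add_apply]
  rw [← Finset.sum_add_distrib]
  refine Finset.sum_congr rfl fun i _ => ?_
  split_ifs <;> simp

theorem cl_zero : cl 0 = 0 := by
  funext c
  simp [cl]

theorem cl_single (i : Fin 24) (c : ZMod 3) : cl (Pi.single i c) = Pi.single (cls i) c := by
  funext k
  rw [cl, Finset.sum_eq_single i]
  · by_cases h : cls i = k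
    · subst h; simp
    · rw [if_neg h, Pi.single_eq_of_ne (Ne.symm h)]
  · intro j _ hj
    rw [Pi.single_eq_of_ne hj, ite_self]
  · intro h
    exact absurd (Finset.mem_univ _) h

theorem cl_pm {σ : Equiv.Perm (Fin 24)} (h : ∀ i, cls (σ i) = cls i) (a : R) :
    cl (pm σ a) = cl a := by
  funext c
  rw [cl, cl, ← Equiv.sum_comp σ]
  refine Finset.sum_congr rfl fun i _ => ?_
  rw [pm, Equiv.symm_apply_apply, h]

/-! ### The third component -/

/-- The linear form `n`. -/
def nn (a : R) : ZMod 3 := a 20 + a 21 + a 23 - a 11 - a 12 - a 13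

theorem nn_add (a b : R) : nn (a + b) = nn a + nn b := by
  simp only [nn, Pi.add_apply]
  ring

theorem nn_zero : nn 0 = 0 := by simp [nn]

theorem nn_pm_gam (a : R) : nn (pm gam a) = nn a := by
  show a (gamG 20) + a (gamG 21) + a (gamG 23) - a (gamG 11) - a (gamG 12) - a (gamG 13) = _
  show a 23 + a 20 + a 21 - a 13 - a 11 - a 12 = _
  simp only [nn]
  ring

/-- `x = (0 1 2)`. -/
def px (c : ZMod 3) : Equiv.Perm (Fin 4) := (Equiv.swap 0 1 * Equiv.swap 1 2) ^ c.val

/-- `b = (1 2 3)`. -/
def pb (c : ZMod 3) : Equiv.Perm (Fin 4) := (Equiv.swap 1 2 * Equiv.swap 2 3) ^ c.val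

theorem px_zero : px 0 = 1 := by decide

theorem pb_zero : pb 0 = 1 := by decide

theorem px_add : ∀ c d : ZMod 3, px (c + d) = px c * px d := by decide

theorem pb_add : ∀ c d : ZMod 3, pb (c + d) = pb c * pb d := by decide

theorem pb_px_rel : pb 1 * px 1 = px (-1) * pb (-1) := by decide

theorem pb_px_ne : ∀ c d : ZMod 3, c ≠ 0 → d ≠ 0 → pb c * px d ≠ px d * pb c := by decide

end Pool.Agent.MP_140312_al_Neg.FinW
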