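import Pool.Agent.Lib.MP_140312_al_Neg.FinW

/-!
# Exactness in the permutation model
-/

set_option autoImplicit false

namespace Pool.Agent.MP_140312_al_Neg.FinW

/-- The basis vectors of `R`. -/
def e (i : Fin 24) : R := Pi.single i 1

theorem e_self (i : Fin 24) : e i i = 1 := Pi.single_eq_same i 1

theorem e_ne {i j : Fin 24} (h : j ≠ i) : e i j = 0 := Pi.single_eq_of_ne h 1

theorem cl_e (i : Fin 24) : cl (e i) = bv (cls i) := cl_single i 1

theorem pm_e (σ : Equiv.Perm (Fin 24)) (i : Fin 24) : pm σ (e i) = e (σ i) := pm_single σ i 1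

theorem sh_gam (i : Fin 24) : sh (bv 1) (pt i) = pt (gam i) := by
  revert i; decide

theorem sh_two (l : E) : sh l (pt 2) = pt 2 := by
  refine Prod.ext rfl ?_
  funext k
  have : keep (pt 2).1 k = false := by
    revert k; decide
  simp [sh, this]

/-- The coordinates of `sh l (pt i) = pt j`. -/
theorem sh_pt_coord {l : E} {i j : Fin 24} (h : sh l (pt i) = pt j) :
    cls i = cls j ∧ ∀ k, off i k + (if keep (cls i) k then l k else 0) = off j k := by
  refine ⟨congrArg Prod.fst h, fun k => congrFun (congrArg Prod.snd h) k⟩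

theorem off_one (i : Fin 24) : off i 1 = offU i := rfl
theorem off_three (i : Fin 24) : off i 3 = offV i := rfl
theorem off_four (i : Fin 24) : off i 4 = offB i := rfl

/-- Where `v` can move the points. -/
theorem sh_V {i j : Fin 24} (h : sh (bv 3) (pt i) = pt j) :
    i = 8 ∨ i = 9 ∨ i = 10 ∨ i = 22 ∨ i = 2 := by
  obtain ⟨h0, hk⟩ := sh_pt_coord h
  have h1 := hk 1
  have h3 := hk 3
  have h4 := hk 4
  rw [off_one, off_one] at h1
  rw [off_three, off_three] at h3
  rw [off_four, off_four] at h4
  have key : ∀ i j : Fin 24, cls i = cls j →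
      (offU i + (if keep (cls i) 1 then bv 3 1 else 0) = offU j) →
      (offV i + (if keep (cls i) 3 then bv 3 3 else 0) = offV j) →
      (offB i + (if keep (cls i) 4 then bv 3 4 else 0) = offB j) →
      i = 8 ∨ i = 9 ∨ i = 10 ∨ i = 22 ∨ i = 2 := by
    decide
  exact key i j h0 h1 h3 h4

theorem cl_apply_one (a : R) : cl a 1 = a 2 := by
  have h : ∀ i : Fin 24, cls i = 1 ↔ i = 2 := by decide
  simp only [cl, h]
  rw [Finset.sum_ite_eq']
  simp

/-- Exactness of `A₁`. -/
theorem supp_of_conj {c c' : R} (h1 : act (bv 3) * vec c = vec c' * act (bv 3))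
    (h2 : act (cl c') * vec (e 5) = vec (e 5) * act (cl c)) {i : Fin 24}
    (hi : c i ≠ 0) : i = 8 ∨ i = 9 ∨ i = 10 ∨ i = 22 := by
  obtain ⟨j, hj, -⟩ := conj_mem h1 hi
  rcases sh_V hj with h | h | h | h | h
  · exact Or.inl h
  · exact Or.inr (Or.inl h)
  · exact Or.inr (Or.inr (Or.inl h))
  · exact Or.inr (Or.inr (Or.inr h))
  · exfalso
    subst h
    obtain ⟨hcl, h3⟩ := factor h2
    obtain ⟨k, hk1, hk2⟩ := conj_mem h3 (i := 5) (by rw [e_self]; decide)
    have hk : k = 5 := by
      by_contra hne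
      rw [e_ne hne, e_self] at hk2
      exact absurd hk2 (by decide)
    subst hk
    have h4 := (sh_pt_coord hk1).2 1
    have h5 : keep (cls 5) 1 = true := by decide
    rw [h5, if_pos rfl, cl_apply_one] at h4
    have h6 : c' 2 = 0 := by
      have := congrArg (fun t => t - off 5 1) h4
      simpa using this
    have h7 : c 2 = c' 2 := by
      rw [← cl_apply_one c, ← cl_apply_one c', hcl]
    exact hi (h7.trans h6)

/-- The support of `K*` and `L*`. -/
def Supp (κ : R) : Prop := ∀ i, i ≠ 11 → i ≠ 14 → i ≠ 17 → i ≠ 21 → κ i = 0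

theorem Supp.eq {κ : R} (h : Supp κ) :
    κ = Pi.single 11 (κ 11) + Pi.single 14 (κ 14) + Pi.single 17 (κ 17) + Pi.single 21 (κ 21) := by
  funext i
  simp only [Pi.add_apply]
  by_cases h1 : i = 11
  · subst h1
    rw [Pi.single_eq_same, Pi.single_eq_of_ne (by decide), Pi.single_eq_of_ne (by decide),
      Pi.single_eq_of_ne (by decide)]
    ring
  by_cases h2 : i = 14
  · subst h2
    rw [Pi.single_eq_same, Pi.single_eq_of_ne (by decide), Pi.single_eq_of_ne (by decide),
      Pi.single_eq_of_ne (by decide)]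
    ring
  by_cases h3 : i = 17
  · subst h3
    rw [Pi.single_eq_same, Pi.single_eq_of_ne (by decide), Pi.single_eq_of_ne (by decide),
      Pi.single_eq_of_ne (by decide)]
    ring
  by_cases h4 : i = 21
  · subst h4
    rw [Pi.single_eq_same, Pi.single_eq_of_ne (by decide), Pi.single_eq_of_ne (by decide),
      Pi.single_eq_of_ne (by decide)]
    ring
  rw [h i h1 h2 h3 h4, Pi.single_eq_of_ne h1, Pi.single_eq_of_ne h2, Pi.single_eq_of_ne h3,
    Pi.single_eq_of_ne h4]
  ring

theorem Supp.cl_eq {κ : R} (h : Supp κ) :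
    cl κ = Pi.single 4 (κ 11) + Pi.single 5 (κ 14) + Pi.single 6 (κ 17) + Pi.single 4 (κ 21) := by
  conv_lhs => rw [h.eq]
  rw [cl_add, cl_add, cl_add, cl_single, cl_single, cl_single, cl_single]
  rfl

theorem Supp.cl_four {κ : R} (h : Supp κ) : cl κ 4 = κ 11 + κ 21 := by
  rw [h.cl_eq]
  simp only [Pi.add_apply]
  rw [Pi.single_eq_same, Pi.single_eq_of_ne (by decide), Pi.single_eq_of_ne (by decide),
    Pi.single_eq_same]
  ring

theorem Supp.cl_five {κ : R} (h : Supp κ) : cl κ 5 = κ 14 := by
  rw [h.cl_eq]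
  simp only [Pi.add_apply]
  rw [Pi.single_eq_same, Pi.single_eq_of_ne (by decide), Pi.single_eq_of_ne (by decide),
    Pi.single_eq_of_ne (by decide)]
  ring

theorem Supp.cl_six {κ : R} (h : Supp κ) : cl κ 6 = κ 17 := by
  rw [h.cl_eq]
  simp only [Pi.add_apply]
  rw [Pi.single_eq_same, Pi.single_eq_of_ne (by decide), Pi.single_eq_of_ne (by decide),
    Pi.single_eq_of_ne (by decide)]
  ring

theorem Supp.nn_eq {κ : R} (h : Supp κ) : nn κ = κ 21 - κ 11 := by
  rw [nn, h 20 (by decide) (by decide) (by decide) (by decide),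
    h 23 (by decide) (by decide) (by decide) (by decide),
    h 12 (by decide) (by decide) (by decide) (by decide),
    h 13 (by decide) (by decide) (by decide) (by decide)]
  ring

theorem Supp.eq_zero {κ : R} (h : Supp κ) (h1 : κ 11 = 0) (h2 : κ 14 = 0) (h3 : κ 17 = 0)
    (h4 : κ 21 = 0) : κ = 0 := by
  rw [h.eq, h1, h2, h3, h4]
  simp

/-- On the components `4, 5, 6` all of `E` acts freely. -/
theorem sh_free {l : E} {i j : Fin 24} (hi : 3 < cls i) (h : sh l (pt i) = pt j) :
    l = off j - off i := by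
  obtain ⟨-, h1⟩ := sh_pt_coord h
  have hk : ∀ c k : Fin 7, 3 < c → keep c k = true := by decide
  funext k
  have h2 := h1 k
  rw [hk _ k hi, if_pos rfl] at h2
  rw [Pi.sub_apply, ← h2]
  ring

/-- The main lemma on conjugations of elements of `K*` into `K*`. -/
theorem conj_supp {l : E} {κ κ₁ : R} (h : act l * vec κ = vec κ₁ * act l) (hκ₁ : Supp κ₁)
    (hl : l ≠ 0) : κ 14 = 0 ∧ κ 17 = 0 ∧ (κ 21 ≠ 0 → l = bv 4) ∧ (κ 11 ≠ 0 → l = -bv 4) := by
  have key : ∀ i : Fin 24, κ i ≠ 0 → ∃ j, (j = 11 ∨ j = 14 ∨ j = 17 ∨ j = 21) ∧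
      sh l (pt i) = pt j := by
    intro i hi
    obtain ⟨j, hj1, hj2⟩ := conj_mem h hi
    refine ⟨j, ?_, hj1⟩
    by_contra hne
    push Not at hne
    exact hi (hj2.symm.trans (hκ₁ j hne.1 hne.2.1 hne.2.2.1 hne.2.2.2))
  refine ⟨?_, ?_, ?_, ?_⟩
  · by_contra hne
    obtain ⟨j, hj, hj2⟩ := key 14 hne
    have hc := (sh_pt_coord hj2).1
    have hl' := sh_free (by decide) hj2
    rcases hj with rfl | rfl | rfl | rfl
    · exact absurd hc (by decide)
    · exact hl (by rw [hl', sub_self])
    · exact absurd hc (by decide)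
    · exact absurd hc (by decide)
  · by_contra hne
    obtain ⟨j, hj, hj2⟩ := key 17 hne
    have hc := (sh_pt_coord hj2).1
    have hl' := sh_free (by decide) hj2
    rcases hj with rfl | rfl | rfl | rfl
    · exact absurd hc (by decide)
    · exact absurd hc (by decide)
    · exact hl (by rw [hl', sub_self])
    · exact absurd hc (by decide)
  · intro hne
    obtain ⟨j, hj, hj2⟩ := key 21 hne
    have hc := (sh_pt_coord hj2).1
    have hl' := sh_free (by decide) hj2
    rcases hj with rfl | rfl | rfl | rfl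
    · rw [hl']; decide
    · exact absurd hc (by decide)
    · exact absurd hc (by decide)
    · exact absurd (by rw [hl', sub_self]) hl
  · intro hne
    obtain ⟨j, hj, hj2⟩ := key 11 hne
    have hc := (sh_pt_coord hj2).1
    have hl' := sh_free (by decide) hj2
    rcases hj with rfl | rfl | rfl | rfl
    · exact absurd (by rw [hl', sub_self]) hl
    · exact absurd hc (by decide)
    · exact absurd hc (by decide)
    · rw [hl']; decide

theorem bv_ne : bv 4 ≠ -bv 4 := by decide

theorem zmod3 : ∀ p q : ZMod 3, p + q = 0 → p = 0 → q = 0 := by decide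

theorem single_neg (i : Fin 24) : -e i = Pi.single i (-1) := (Pi.single_neg i 1).symm

/-- Exactness: the only relations `l k = k₁ l₁`. -/
theorem exact_core {β β₁ κ κ₁ : R} (hβ : Supp β) (hβ₁ : Supp β₁) (hκ : Supp κ) (hκ₁ : Supp κ₁)
    (h1 : act (cl β) * vec κ = vec κ₁ * act (cl β₁))
    (h2 : act (cl κ₁) * vec β₁ = vec β * act (cl κ))
    (h3 : pb (-nn β) * px (nn κ) = px (nn κ₁) * pb (-nn β₁)) (hβ0 : β ≠ 0) (hκ0 : κ ≠ 0) :
    (β = e 11 ∧ κ = e 21) ∨ (β = e 21 ∧ κ = -e 21) ∨ (β = -e 11 ∧ κ = e 11) ∨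
      (β = -e 21 ∧ κ = -e 11) := by
  obtain ⟨hcl, h1'⟩ := factor h1
  obtain ⟨hcl', h2'⟩ := factor h2
  rw [hcl'] at h2'
  have h2n := conj_neg h2'
  have hA : ∀ {α : R}, Supp α → α ≠ 0 → cl α = 0 → α 11 + α 21 = 0 ∧ α 11 ≠ 0 ∧ α 21 ≠ 0 ∧
      nn α ≠ 0 := by
    intro α hα hα0 hc
    have e4 := hα.cl_four
    have e5 := hα.cl_five
    have e6 := hα.cl_six
    rw [hc] at e4 e5 e6
    have e4' : α 11 + α 21 = 0 := e4.symm
    have n11 : α 11 ≠ 0 := fun h => hα0 (hα.eq_zero h e5.symm e6.symm (zmod3 _ _ e4' h))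
    have n21 : α 21 ≠ 0 := fun h =>
      hα0 (hα.eq_zero (zmod3 _ _ (by rw [add_comm]; exact e4') h) e5.symm e6.symm h)
    refine ⟨e4', n11, n21, ?_⟩
    rw [hα.nn_eq]
    have : ∀ p q : ZMod 3, p + q = 0 → p ≠ 0 → q - p ≠ 0 := by decide
    exact this _ _ e4' n11
  by_cases hl : cl β = 0
  · exfalso
    obtain ⟨b1, b2, b3, b4⟩ := hA hβ hβ0 hl
    by_cases hm : cl κ = 0
    · obtain ⟨k1, k2, k3, k4⟩ := hA hκ hκ0 hm
      have hκκ : κ = κ₁ := by
        rw [hl, act_zero, one_mul, mul_one] at h1'
        exact vec_injective h1'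
      have hββ : β₁ = β := by
        rw [hm, act_zero, one_mul, mul_one] at h2'
        exact vec_injective h2'
      rw [← hκκ, hββ] at h3
      exact pb_px_ne _ _ (neg_ne_zero.2 b4) k4 h3
    · obtain ⟨-, -, c3, c4⟩ := conj_supp h2n hβ₁ (neg_ne_zero.2 hm)
      exact bv_ne ((c3 b3).symm.trans (c4 b2))
  · obtain ⟨k14, k17, k21, k11⟩ := conj_supp h1' hκ₁ hl
    by_cases hm : cl κ = 0
    · exfalso
      obtain ⟨k1, k2, k3, k4⟩ := hA hκ hκ0 hm
      exact bv_ne ((k21 k3).symm.trans (k11 k2))
    · obtain ⟨b14, b17, b21, b11⟩ := conj_supp h2n hβ₁ (neg_ne_zero.2 hm)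
      have hl4 := hβ.cl_four
      have hm4 := hκ.cl_four
      have hβe := hβ.eq
      have hκe := hκ.eq
      rw [b14, b17, Pi.single_zero, Pi.single_zero, add_zero, add_zero] at hβe
      rw [k14, k17, Pi.single_zero, Pi.single_zero, add_zero, add_zero] at hκe
      have val4 : bv 4 4 = 1 := rfl
      by_cases q21 : κ 21 = 0
      · have q11 : κ 11 ≠ 0 := fun h => hκ0 (by rw [hκe, h, q21]; simp)
        have hl' := k11 q11
        by_cases r21 : β 21 = 0
        · have r11 : β 11 ≠ 0 := fun h => hβ0 (by rw [hβe, h, r21]; simp)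
          have hm' := neg_injective (b11 r11)
          rw [hm', q21, val4, add_zero] at hm4
          rw [hl', r21, Pi.neg_apply, val4, add_zero] at hl4
          right; right; left
          refine ⟨?_, ?_⟩
          · rw [hβe, r21, ← hl4, Pi.single_zero, add_zero, single_neg]
          · rw [hκe, q21, ← hm4, Pi.single_zero, add_zero]
            rfl
        · have hm' : cl κ = -bv 4 := by rw [← b21 r21, neg_neg]
          have r11 : β 11 = 0 := by
            by_contra h
            have := neg_injective (b11 h)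
            rw [hm'] at this
            exact bv_ne this.symm
          rw [hm', q21, Pi.neg_apply, val4, add_zero] at hm4
          rw [hl', r11, Pi.neg_apply, val4, zero_add] at hl4
          right; right; right
          refine ⟨?_, ?_⟩
          · rw [hβe, r11, ← hl4, Pi.single_zero, zero_add, single_neg]
          · rw [hκe, q21, ← hm4, Pi.single_zero, add_zero, single_neg]
      · have hl' := k21 q21
        have q11 : κ 11 = 0 := by
          by_contra h
          exact bv_ne (hl'.symm.trans (k11 h))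
        by_cases r21 : β 21 = 0
        · have r11 : β 11 ≠ 0 := fun h => hβ0 (by rw [hβe, h, r21]; simp)
          have hm' := neg_injective (b11 r11)
          rw [hm', q11, val4, zero_add] at hm4
          rw [hl', r21, val4, add_zero] at hl4
          left
          refine ⟨?_, ?_⟩
          · rw [hβe, r21, ← hl4, Pi.single_zero, add_zero]
            rfl
          · rw [hκe, q11, ← hm4, Pi.single_zero, zero_add]
            rfl
        · have hm' : cl κ = -bv 4 := by rw [← b21 r21, neg_neg]
          have r11 : β 11 = 0 := by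
            by_contra h
            have := neg_injective (b11 h)
            rw [hm'] at this
            exact bv_ne this.symm
          rw [hm', q11, Pi.neg_apply, val4, zero_add] at hm4
          rw [hl', r11, val4, zero_add] at hl4
          right; left
          refine ⟨?_, ?_⟩
          · rw [hβe, r11, ← hl4, Pi.single_zero, zero_add]
            rfl
          · rw [hκe, q11, ← hm4, Pi.single_zero, zero_add, single_neg]

end Pool.Agent.MP_140312_al_Neg.FinW
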