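import Mathlib

/-!
# Automorphisms of trees

Geodesics in trees, axes of automorphisms without fixed vertices, uniqueness of the axis,
commuting automorphisms, invariant convex sets.
-/

set_option autoImplicit false

namespace Pool.Agent.MP_140312_al_Neg.TA

variable {V : Type*} {X : SimpleGraph V}

/-! ### Distances -/

lemma dist_adj (hX : X.IsTree) (v : V) {x y : V} (hxy : X.Adj x y) :
    X.dist v y = X.dist v x + 1 ∨ X.dist v x = X.dist v y + 1 := by
  obtain ⟨p, hp, hpl⟩ := hX.connected.exists_path_of_dist v x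
  obtain ⟨q, hq, hql⟩ := hX.connected.exists_path_of_dist v y
  by_cases h : x ∈ q.support
  · left
    have := hX.isAcyclic.path_concat hp hq hxy h
    rw [← hql, this, SimpleGraph.Walk.length_concat, hpl]
  · right
    have h2 := hX.isAcyclic.mem_support_of_ne_mem_support_of_adj_of_isPath hp hq hxy h
    have := hX.isAcyclic.path_concat hq hp hxy.symm h2
    rw [← hpl, this, SimpleGraph.Walk.length_concat, hql]

lemma unique_down (hX : X.IsTree) {v x y z : V} (hxy : X.Adj x y) (hxz : X.Adj x z)
    (hy : X.dist v x = X.dist v y + 1) (hz : X.dist v x = X.dist v z + 1) : y = z := by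
  obtain ⟨p, hp, hpl⟩ := hX.connected.exists_path_of_dist v y
  obtain ⟨q, hq, hql⟩ := hX.connected.exists_path_of_dist v z
  have h1 : (p.concat hxy.symm).IsPath := SimpleGraph.Walk.isPath_of_length_eq_dist _ (by
    rw [SimpleGraph.Walk.length_concat, hpl, hy])
  have h2 : (q.concat hxz.symm).IsPath := SimpleGraph.Walk.isPath_of_length_eq_dist _ (by
    rw [SimpleGraph.Walk.length_concat, hql, hz])
  have h3 := (hX.existsUnique_path v x).unique h1 h2
  have h4 := congrArg SimpleGraph.Walk.penultimate h3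
  rwa [SimpleGraph.Walk.penultimate_concat, SimpleGraph.Walk.penultimate_concat] at h4

lemma exists_down (hX : X.IsTree) {v x : V} (hne : v ≠ x) :
    ∃ y, X.Adj x y ∧ X.dist v x = X.dist v y + 1 := by
  obtain ⟨p, hp, hpl⟩ := hX.connected.exists_path_of_dist x v
  cases p with
  | nil => exact absurd rfl hne
  | cons h q =>
    rename_i w
    refine ⟨w, h, ?_⟩
    rcases dist_adj hX v h with h1 | h1
    · exfalso
      have h2 := SimpleGraph.dist_le q
      rw [SimpleGraph.Walk.length_cons] at hpl
      rw [X.dist_comm (u := w) (v := v), X.dist_comm (u := x) (v := v)] at *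
      omega
    · exact h1

/-- Once a non-backtracking path moves away from `a`, it always does. -/
lemma rise (hX : X.IsTree) (a : V) {n : ℕ} {c : ℕ → V}
    (hadj : ∀ i < n, X.Adj (c i) (c (i + 1))) (hnb : ∀ i, i + 2 ≤ n → c i ≠ c (i + 2))
    (h1 : X.dist a (c 1) = X.dist a (c 0) + 1) :
    ∀ k, k ≤ n → 1 ≤ k → X.dist a (c k) = X.dist a (c 0) + k := by
  intro k
  induction k using Nat.strong_induction_on with
  | _ k ih =>
    intro hk hk1
    rcases k with _ | _ | k
    · omega
    · simpa using h1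
    · have ih1 : X.dist a (c (k + 1)) = X.dist a (c 0) + (k + 1) :=
        ih (k + 1) (by omega) (by omega) (by omega)
      have ih0 : X.dist a (c k) = X.dist a (c 0) + k := by
        rcases Nat.eq_zero_or_pos k with h | h
        · subst h; rfl
        · exact ih k (by omega) (by omega) h
      rcases dist_adj hX a (hadj (k + 1) (by omega)) with h2 | h2
      · rw [show k + 1 + 1 = k + 1 + 1 from rfl] at h2 ⊢
        omega
      · exfalso
        refine hnb k (by omega) ?_
        exact unique_down hX (hadj k (by omega)).symm (hadj (k + 1) (by omega)) (by omega) h2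

/-- Geodesics, as functions on `ℕ`. -/
lemma exists_geodesic (hX : X.IsTree) (a b : V) :
    ∃ u : ℕ → V, u 0 = a ∧ u (X.dist a b) = b ∧
      (∀ i, i < X.dist a b → X.Adj (u i) (u (i + 1))) ∧
      (∀ i, i ≤ X.dist a b → X.dist (u i) b = X.dist a b - i) := by
  generalize hk : X.dist a b = k
  induction k generalizing a with
  | zero =>
    have hab := hX.connected.dist_eq_zero_iff.1 hk
    refine ⟨fun _ => a, rfl, hab, fun i hi => absurd hi (Nat.not_lt_zero _), fun i _ => ?_⟩
    simp [hk]
  | succ k ih =>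
    have hne : b ≠ a := by
      rintro rfl
      simp at hk
    obtain ⟨a', haa', hk'⟩ := exists_down hX hne
    rw [X.dist_comm, hk, X.dist_comm] at hk'
    obtain ⟨u, hu0, huk, hu, hud⟩ := ih a' (by omega)
    refine ⟨fun i => if i = 0 then a else u (i - 1), by simp, by simpa using huk, ?_, ?_⟩
    · intro i hi
      rcases i with _ | i
      · simpa [hu0] using haa'
      · simpa using hu i (by omega)
    · intro i hi
      rcases i with _ | i
      · simpa using hk
      · simpa using hud i (by omega)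

/-- If the steps from `y` towards `a` and towards `z` are different, then `y` is between `a` and
`z`. -/
lemma concat (hX : X.IsTree) {a y z : V}
    (h : ∀ w, X.Adj y w → X.dist a y = X.dist a w + 1 → X.dist z y = X.dist z w + 1 → False) :
    X.dist a y + X.dist y z = X.dist a z := by
  obtain ⟨u, hu0, hun, hadj, hd⟩ := exists_geodesic hX y z
  rcases Nat.eq_zero_or_pos (X.dist y z) with h0 | h0
  · have := hX.connected.dist_eq_zero_iff.1 h0
    subst this
    simp
  · have h1 : X.dist a (u 1) = X.dist a (u 0) + 1 := by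
      rcases dist_adj hX a (hadj 0 h0) with h1 | h1
      · simpa using h1
      · exfalso
        rw [hu0] at h1
        refine h (u 1) (by simpa [hu0] using hadj 0 h0) (by simpa using h1) ?_
        have := hd 1 h0
        rw [X.dist_comm (u := z) (v := y), X.dist_comm (u := z) (v := u 1), this]
        omega
    have h2 := rise hX a (n := X.dist y z) hadj (by
      intro i hi he
      have h3 := hd i (by omega)
      have h4 := hd (i + 2) hi
      rw [he] at h3
      omega) h1 (X.dist y z) le_rfl h0
    rw [hun, hu0] at h2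
    omega

/-- If `y` is between `a` and `b`, then it is between `a` and `z` or between `z` and `b`. -/
lemma tripod (hX : X.IsTree) {a b y : V} (z : V)
    (h : X.dist a y + X.dist y b = X.dist a b) :
    X.dist a y + X.dist y z = X.dist a z ∨ X.dist z y + X.dist y b = X.dist z b := by
  by_contra hcon
  rw [not_or] at hcon
  obtain ⟨h1, h2⟩ := hcon
  obtain ⟨w, hw, hwa, hwz⟩ : ∃ w, X.Adj y w ∧ X.dist a y = X.dist a w + 1 ∧
      X.dist z y = X.dist z w + 1 := by
    by_contra hc
    push Not at hc
    exact h1 (concat hX fun w h3 h4 h5 => hc w h3 h4 h5)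
  obtain ⟨w', hw', hwz', hwb'⟩ : ∃ w, X.Adj y w ∧ X.dist z y = X.dist z w + 1 ∧
      X.dist b y = X.dist b w + 1 := by
    by_contra hc
    push Not at hc
    exact h2 (concat hX fun w h3 h4 h5 => hc w h3 h4 h5)
  have h3 := unique_down hX hw hw' hwz hwz'
  subst h3
  have h4 : X.dist a b ≤ X.dist a w + X.dist w b := hX.connected.dist_triangle
  rw [X.dist_comm (u := b) (v := y), X.dist_comm (u := b) (v := w)] at hwb'
  omega

/-- A point between `a` and `b` is determined by its distance to `a`. -/
lemma between_unique (hX : X.IsTree) {a b y y' : V}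
    (h : X.dist a y + X.dist y b = X.dist a b) (h' : X.dist a y' + X.dist y' b = X.dist a b)
    (he : X.dist a y = X.dist a y') : y = y' := by
  rcases tripod hX y' h with h1 | h1
  · have : X.dist y y' = 0 := by omega
    exact hX.connected.dist_eq_zero_iff.1 this
  · have : X.dist y' y = 0 := by omega
    exact (hX.connected.dist_eq_zero_iff.1 this).symm

/-! ### Lines -/

/-- A bi-infinite non-backtracking path. -/
structure IsLine (X : SimpleGraph V) (c : ℤ → V) : Prop where
  adj : ∀ i, X.Adj (c i) (c (i + 1))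
  nb : ∀ i, c i ≠ c (i + 2)

lemma IsLine.dist_nat (hX : X.IsTree) {c : ℤ → V} (hc : IsLine X c) (i : ℤ) (n : ℕ) :
    X.dist (c i) (c (i + n)) = n := by
  rcases Nat.eq_zero_or_pos n with h | h
  · subst h; simp
  · have := rise hX (c i) (n := n) (c := fun k => c (i + k)) (fun k _ => by
      have := hc.adj (i + k)
      push_cast
      rwa [← add_assoc]) (fun k _ => by
      have := hc.nb (i + k)
      push_cast
      rwa [← add_assoc]) (by
        simp only [Nat.cast_one, Nat.cast_zero, add_zero, SimpleGraph.dist_self, zero_add]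
        exact SimpleGraph.dist_eq_one_iff_adj.2 (hc.adj i)) n le_rfl h
    simpa using this

lemma IsLine.dist (hX : X.IsTree) {c : ℤ → V} (hc : IsLine X c) (i j : ℤ) :
    X.dist (c i) (c j) = (i - j).natAbs := by
  rcases le_total i j with h | h
  · obtain ⟨n, rfl⟩ := Int.le.dest h
    rw [hc.dist_nat hX]
    omega
  · obtain ⟨n, rfl⟩ := Int.le.dest h
    rw [X.dist_comm, hc.dist_nat hX]
    omega

lemma IsLine.inj (hX : X.IsTree) {c : ℤ → V} (hc : IsLine X c) {i j : ℤ} (h : c i = c j) :
    i = j := by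
  have := hc.dist hX i j
  rw [h, SimpleGraph.dist_self] at this
  omega

lemma IsLine.shift {c : ℤ → V} (hc : IsLine X c) (s : ℤ) : IsLine X (fun i => c (i + s)) where
  adj i := by
    have := hc.adj (i + s)
    rwa [show i + s + 1 = i + 1 + s by ring] at this
  nb i := by
    have := hc.nb (i + s)
    rwa [show i + s + 2 = i + 2 + s by ring] at this

/-! ### Group actions -/

variable {G : Type*} [Group G] [MulAction G V]

/-- `G` acts on the graph `X` by automorphisms, preserving a two-colouring. -/
structure Act (G : Type*) [Group G] [MulAction G V] (X : SimpleGraph V) : Prop where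
  adj : ∀ (g : G) (x y : V), X.Adj x y → X.Adj (g • x) (g • y)
  col : ∃ col : V → Bool, (∀ (g : G) (x : V), col (g • x) = col x) ∧
    ∀ x y, X.Adj x y → col x ≠ col y

lemma Act.dist_smul_le (hG : Act G X) (hc : X.Connected) (g : G) (x y : V) :
    X.dist (g • x) (g • y) ≤ X.dist x y := by
  obtain ⟨p, hp⟩ := hc.exists_walk_length_eq_dist x y
  let f : X →g X := ⟨fun z => g • z, fun {a b} h => hG.adj g a b h⟩
  have := SimpleGraph.dist_le (p.map f)
  rw [SimpleGraph.Walk.length_map, hp] at this
  exact this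

lemma Act.dist_smul (hG : Act G X) (hc : X.Connected) (g : G) (x y : V) :
    X.dist (g • x) (g • y) = X.dist x y := by
  apply le_antisymm (hG.dist_smul_le hc g x y)
  have := hG.dist_smul_le hc g⁻¹ (g • x) (g • y)
  simpa using this

lemma path_dist_le (hc : X.Connected) {n : ℕ} {u : ℕ → V}
    (hu : ∀ i, i < n → X.Adj (u i) (u (i + 1))) (i k : ℕ) (h : i + k ≤ n) :
    X.dist (u i) (u (i + k)) ≤ k := by
  induction k with
  | zero => simp
  | succ k ih =>
    have h1 : X.dist (u i) (u (i + (k + 1))) ≤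
      X.dist (u i) (u (i + k)) + X.dist (u (i + k)) (u (i + k + 1)) := hc.dist_triangle
    have h2 := SimpleGraph.dist_eq_one_iff_adj.2 (hu (i + k) (by omega))
    have h3 := ih (by omega)
    omega

/-- An automorphism without fixed vertices has an axis. -/
theorem exists_axis (hX : X.IsTree) (hG : Act G X) (g : G) (hfix : ∀ y : V, g • y ≠ y) :
    ∃ (c : ℤ → V) (l : ℤ), 0 < l ∧ IsLine X c ∧ ∀ i, g • c i = c (i + l) := by
  have hc := hX.connected
  have := hc.nonempty
  obtain ⟨x, hx⟩ : ∃ x, ∀ y, X.dist x (g • x) ≤ X.dist y (g • y) :=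
    ⟨Function.argmin fun y => X.dist y (g • y), fun y =>
      Function.argmin_le (fun y => X.dist y (g • y)) y⟩
  obtain ⟨u, hu0, hun, hadj, hd⟩ := exists_geodesic hX x (g • x)
  have hn0 : 0 < X.dist x (g • x) := hc.pos_dist_of_ne (hfix x).symm
  generalize hn : X.dist x (g • x) = n at *
  have hgu : ∀ (q : ℤ), g ^ q • u n = g ^ (q + 1) • u 0 := by
    intro q
    rw [hun, hu0, smul_smul, zpow_add_one]
  have hn2 : 2 ≤ n := by
    by_contra hcon
    have h1 : n = 1 := by omega
    subst h1
    obtain ⟨col, hcol, hcol2⟩ := hG.col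
    have := hcol2 _ _ (hadj 0 (by omega))
    rw [hu0, hun, hcol] at this
    exact this rfl
  have hback : u (n - 1) ≠ g • u 1 := by
    intro he
    have h1 := hx (u 1)
    rw [← he] at h1
    have h2 := path_dist_le hc hadj 1 (n - 2) (by omega)
    rw [show 1 + (n - 2) = n - 1 by omega] at h2
    omega
  have hinj : ∀ r, r + 2 ≤ n → u r ≠ u (r + 2) := by
    intro r hr he
    have h1 := hd r (by omega)
    have h2 := hd (r + 2) hr
    rw [he] at h1
    omega
  have hnz : (n : ℤ) ≠ 0 := by omega
  have hpos : (0 : ℤ) < n := by omega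
  -- decomposition of an integer
  have key : ∀ i : ℤ, ∃ (q : ℤ) (r : ℕ), r < n ∧ i = q * n + r := by
    intro i
    refine ⟨i / n, (i % n).toNat, ?_, ?_⟩
    · have := Int.emod_lt_of_pos i hpos
      have := Int.emod_nonneg i hnz
      omega
    · rw [Int.toNat_of_nonneg (Int.emod_nonneg i hnz), mul_comm]
      exact (Int.mul_ediv_add_emod i n).symm
  let c : ℤ → V := fun i => g ^ (i / n) • u (i % n).toNat
  have hcq : ∀ (q : ℤ) (r : ℕ), r ≤ n → c (q * n + r) = g ^ q • u r := by
    intro q r hr
    rcases Nat.lt_or_eq_of_le hr with h | h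
    · have h1 : (q * n + r) / (n : ℤ) = q := by
        rw [add_comm, Int.add_mul_ediv_right _ _ hnz, Int.ediv_eq_zero_of_lt (by omega) (by omega),
          zero_add]
      have h2 : (q * n + r) % (n : ℤ) = r := by
        rw [add_comm, Int.add_mul_emod_self_right, Int.emod_eq_of_lt (by omega) (by omega)]
      show g ^ ((q * n + r) / (n : ℤ)) • u ((q * n + r) % (n : ℤ)).toNat = _
      rw [h1, h2, Int.toNat_natCast]
    · subst h
      have e : q * (r : ℤ) + r = (q + 1) * r := by ring
      have h1 : (q * r + r) / (r : ℤ) = q + 1 := by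
        rw [e, Int.mul_ediv_cancel _ hnz]
      have h2 : (q * r + r) % (r : ℤ) = 0 := by
        rw [e, Int.mul_emod_left]
      show g ^ ((q * r + r) / (r : ℤ)) • u ((q * r + r) % (r : ℤ)).toNat = _
      rw [h1, h2, hgu]
      rfl
  refine ⟨c, n, hpos, ⟨?_, ?_⟩, ?_⟩
  · intro i
    obtain ⟨q, r, hr, rfl⟩ := key i
    have h1 := hcq q r hr.le
    have h2 := hcq q (r + 1) hr
    rw [show q * (n : ℤ) + ((r + 1 : ℕ) : ℤ) = q * n + r + 1 by push_cast; ring] at h2
    rw [h1, h2]
    exact hG.adj _ _ _ (hadj r hr)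
  · intro i
    obtain ⟨q, r, hr, rfl⟩ := key i
    rcases Nat.lt_or_ge (r + 1) n with h | h
    · have h1 := hcq q r hr.le
      have h2 := hcq q (r + 2) h
      rw [show q * (n : ℤ) + ((r + 2 : ℕ) : ℤ) = q * n + r + 2 by push_cast; ring] at h2
      rw [h1, h2]
      intro he
      exact hinj r h (MulAction.injective _ he)
    · have hr' : r = n - 1 := by omega
      have h1 := hcq q r hr.le
      have h2 := hcq (q + 1) 1 (by omega)
      rw [show (q + 1) * (n : ℤ) + ((1 : ℕ) : ℤ) = q * n + r + 2 by rw [hr']; push_cast [show 1 ≤ n by omega]; ring] at h2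
      rw [h1, h2, zpow_add_one, mul_smul, hr']
      intro he
      exact hback (MulAction.injective _ he)
  · intro i
    obtain ⟨q, r, hr, rfl⟩ := key i
    have h1 := hcq q r hr.le
    have h2 := hcq (q + 1) r hr.le
    rw [show (q + 1) * (n : ℤ) + (r : ℤ) = q * n + r + n by ring] at h2
    rw [h1, h2, smul_smul, add_comm q 1, zpow_add, zpow_one]

/-- Convex sets of vertices. -/
def Conv (X : SimpleGraph V) (S : Set V) : Prop :=
  ∀ ⦃a⦄, a ∈ S → ∀ ⦃b⦄, b ∈ S → ∀ y, X.dist a y + X.dist y b = X.dist a b → y ∈ S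

lemma pow_line {c : ℤ → V} {l : ℤ} {g : G} (hg : ∀ i, g • c i = c (i + l)) (N : ℕ) (i : ℤ) :
    g ^ N • c i = c (i + N * l) := by
  induction N generalizing i with
  | zero => simp
  | succ N ih =>
    rw [pow_succ, mul_smul, hg, ih]
    congr 1
    push_cast
    ring

lemma zpow_line {c : ℤ → V} {l : ℤ} {g : G} (hg : ∀ i, g • c i = c (i + l)) (N : ℤ) (i : ℤ) :
    g ^ N • c i = c (i + N * l) := by
  obtain ⟨n, rfl | rfl⟩ := N.eq_nat_or_neg
  · rw [zpow_natCast, pow_line hg]
  · rw [zpow_neg, zpow_natCast, inv_smul_eq_iff, pow_line hg]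
    congr 1
    ring

/-- A point of the axis is between far away translates of any point. -/
lemma between_of_axis (hX : X.IsTree) (hG : Act G X) (g : G) {c : ℤ → V} {l : ℤ}
    (hc : IsLine X c) (hl : 0 < l) (hg : ∀ i, g • c i = c (i + l)) (i : ℤ) (x : V) :
    ∃ N : ℕ, X.dist ((g ^ N)⁻¹ • x) (c i) + X.dist (c i) (g ^ N • x) =
      X.dist ((g ^ N)⁻¹ • x) (g ^ N • x) := by
  have hcn := hX.connected
  refine ⟨X.dist (c i) x + 1, ?_⟩
  generalize hN : X.dist (c i) x + 1 = N
  have hga : (g ^ N)⁻¹ • c i = c (i - N * l) := by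
    rw [inv_smul_eq_iff, pow_line hg]
    congr 1
    ring
  have hgb : g ^ N • c i = c (i + N * l) := pow_line hg N i
  have hNl : (N : ℤ) ≤ N * l := by nlinarith
  have hda : X.dist (c (i - N * l)) ((g ^ N)⁻¹ • x) = X.dist (c i) x := by
    rw [← hga, hG.dist_smul hcn]
  have hdb : X.dist (c (i + N * l)) (g ^ N • x) = X.dist (c i) x := by
    rw [← hgb, hG.dist_smul hcn]
  have h0 : X.dist (c (i - N * l)) (c i) + X.dist (c i) (c (i + N * l)) =
      X.dist (c (i - N * l)) (c (i + N * l)) := by
    rw [hc.dist hX, hc.dist hX, hc.dist hX]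
    omega
  have hA : X.dist (c (i - N * l)) (c i) = ((N : ℤ) * l).natAbs := by
    rw [hc.dist hX]; omega
  have hB : X.dist (c i) (c (i + N * l)) = ((N : ℤ) * l).natAbs := by
    rw [hc.dist hX]; omega
  rcases tripod hX ((g ^ N)⁻¹ • x) h0 with h1 | h1
  · exfalso; omega
  · rcases tripod hX (g ^ N • x) h1 with h2 | h2
    · exact h2
    · exfalso
      rw [X.dist_comm (u := g ^ N • x) (v := c (i + N * l))] at h2
      omega

/-- The axis lies in every invariant convex set. -/
theorem axis_subset (hX : X.IsTree) (hG : Act G X) (g : G) {c : ℤ → V} {l : ℤ}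
    (hc : IsLine X c) (hl : 0 < l) (hg : ∀ i, g • c i = c (i + l)) {S : Set V}
    (hS : Conv X S) (hne : S.Nonempty) (hgS : ∀ x ∈ S, g • x ∈ S)
    (hgS' : ∀ x ∈ S, g⁻¹ • x ∈ S) (i : ℤ) : c i ∈ S := by
  obtain ⟨x, hx⟩ := hne
  obtain ⟨N, hN⟩ := between_of_axis hX hG g hc hl hg i x
  have h1 : ∀ N : ℕ, g ^ N • x ∈ S := by
    intro N
    induction N with
    | zero => simpa using hx
    | succ N ih => rw [pow_succ', mul_smul]; exact hgS _ ih
  have h2 : ∀ N : ℕ, (g ^ N)⁻¹ • x ∈ S := by
    intro N
    induction N with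
    | zero => simpa using hx
    | succ N ih => rw [pow_succ, mul_inv_rev, mul_smul]; exact hgS' _ ih
  exact hS (h2 N) (h1 N) _ hN

/-- The image of a line is convex. -/
lemma IsLine.conv_range (hX : X.IsTree) {c : ℤ → V} (hc : IsLine X c) :
    Conv X (Set.range c) := by
  rintro _ ⟨i, rfl⟩ _ ⟨j, rfl⟩ y hy
  rcases le_total i j with h | h
  · refine ⟨i + X.dist (c i) y, ?_⟩
    have h1 := hc.dist hX i j
    refine between_unique hX (a := c i) (b := c j) ?_ hy ?_
    · rw [hc.dist hX, hc.dist hX, hc.dist hX]; omega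
    · rw [hc.dist hX]; omega
  · refine ⟨i - X.dist (c i) y, ?_⟩
    have h1 := hc.dist hX i j
    refine between_unique hX (a := c i) (b := c j) ?_ hy ?_
    · rw [hc.dist hX, hc.dist hX, hc.dist hX]; omega
    · rw [hc.dist hX]; omega

/-- Uniqueness of the axis. -/
theorem axis_unique (hX : X.IsTree) (hG : Act G X) (g : G) {c c' : ℤ → V} {l l' : ℤ}
    (hc : IsLine X c) (hc' : IsLine X c') (hl : 0 < l) (hl' : 0 < l')
    (hg : ∀ i, g • c i = c (i + l)) (hg' : ∀ i, g • c' i = c' (i + l')) :
    l = l' ∧ ∃ s, ∀ i, c' i = c (i + s) := by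
  have hmem : ∀ i, c i ∈ Set.range c' := by
    refine axis_subset hX hG g hc hl hg (hc'.conv_range hX) ⟨c' 0, 0, rfl⟩ ?_ ?_
    · rintro _ ⟨j, rfl⟩
      exact ⟨j + l', (hg' j).symm⟩
    · rintro _ ⟨j, rfl⟩
      refine ⟨j - l', ?_⟩
      rw [eq_inv_smul_iff, hg']
      congr 1
      ring
  choose φ hφ using hmem
  have h1 : ∀ i, (φ i - φ (i + 1)).natAbs = 1 := by
    intro i
    rw [← hc'.dist hX, hφ, hφ]
    exact SimpleGraph.dist_eq_one_iff_adj.2 (hc.adj i)
  have h2 : ∀ i, φ i ≠ φ (i + 2) := by
    intro i he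
    have := hφ i
    rw [he, hφ] at this
    exact hc.nb i this.symm
  have h3 : ∀ i, φ (i + 1) - φ i = φ 1 - φ 0 := by
    intro i
    induction i using Int.induction_on with
    | zero => simp
    | succ i ih =>
      have a1 := h1 i
      have a2 := h1 (i + 1)
      have a3 := h2 i
      rw [show (i : ℤ) + 1 + 1 = i + 2 by ring] at a2 ⊢
      omega
    | pred i ih =>
      have a1 := h1 (-(i : ℤ) - 1)
      have a2 := h1 (-(i : ℤ))
      have a3 := h2 (-(i : ℤ) - 1)
      rw [show -(i : ℤ) - 1 + 1 = -i by ring] at a1 ⊢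
      rw [show -(i : ℤ) - 1 + 2 = -i + 1 by ring] at a3
      omega
  have h4 : ∀ i, φ i = φ 0 + (φ 1 - φ 0) * i := by
    intro i
    induction i using Int.induction_on with
    | zero => simp
    | succ i ih => have := h3 i; linarith
    | pred i ih =>
      have := h3 (-(i : ℤ) - 1)
      rw [show -(i : ℤ) - 1 + 1 = -i by ring] at this
      linarith
  have h5 : φ l = φ 0 + l' := by
    apply hc'.inj hX
    rw [hφ, ← hg', hφ, hg, zero_add]
  rw [h4 l] at h5
  have h6 := h1 0
  rw [zero_add] at h6
  have h7 : φ 1 - φ 0 = 1 := by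
    rcases (by omega : φ 1 - φ 0 = 1 ∨ φ 1 - φ 0 = -1) with h | h
    · exact h
    · exfalso
      rw [h] at h5
      omega
  rw [h7] at h5 h4
  refine ⟨by omega, -φ 0, fun i => ?_⟩
  rw [← hφ, h4]
  congr 1
  ring

/-- The fixed vertices form a convex set. -/
lemma conv_fix (hX : X.IsTree) (hG : Act G X) (g : G) : Conv X {x : V | g • x = x} := by
  intro a ha b hb y hy
  have hc := hX.connected
  refine between_unique hX (a := a) (b := b) ?_ hy ?_
  · have h1 := hG.dist_smul hc g a y
    have h2 := hG.dist_smul hc g y b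
    rw [show g • a = a from ha] at h1
    rw [show g • b = b from hb] at h2
    omega
  · have h1 := hG.dist_smul hc g a y
    rwa [show g • a = a from ha] at h1

/-- A fixed vertex in an invariant convex set. -/
theorem exists_fix_mem (hX : X.IsTree) (hG : Act G X) (g : G) {t : V} (ht : g • t = t)
    {S : Set V} (hS : Conv X S) (hne : S.Nonempty) (hgS : ∀ x ∈ S, g • x ∈ S) :
    ∃ s ∈ S, g • s = s := by
  have hc := hX.connected
  obtain ⟨s, hs, hmin⟩ : ∃ s ∈ S, ∀ s' ∈ S, X.dist t s ≤ X.dist t s' := by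
    have : Nonempty S := hne.to_subtype
    have h : ∃ s : S, ∀ s' : S, X.dist t s ≤ X.dist t s' :=
      ⟨Function.argmin (fun s : S => X.dist t s), fun s' =>
        Function.argmin_le (fun s : S => X.dist t s) s'⟩
    obtain ⟨s, hs⟩ := h
    exact ⟨s, s.2, fun s' hs' => hs ⟨s', hs'⟩⟩
  refine ⟨s, hs, ?_⟩
  have h1 : X.dist t (g • s) = X.dist t s := by
    have := hG.dist_smul hc g t s
    rwa [ht] at this
  have h2 : X.dist t s + X.dist s (g • s) = X.dist t (g • s) := by
    apply concat hX
    intro w hw h3 h4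
    have h5 : w ∈ S := by
      refine hS hs (hgS s hs) w ?_
      rw [SimpleGraph.dist_eq_one_iff_adj.2 hw, X.dist_comm (u := w), X.dist_comm (u := s)]
      omega
    have := hmin w h5
    omega
  have h3 : X.dist s (g • s) = 0 := by omega
  exact (hc.dist_eq_zero_iff.1 h3).symm

/-- Two commuting automorphisms with fixed vertices have a common fixed vertex. -/
theorem exists_common_fix (hX : X.IsTree) (hG : Act G X) {g h : G} (hgh : Commute g h) {x y : V}
    (hx : g • x = x) (hy : h • y = y) : ∃ z : V, g • z = z ∧ h • z = z := by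
  obtain ⟨z, hz, hz'⟩ := exists_fix_mem hX hG h hy (conv_fix hX hG g) ⟨x, hx⟩ (by
    intro z hz
    show g • h • z = h • z
    rw [smul_smul, hgh.eq, mul_smul, show g • z = z from hz])
  exact ⟨z, hz, hz'⟩

/-- A commuting element translates the axis. -/
theorem commute_axis (hX : X.IsTree) (hG : Act G X) {g h : G} (hgh : Commute g h)
    {c : ℤ → V} {l : ℤ} (hc : IsLine X c) (hl : 0 < l) (hg : ∀ i, g • c i = c (i + l)) :
    ∃ m : ℤ, ∀ i, h • c i = c (i + m) := by
  have hc' : IsLine X (fun i => h • c i) :=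
    ⟨fun i => hG.adj h _ _ (hc.adj i), fun i he => hc.nb i (MulAction.injective h he)⟩
  obtain ⟨_, s, hs⟩ := axis_unique hX hG g hc hc' hl hl hg (fun i => by
    rw [smul_smul, hgh.eq, mul_smul, hg])
  exact ⟨s, hs⟩

end Pool.Agent.MP_140312_al_Neg.TA
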