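import Pool.Agent.Lib.MP_140312_al_SG.Colimit
import Pool.Agent.Lib.MP_140312_al_SG.Develop
import Pool.Agent.Lib.MP_140312_al_SG.Flat
import Pool.Agent.Lib.MP_140312_al_SG.Grid
import Pool.Agent.Lib.MP_140312_al_Neg.Bridge

/-!
# Squares of finite groups whose flats are not periodic
-/

namespace Pool.Agent.MP_140312_al_Neg

open Pool.Agent.Lib.MP_140312_al Pool.Agent.Lib.MP_140312_al_SG

/-- If a square of finite groups has flat squares of every size but no periodic flats, then its
fundamental group acts geometrically on a CAT(0) square complex, does not contain `ℤ ^ 2`, and is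
not hyperbolic. -/
theorem counterexample_of_square (S : Square) (hfin : ∀ i j, Finite (S.P i j))
    (hpatch : S.HasPatches) (hper : ¬ S.HasPeriodicFlat) :
    ∃ (G : Type) (_ : Group G) (V : Type) (_ : MulAction G V) (X : SimpleGraph V),
      IsMedianGraph X ∧ IsCAT0SquareComplex X ∧ GeometricAction G X ∧ Group.FG G ∧
      (¬ ∃ φ : Multiplicative (ℤ × ℤ) →* G, Function.Injective φ) ∧
      ¬ IsHyperbolic X ∧
      ∀ T : Set G, T.Finite → Subgroup.closure T = ⊤ →
        ¬ IsHyperbolic (SimpleGraph.mulCayley T) := by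
  obtain ⟨G, _, ι, hcompat, hinj, -, hsq, hhe, hve⟩ := exists_colimit S.toSqData
  have R : Realises S G ι := ⟨hcompat.1, hcompat.2, hinj, hhe, hve⟩
  have hfin' : ∀ i j, Finite ((ι i j).range) := by
    intro i j
    have : Finite (S.toSqData.P i j) := hfin i j
    exact Finite.of_surjective _ (ι i j).rangeRestrict_surjective
  have harr : ∀ N : ℤ, ∃ F : ℤ → ℤ → G,
      IsArrayOn (fun i j => (ι i j).range) (Set.Icc 0 N) (Set.Icc 0 N) F :=
    exists_isArrayOn R hpatch
  have hmed := dev_isMedianGraph hsq
  have hgeo := dev_geometricAction hsq hfin'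
  refine ⟨G, inferInstance, Vtx (fun i j => (ι i j).range), inferInstance, Dev _,
    hmed, dev_isCAT0 hsq, hgeo, fg_of_geometric hmed.connected hgeo, ?_, not_isHyperbolic hsq harr, ?_⟩
  · rintro ⟨φ, hφ⟩
    obtain ⟨F, h, x, y, hF, hxy, htr⟩ := exists_translated_flat_of hsq
      (BS_isTree hsq.altCol (col_sup hsq)) (BS_isTree hsq.altRow (row_sup hsq)) hfin' φ hφ
    exact hper (hasPeriodicFlat R F hF hxy htr)
  · intro T hT hgen
    have h1 : SimpleGraph.mulCayley T = cayley T := by
      ext g h
      rw [SimpleGraph.mulCayley_adj']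
      refine and_congr_right fun _ => ⟨?_, ?_⟩
      · rintro ⟨a, ha, rfl | rfl⟩
        · left
          simpa using ha
        · right
          simpa using ha
      · rintro (ha | ha)
        · exact ⟨_, ha, Or.inl (by simp)⟩
        · exact ⟨_, ha, Or.inr (by simp)⟩
    rw [h1]
    exact not_isHyperbolic_cayley hsq hfin' harr T hT hgen

end Pool.Agent.MP_140312_al_Neg
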